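import Pool.Agent.Lib.MP_c11b14_lc.LM.Defs

set_option autoImplicit false

namespace Pool.Agent.MP_c11b14_lc.LM

open Set Polynomial

theorem a1_signVariations_lt {p : ℝ[X]} (hp : p ≠ 0) : p.signVariations + 1 ≤ p.support.card := by
  induction hn : p.support.card using Nat.strong_induction_on generalizing p with
  | _ n ih =>
    by_cases h0 : p.eraseLead = 0
    · have h1 : p.signVariations ≤ 0 := by
        have h2 : p = monomial p.natDegree p.leadingCoeff := by
          have := p.eraseLead_add_monomial_natDegree_leadingCoeff
          rw [h0, zero_add] at this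
          exact this.symm
        rw [h2, signVariations_monomial]
      have h2 : 0 < p.support.card := Finset.card_pos.2 (support_nonempty.2 hp)
      omega
    · have h1 := p.signVariations_le_eraseLead_succ
      have h2 : p.eraseLead.support.card < n := by
        rw [← hn]
        exact eraseLead_support_card_lt hp
      have h3 := ih _ h2 h0 rfl
      omega


/-- ROW A1a (Descartes). PROOF. `Polynomial.roots_countP_pos_le_signVariations` in Mathlib, and the
number of sign variations is `< p.support.card` for `p ≠ 0` (see `card_pos_roots` in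
Pool/Agent/Lib/MP_c11b14_lc/SCMain.lean; `Multiset.countP_eq_card_filter`). -/
theorem pos_roots_lt {s : Finset ℕ} {p : ℝ[X]} (hp : p ≠ 0) (hs : p.support ⊆ s) :
    (p.roots.filter fun x => 0 < x).card < s.card := by
  have h1 := p.roots_countP_pos_le_signVariations
  have h2 : p.signVariations + 1 ≤ p.support.card := a1_signVariations_lt hp
  have h3 := Finset.card_le_card hs
  rw [Multiset.countP_eq_card_filter] at h1
  omega

/-- ROW A1b. -/
theorem npos_lt {s : Finset ℕ} {p : ℝ[X]} (hp : p ≠ 0) (hs : p.support ⊆ s) :
    npos p < s.card := by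
  have h1 := pos_roots_lt hp hs
  have h3 : npos p ≤ (p.roots.filter fun x => 0 < x).card := by
    unfold npos
    rw [← Multiset.toFinset_filter]
    exact Multiset.toFinset_card_le _
  omega

/-- ROW A1c. Non-overlapping intervals with a root in each. -/
theorem card_lt_of_roots {s : Finset ℕ} {p : ℝ[X]} (hp : p ≠ 0) (hs : p.support ⊆ s) {ι : Type}
    (I : Finset ι) (a b : ι → ℝ) (ha : ∀ i ∈ I, 0 < a i) (hd : Dis I a b)
    (h : ∀ i ∈ I, ∃ x ∈ Ioo (a i) (b i), p.eval x = 0) : I.card < s.card := by
  classical
  have h1 := npos_lt hp hs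
  choose! x hx hx0 using h
  have h2 : I.card ≤ npos p := by
    unfold npos
    refine Finset.card_le_card_of_injOn x (fun i hi => ?_) fun i hi j hj hij => ?_
    · rw [Finset.mem_coe, Finset.mem_filter, Multiset.mem_toFinset, mem_roots hp]
      exact ⟨hx0 i hi, (ha i hi).trans (hx i hi).1⟩
    · by_contra hne
      have hi' := hx i hi
      have hj' := hx j hj
      rw [← hij] at hj'
      rcases hd i hi j hj hne with h3 | h3
      · exact absurd (hi'.2.trans_le h3) (not_lt.2 hj'.1.le)
      · exact absurd (hj'.2.trans_le h3) (not_lt.2 hi'.1.le)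
  omega

/-- ROW A1d. `p ∈ E(s)` has no alternation with `s.card + 1` points (IVT and A1c). -/
theorem not_alt {s : Finset ℕ} {p : ℝ[X]} (hs : p.support ⊆ s) (q : ℕ → ℝ) :
    ¬ Alt p (s.card + 1) q := by
  rintro ⟨h1, h2⟩
  have hp : p ≠ 0 := by
    rintro rfl
    simpa using (h2 0 (by omega)).2
  have hanti : ∀ i j, i ≤ j → j < s.card + 1 → q j ≤ q i := by
    intro i j hij
    induction j, hij using Nat.le_induction with
    | base => intro _; exact le_rfl
    | succ j _ ih => intro hj; exact (h1 j hj).le.trans (ih (by omega))
  have h3 : (Finset.range s.card).card < s.card := by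
    refine card_lt_of_roots hp hs (Finset.range s.card) (fun k => q (k + 1)) (fun k => q k)
      (fun k hk => (h2 (k + 1) (by have := Finset.mem_range.1 hk; omega)).1)
      (fun i hi j hj hij => ?_) fun k hk => ?_
    · have hi' := Finset.mem_range.1 hi
      have hj' := Finset.mem_range.1 hj
      rcases lt_or_gt_of_ne hij with h | h
      · exact Or.inr (hanti (i + 1) j h (by omega))
      · exact Or.inl (hanti (j + 1) i h (by omega))
    · have hk' := Finset.mem_range.1 hk
      have hlt := h1 k (by omega)
      have ha := (h2 k (by omega)).2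
      have hb := (h2 (k + 1) (by omega)).2
      have hcont : ContinuousOn (fun x => (-1) ^ k * p.eval x) (Icc (q (k + 1)) (q k)) :=
        (continuous_const.mul p.continuous).continuousOn
      have hb' : (-1) ^ k * p.eval (q (k + 1)) < 0 := by
        rw [pow_succ] at hb; nlinarith
      obtain ⟨x, hx, hx0⟩ := intermediate_value_Ioo hlt.le hcont ⟨hb', ha⟩
      refine ⟨x, hx, ?_⟩
      have : ((-1 : ℝ) ^ k) ≠ 0 := pow_ne_zero _ (by norm_num)
      simpa [this] using hx0
  simp at h3

end Pool.Agent.MP_c11b14_lc.LM
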