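import Pool.Agent.Lib.MP_c11b14_lc.LM.A1

set_option autoImplicit false

namespace Pool.Agent.MP_c11b14_lc.LM

open Set Polynomial

private theorem b1_sign {p : ℝ[X]} {a b : ℝ} (hw : ∀ x ∈ Icc a b, p.eval x ≠ 0) {x : ℝ}
    (hx : x ∈ Icc a b) : 0 < p.eval a * p.eval x := by
  have ha : p.eval a ≠ 0 := hw a ⟨le_rfl, hx.1.trans hx.2⟩
  by_contra hcon
  push Not at hcon
  have hc : ContinuousOn (fun u => p.eval a * p.eval u) (Icc a x) :=
    (continuous_const.mul p.continuous).continuousOn
  have h0 : (0 : ℝ) ∈ (fun u => p.eval a * p.eval u) '' Icc a x :=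
    intermediate_value_Icc' hx.1 hc ⟨hcon, (mul_self_pos.2 ha).le⟩
  obtain ⟨u, hu, hu0⟩ := h0
  rcases mul_eq_zero.1 hu0 with h | h
  · exact ha h
  · exact hw u ⟨hu.1, hu.2.trans hx.2⟩ h

/-- ROW B1 (insertion). `p` alternates at `q 0 > ... > q (t-1)`, it has no alternation with `t + 1`
points, and no root in `[a, b]`. Then one `q j` can be replaced by the whole interval `[a, b]`.
PROOF. `p` has constant sign on `[a, b]`, so at most one `q k` is in `[a, b]` (two neighbours have
opposite signs). If `q j ∈ [a, b]`: done with this `j`. Else let `q k > b` for `k < i` and `q k < a`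
for `k ≥ i`. If `0 < i` and `p (q (i-1))` has the sign of `p a`: `j = i - 1`. If `i < t` and
`p (q i)` has the sign of `p a`: `j = i`. Otherwise `i = 0` or `i = t` (the signs at `q (i-1)` and
`q i` are opposite), and `a` together with `q 0, ..., q (t-1)` is an alternation (of `p` or `-p`)
with `t + 1` points. -/
theorem insert_window {p : ℝ[X]} {t : ℕ} {q : ℕ → ℝ} (hq : Alt p t q) (ht : 0 < t)
    (hmax : ∀ q', ¬ Alt p (t + 1) q' ∧ ¬ Alt (-p) (t + 1) q') {a b : ℝ} (hw : Win p a b) :
    ∃ j < t, (∀ k < j, b < q k) ∧ (∀ k, j < k → k < t → q k < a) ∧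
      0 < (-1) ^ j * p.eval a := by
  classical
  obtain ⟨hq1, hq2⟩ := hq
  obtain ⟨ha, hab, hne⟩ := hw
  have hpa : p.eval a ≠ 0 := hne a ⟨le_rfl, hab.le⟩
  -- monotonicity
  have hanti : ∀ d k, k + d < t → q (k + d) ≤ q k := by
    intro d
    induction d with
    | zero => intro k _; exact le_rfl
    | succ d ih =>
      intro k hk
      have h1 := ih k (by omega)
      have h2 := hq1 (k + d) (by omega)
      have h3 : k + (d + 1) = k + d + 1 := by ring
      rw [h3]
      linarith
  have hanti' : ∀ k m, k ≤ m → m < t → q m ≤ q k := by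
    intro k m hkm hm
    have := hanti (m - k) k (by omega)
    rwa [Nat.add_sub_cancel' hkm] at this
  have hex : ∃ i, i = t ∨ (i < t ∧ q i ≤ b) := ⟨t, Or.inl rfl⟩
  set i := Nat.find hex with hi
  have hspec := Nat.find_spec hex
  rw [← hi] at hspec
  have hit : i ≤ t := by rcases hspec with h | h <;> omega
  have hbelow : ∀ k < i, b < q k := by
    intro k hk
    have h1 := Nat.find_min hex (m := k) (by rw [← hi]; exact hk)
    by_contra hcon
    push Not at hcon
    exact h1 (Or.inr ⟨by omega, hcon⟩)
  by_cases h1 : i < t ∧ a ≤ q i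
  · obtain ⟨hit', hai⟩ := h1
    have hqb : q i ≤ b := by
      rcases hspec with h | h
      · omega
      · exact h.2
    have hsi := b1_sign hne (x := q i) ⟨hai, hqb⟩
    refine ⟨i, hit', hbelow, ?_, ?_⟩
    · intro k hk hkt
      by_contra hcon
      push Not at hcon
      have h2 : q (i + 1) < q i := hq1 i (by omega)
      have h3 : q k ≤ q (i + 1) := hanti' (i + 1) k hk hkt
      have hs2 := b1_sign hne (x := q (i + 1)) ⟨hcon.trans h3, (h2.le.trans hqb)⟩
      have h4 := (hq2 i hit').2
      have h5 := (hq2 (i + 1) (by omega)).2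
      rw [pow_succ] at h5
      have h6 : 0 < ((-1) ^ i * p.eval (q i)) * ((-1) ^ i * -1 * p.eval (q (i + 1))) :=
        mul_pos h4 h5
      have h7 : ((-1 : ℝ) ^ i) * ((-1 : ℝ) ^ i) = 1 := by
        rw [← mul_pow]; norm_num
      have h8 : 0 < p.eval (q i) * p.eval (q (i + 1)) := by
        have h9 : 0 < (p.eval a * p.eval (q i)) * (p.eval a * p.eval (q (i + 1))) :=
          mul_pos hsi hs2
        have h10 : (p.eval a * p.eval (q i)) * (p.eval a * p.eval (q (i + 1))) =
          (p.eval a * p.eval a) * (p.eval (q i) * p.eval (q (i + 1))) := by ring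
        rw [h10] at h9
        exact (mul_pos_iff_of_pos_left (mul_self_pos.2 hpa)).1 h9
      have h11 : ((-1) ^ i * p.eval (q i)) * ((-1) ^ i * -1 * p.eval (q (i + 1))) =
        -((((-1 : ℝ) ^ i) * ((-1 : ℝ) ^ i)) * (p.eval (q i) * p.eval (q (i + 1)))) := by ring
      rw [h11, h7] at h6
      linarith
    · have h4 := (hq2 i hit').2
      have h5 : 0 < ((-1) ^ i * p.eval (q i)) * (p.eval a * p.eval (q i)) := mul_pos h4 hsi
      have h6 : ((-1) ^ i * p.eval (q i)) * (p.eval a * p.eval (q i)) =
        ((-1) ^ i * p.eval a) * (p.eval (q i) * p.eval (q i)) := by ring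
      rw [h6] at h5
      have h7 : p.eval (q i) ≠ 0 := hne _ ⟨hai, hqb⟩
      exact (mul_pos_iff_of_pos_right (mul_self_pos.2 h7)).1 h5
  · have habove : ∀ k, i ≤ k → k < t → q k < a := by
      intro k hk hkt
      have h2 : q i < a := by
        by_contra hcon
        push Not at hcon
        exact h1 ⟨by omega, hcon⟩
      exact (hanti' i k hk hkt).trans_lt h2
    by_cases h2 : 0 < i ∧ 0 < (-1) ^ (i - 1) * p.eval a
    · refine ⟨i - 1, by omega, fun k hk => hbelow k (by omega), fun k hk hkt =>
        habove k (by omega) hkt, h2.2⟩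
    by_cases h3 : i < t ∧ 0 < (-1) ^ i * p.eval a
    · exact ⟨i, h3.1, hbelow, fun k hk hkt => habove k hk.le hkt, h3.2⟩
    exfalso
    have hne' : ∀ j : ℕ, (-1 : ℝ) ^ j * p.eval a ≠ 0 := fun j =>
      mul_ne_zero (pow_ne_zero _ (by norm_num)) hpa
    rcases Nat.eq_zero_or_pos i with h0 | h0
    · -- all points are below `a`
      have h4 : (-1 : ℝ) ^ i * p.eval a < 0 := by
        rcases lt_or_gt_of_ne (hne' i) with h | h
        · exact h
        · exact absurd ⟨by omega, h⟩ h3
      rw [h0, pow_zero, one_mul] at h4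
      apply (hmax (fun k => if k = 0 then a else q (k - 1))).2
      refine ⟨?_, ?_⟩
      · intro k hk
        rcases Nat.eq_zero_or_pos k with rfl | hk0
        · simpa using habove 0 (by omega) ht
        · have e1 : k + 1 - 1 = (k - 1) + 1 := by omega
          simp only [show ¬ (k + 1 = 0) by omega, show ¬ (k = 0) by omega, if_false]
          rw [e1]
          exact hq1 (k - 1) (by omega)
      · intro k hk
        rcases Nat.eq_zero_or_pos k with rfl | hk0
        · simp only [if_true, pow_zero, one_mul, eval_neg]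
          exact ⟨ha, by linarith⟩
        · simp only [show ¬ (k = 0) by omega, if_false, eval_neg]
          obtain ⟨m, rfl⟩ : ∃ m, k = m + 1 := ⟨k - 1, by omega⟩
          rw [Nat.add_sub_cancel]
          have h5 := hq2 m (by omega)
          refine ⟨h5.1, ?_⟩
          rw [pow_succ]
          have h6 := h5.2
          have e2 : (-1 : ℝ) ^ m * -1 * -p.eval (q m) = (-1) ^ m * p.eval (q m) := by ring
          rw [e2]; exact h6
    · -- all points are above `b`
      have h4 : (-1 : ℝ) ^ (i - 1) * p.eval a < 0 := by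
        rcases lt_or_gt_of_ne (hne' (i - 1)) with h | h
        · exact h
        · exact absurd ⟨h0, h⟩ h2
      have h5 : 0 < (-1 : ℝ) ^ i * p.eval a := by
        obtain ⟨m, hm⟩ : ∃ m, i = m + 1 := ⟨i - 1, by omega⟩
        rw [hm, Nat.add_sub_cancel] at h4
        rw [hm, pow_succ]
        have e2 : (-1 : ℝ) ^ m * -1 * p.eval a = -((-1) ^ m * p.eval a) := by ring
        rw [e2]; linarith
      have h6 : i = t := by
        by_contra hcon
        exact h3 ⟨by omega, h5⟩
      apply (hmax (fun k => if k = t then a else q k)).1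
      refine ⟨?_, ?_⟩
      · intro k hk
        rcases Nat.lt_or_ge (k + 1) t with h7 | h7
        · simp only [show ¬ (k + 1 = t) by omega, show ¬ (k = t) by omega, if_false]
          exact hq1 k h7
        · have h8 : k + 1 = t := by omega
          simp only [h8, if_true, show ¬ (k = t) by omega, if_false]
          exact hab.trans (hbelow k (by omega))
      · intro k hk
        by_cases h7 : k = t
        · simp only [h7, if_true]
          refine ⟨ha, ?_⟩
          rw [← h6]; exact h5
        · simp only [h7, if_false]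
          exact hq2 k (by omega)

end Pool.Agent.MP_c11b14_lc.LM
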