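import Pool.Agent.Lib.MP_c11b14_lc.LM.B1

set_option autoImplicit false

namespace Pool.Agent.MP_c11b14_lc.LM

open Set Polynomial

/-- ROW B2a. A differentiable function `ψ` with `t + 2` points `w 0 > w 1 > ... > w (t+1) > 0` whose
consecutive differences alternate in sign, and `ψ' x = x^(-β-1) g x` on `(0, ∞)`: then `g` or `-g`
alternates at `t + 1` points. PROOF. Mean value theorem on each `[w (k+1), w k]`. -/
theorem alt_of_zigzag {t : ℕ} {p : ℝ[X]} {β : ℝ} {w : ℕ → ℝ}
    (hw : ∀ k < t + 1, 0 < w (k + 1) ∧ w (k + 1) < w k) {σ : ℝ}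
    (hz : ∀ k < t + 1, 0 < σ * ((-1) ^ k * (w k ^ (-β) * p.eval (w k) -
      w (k + 1) ^ (-β) * p.eval (w (k + 1))))) :
    ∃ q, Alt (X * derivative p - C β * p) (t + 1) q ∨
      Alt (-(X * derivative p - C β * p)) (t + 1) q := by
  have hder : ∀ x : ℝ, 0 < x → HasDerivAt (fun x : ℝ => x ^ (-β) * p.eval x)
      (x ^ (-β - 1) * (X * derivative p - C β * p).eval x) x := by
    intro x hx
    have h1 := (Real.hasDerivAt_rpow_const (p := -β) (Or.inl hx.ne')).mul (p.hasDerivAt x)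
    have h2 : x ^ (-β) = x ^ (-β - 1) * x := by
      rw [Real.rpow_sub_one hx.ne', div_mul_cancel₀ _ hx.ne']
    refine HasDerivAt.congr_deriv h1 ?_
    rw [eval_sub, eval_mul, eval_mul, eval_X, eval_C, h2]
    ring
  have hmv : ∀ k, ∃ y, k < t + 1 → (w (k + 1) < y ∧ y < w k) ∧
      0 < σ * ((-1) ^ k * (X * derivative p - C β * p).eval y) := by
    intro k
    by_cases hk : k < t + 1
    · obtain ⟨h0, h1⟩ := hw k hk
      obtain ⟨y, hy, hy'⟩ := exists_hasDerivAt_eq_slope (fun x : ℝ => x ^ (-β) * p.eval x)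
        (fun x => x ^ (-β - 1) * (X * derivative p - C β * p).eval x) h1
        (fun x hx => (hder x (h0.trans_le hx.1)).continuousAt.continuousWithinAt)
        (fun x hx => hder x (h0.trans hx.1))
      refine ⟨y, fun _ => ⟨hy, ?_⟩⟩
      have hy0 : 0 < y := h0.trans hy.1
      have hp0 : 0 < y ^ (-β - 1) := Real.rpow_pos_of_pos hy0 _
      have hd : 0 < w k - w (k + 1) := sub_pos.2 h1
      have h2 := hz k hk
      have h3 : w k ^ (-β) * p.eval (w k) - w (k + 1) ^ (-β) * p.eval (w (k + 1)) =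
          y ^ (-β - 1) * (X * derivative p - C β * p).eval y * (w k - w (k + 1)) := by
        have h4 : y ^ (-β - 1) * (X * derivative p - C β * p).eval y =
            (w k ^ (-β) * p.eval (w k) - w (k + 1) ^ (-β) * p.eval (w (k + 1))) /
              (w k - w (k + 1)) := hy'
        rw [h4, div_mul_cancel₀ _ hd.ne']
      rw [h3] at h2
      have h5 : σ * ((-1) ^ k * (y ^ (-β - 1) * (X * derivative p - C β * p).eval y *
          (w k - w (k + 1)))) = (y ^ (-β - 1) * (w k - w (k + 1))) *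
            (σ * ((-1) ^ k * (X * derivative p - C β * p).eval y)) := by ring
      rw [h5] at h2
      exact (pos_iff_pos_of_mul_pos h2).1 (mul_pos hp0 hd)
    · exact ⟨0, fun h => absurd h hk⟩
  choose y hy using hmv
  have hdec : ∀ k, k + 1 < t + 1 → y (k + 1) < y k := by
    intro k hk
    exact ((hy (k + 1) hk).1.2).trans (hy k (by omega)).1.1
  have hpos : ∀ k < t + 1, 0 < y k := fun k hk => ((hw k hk).1).trans (hy k hk).1.1
  refine ⟨y, ?_⟩
  rcases lt_trichotomy σ 0 with hσ | hσ | hσ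
  · right
    refine ⟨hdec, fun k hk => ⟨hpos k hk, ?_⟩⟩
    have h1 := (hy k hk).2
    rw [eval_neg]
    nlinarith
  · exfalso
    have h1 := hz 0 (Nat.succ_pos t)
    rw [hσ, zero_mul] at h1
    exact lt_irrefl _ h1
  · left
    refine ⟨hdec, fun k hk => ⟨hpos k hk, ?_⟩⟩
    have h1 := (hy k hk).2
    exact (pos_iff_pos_of_mul_pos h1).1 hσ

private theorem supp_g {s : Finset ℕ} {p : ℝ[X]} (hs : p.support ⊆ s) (β : ℝ) :
    (X * derivative p - C β * p).support ⊆ s := by
  intro n hn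
  by_contra hns
  have h0 : p.coeff n = 0 := by
    by_contra h
    exact hns (hs (mem_support_iff.2 h))
  rw [mem_support_iff] at hn
  apply hn
  rw [coeff_sub, coeff_C_mul, h0, mul_zero, sub_zero]
  cases n with
  | zero => simp
  | succ n => rw [coeff_X_mul, coeff_derivative, h0, zero_mul]

private theorem same_sign {p : ℝ[X]} {a b x : ℝ} (h : ∀ y ∈ Icc a b, p.eval y ≠ 0) (hx : x ∈ Icc a b)
    {σ : ℝ} (hσ : 0 < σ * p.eval a) : 0 < σ * p.eval x := by
  by_contra hcon
  rw [not_lt] at hcon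
  have hc : ContinuousOn (fun y => σ * p.eval y) (Icc a x) :=
    (continuous_const.mul p.continuous).continuousOn
  obtain ⟨y, hy, hy0⟩ := intermediate_value_Icc' hx.1 hc ⟨hcon, hσ.le⟩
  have hσ0 : σ ≠ 0 := by
    rintro rfl
    rw [zero_mul] at hσ
    exact lt_irrefl _ hσ
  exact h y ⟨hy.1, hy.2.trans hx.2⟩ ((mul_eq_zero.1 hy0).resolve_left hσ0)

private theorem logconcave_aux {s : Finset ℕ} (hs0 : 0 < s.card) {p : ℝ[X]} (hs : p.support ⊆ s)
    {q : ℕ → ℝ} (hq : Alt p s.card q) {a b : ℝ} (hw : Win p a b) :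
    p.eval a * p.eval b ≤ p.eval (Real.sqrt (a * b)) ^ 2 := by
  obtain ⟨ha, hab, hne⟩ := hw
  have hb : 0 < b := ha.trans hab
  by_contra hcon
  rw [not_le] at hcon
  obtain ⟨c, hcdef⟩ : ∃ c, c = Real.sqrt (a * b) := ⟨_, rfl⟩
  rw [← hcdef] at hcon
  have hc2 : c * c = a * b := by rw [hcdef]; exact Real.mul_self_sqrt (mul_pos ha hb).le
  have hc0 : 0 < c := by rw [hcdef]; exact Real.sqrt_pos.2 (mul_pos ha hb)
  have hac : a < c := by
    by_contra h
    rw [not_lt] at h
    nlinarith [mul_le_mul h h hc0.le ha.le, mul_lt_mul_of_pos_left hab ha]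
  have hcb : c < b := by
    by_contra h
    rw [not_lt] at h
    nlinarith [mul_le_mul h h hb.le hc0.le, mul_lt_mul_of_pos_right hab hb]
  obtain ⟨j, hj, hj1, hj2, hj3⟩ := insert_window hq hs0
    (fun q' => ⟨not_alt hs q', not_alt (by rwa [support_neg]) q'⟩) ⟨ha, hab, hne⟩
  have hA := hj3
  have hC := same_sign hne ⟨hac.le, hcb.le⟩ hj3
  have hB := same_sign hne ⟨hab.le, le_rfl⟩ hj3
  obtain ⟨σ, hσ⟩ : ∃ σ : ℝ, σ = (-1) ^ j := ⟨_, rfl⟩
  have hσ2 : σ * σ = 1 := by
    rw [hσ, ← mul_pow]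
    norm_num
  rw [← hσ] at hA hB hC
  obtain ⟨A, hAe⟩ : ∃ A, A = σ * p.eval a := ⟨_, rfl⟩
  obtain ⟨B, hBe⟩ : ∃ B, B = σ * p.eval b := ⟨_, rfl⟩
  obtain ⟨E, hEe⟩ : ∃ E, E = σ * p.eval c := ⟨_, rfl⟩
  rw [← hAe] at hA
  rw [← hBe] at hB
  rw [← hEe] at hC
  have hABE : E * E < A * B := by
    rw [hAe, hBe, hEe]
    have e1 : σ * p.eval c * (σ * p.eval c) = (σ * σ) * p.eval c ^ 2 := by ring
    have e2 : σ * p.eval a * (σ * p.eval b) = (σ * σ) * (p.eval a * p.eval b) := by ring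
    rw [e1, e2, hσ2, one_mul, one_mul]
    exact hcon
  have hlab : 0 < Real.log b - Real.log a := sub_pos.2 (Real.log_lt_log ha hab)
  obtain ⟨β, hβ⟩ : ∃ β, β = (Real.log B - Real.log A) / (Real.log b - Real.log a) := ⟨_, rfl⟩
  have hβ' : β * (Real.log b - Real.log a) = Real.log B - Real.log A := by
    rw [hβ, div_mul_cancel₀ _ hlab.ne']
  have hlc : 2 * Real.log c = Real.log a + Real.log b := by
    rw [← Real.log_mul ha.ne' hb.ne', ← hc2, Real.log_mul hc0.ne' hc0.ne']
    ring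
  have hlE : 2 * Real.log E < Real.log A + Real.log B := by
    rw [← Real.log_mul hA.ne' hB.ne', two_mul, ← Real.log_mul hC.ne' hC.ne']
    exact Real.log_lt_log (mul_pos hC hC) hABE
  have ex : ∀ x y : ℝ, 0 < x → 0 < y → x ^ (-β) * y = Real.exp (-β * Real.log x + Real.log y) := by
    intro x y hx hy
    rw [Real.exp_add, Real.exp_log hy, Real.rpow_def_of_pos hx, mul_comm (Real.log x)]
  have hab' : a ^ (-β) * A = b ^ (-β) * B := by
    rw [ex a A ha hA, ex b B hb hB]
    congr 1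
    linarith
  have hca' : c ^ (-β) * E < a ^ (-β) * A := by
    rw [ex a A ha hA, ex c E hc0 hC]
    apply Real.exp_lt_exp.2
    have e1 : 2 * (-β * Real.log c) = -β * (Real.log a + Real.log b) := by rw [← hlc]; ring
    linarith
  -- the points
  obtain ⟨w, hwdef⟩ : ∃ w : ℕ → ℝ, w = fun k => if k < j then q k else if k = j then b else
    if k = j + 1 then c else if k = j + 2 then a else q (k - 2) := ⟨_, rfl⟩
  have hw1 : ∀ k < j, w k = q k := fun k hk => by rw [hwdef]; exact if_pos hk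
  have hw2 : w j = b := by rw [hwdef]; simp
  have hw3 : w (j + 1) = c := by rw [hwdef]; simp
  have hw4 : w (j + 2) = a := by rw [hwdef]; simp
  have hw5 : ∀ k, j + 3 ≤ k → w k = q (k - 2) := fun k hk => by
    rw [hwdef]
    show (if k < j then q k else if k = j then b else
      if k = j + 1 then c else if k = j + 2 then a else q (k - 2)) = _
    rw [if_neg (by omega), if_neg (by omega), if_neg (by omega), if_neg (by omega)]
  obtain ⟨hdec, hsgn⟩ := hq
  have hpow : ∀ x : ℝ, 0 < x → 0 < x ^ (-β) := fun x hx => Real.rpow_pos_of_pos hx _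
  have hpow1 : ∀ k : ℕ, ((-1 : ℝ)) ^ (k + 1) = -(-1) ^ k := fun k => by rw [pow_succ]; ring
  have hsq : ∀ k : ℕ, ((-1 : ℝ)) ^ k * (-1) ^ k = 1 := fun k => by
    rw [← mul_pow]
    norm_num
  -- sign at `q k`
  have hqs : ∀ k < s.card, 0 < (-1) ^ k * (q k ^ (-β) * p.eval (q k)) := by
    intro k hk
    obtain ⟨h1, h2⟩ := hsgn k hk
    have := mul_pos (hpow _ h1) h2
    calc (0 : ℝ) < q k ^ (-β) * ((-1) ^ k * p.eval (q k)) := this
      _ = _ := by ring
  have hbs : 0 < (-1) ^ j * (b ^ (-β) * p.eval b) := by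
    have := mul_pos (hpow _ hb) hB
    rw [hBe, hσ] at this
    calc (0 : ℝ) < b ^ (-β) * ((-1) ^ j * p.eval b) := this
      _ = _ := by ring
  have has : 0 < (-1) ^ j * (a ^ (-β) * p.eval a) := by
    have := mul_pos (hpow _ ha) hA
    rw [hAe, hσ] at this
    calc (0 : ℝ) < a ^ (-β) * ((-1) ^ j * p.eval a) := this
      _ = _ := by ring
  have hbc : 0 < (-1) ^ j * (b ^ (-β) * p.eval b - c ^ (-β) * p.eval c) := by
    have h1 : c ^ (-β) * E < b ^ (-β) * B := by rw [← hab']; exact hca'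
    rw [hEe, hBe, hσ] at h1
    have h2 : (-1 : ℝ) ^ j * (b ^ (-β) * p.eval b - c ^ (-β) * p.eval c) =
      b ^ (-β) * ((-1) ^ j * p.eval b) - c ^ (-β) * ((-1) ^ j * p.eval c) := by ring
    rw [h2]
    linarith
  have hac' : (-1) ^ j * (c ^ (-β) * p.eval c - a ^ (-β) * p.eval a) < 0 := by
    have h1 := hca'
    rw [hEe, hAe, hσ] at h1
    have h2 : (-1 : ℝ) ^ j * (c ^ (-β) * p.eval c - a ^ (-β) * p.eval a) =
      c ^ (-β) * ((-1) ^ j * p.eval c) - a ^ (-β) * ((-1) ^ j * p.eval a) := by ring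
    rw [h2]
    linarith
  have hz : ∀ k < s.card + 1, (0 < w (k + 1) ∧ w (k + 1) < w k) ∧
      0 < (1 : ℝ) * ((-1) ^ k * (w k ^ (-β) * p.eval (w k) -
        w (k + 1) ^ (-β) * p.eval (w (k + 1)))) := by
    intro k hk
    rw [one_mul]
    rcases Nat.lt_trichotomy (k + 1) j with h | h | h
    · -- both before `b`
      rw [hw1 k (by omega), hw1 (k + 1) h]
      refine ⟨⟨(hsgn (k + 1) (by omega)).1, hdec k (by omega)⟩, ?_⟩
      have h1 := hqs k (by omega)
      have h2 := hqs (k + 1) (by omega)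
      rw [hpow1] at h2
      rw [mul_sub]
      linarith
    · -- `q (j-1)` and `b`
      rw [hw1 k (by omega), h, hw2]
      refine ⟨⟨hb, hj1 k (by omega)⟩, ?_⟩
      have h1 := hqs k (by omega)
      have h2 := hbs
      rw [← h, hpow1] at h2
      rw [mul_sub]
      linarith
    · rcases Nat.lt_or_ge k (j + 3) with h' | h'
      · obtain h'' | h'' | h'' : k = j ∨ k = j + 1 ∨ k = j + 2 := by omega
        · rw [h'', hw2, hw3]
          exact ⟨⟨hc0, hcb⟩, hbc⟩
        · rw [h'', hw3, show j + 1 + 1 = j + 2 by rfl, hw4]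
          refine ⟨⟨ha, hac⟩, ?_⟩
          rw [hpow1]
          linarith
        · rw [h'', hw4, hw5 (j + 2 + 1) (by omega), show j + 2 + 1 - 2 = j + 1 by omega]
          have hjt : j + 1 < s.card := by omega
          refine ⟨⟨(hsgn _ hjt).1, hj2 _ (Nat.lt_succ_self j) hjt⟩, ?_⟩
          have h1 := has
          have h2 := hqs _ hjt
          rw [hpow1] at h2
          rw [hpow1, hpow1, neg_neg, mul_sub]
          linarith
      · rw [hw5 k h', hw5 (k + 1) (by omega)]
        obtain ⟨i, rfl⟩ : ∃ i, k = i + 2 := ⟨k - 2, by omega⟩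
        rw [show i + 2 - 2 = i by omega, show i + 2 + 1 - 2 = i + 1 by omega]
        have hit : i + 1 < s.card := by omega
        refine ⟨⟨(hsgn _ hit).1, hdec i hit⟩, ?_⟩
        have h1 := hqs i (by omega)
        have h2 := hqs (i + 1) hit
        rw [hpow1] at h2
        rw [show (-1 : ℝ) ^ (i + 2) = (-1) ^ i by rw [hpow1, hpow1, neg_neg], mul_sub]
        linarith
  obtain ⟨q', hq'⟩ := alt_of_zigzag (β := β) (p := p) (w := w) (σ := 1) (fun k hk => (hz k hk).1)
    (fun k hk => (hz k hk).2)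
  rcases hq' with h | h
  · exact not_alt (supp_g hs β) q' h
  · exact not_alt (by rw [support_neg]; exact supp_g hs β) q' h

/-- ROW B2b (log-concavity). PROOF. Let `p` (or `-p`) alternate at `q` and suppose
`p(c)² < p(a) p(b)`, `c = √(ab)`. Let `ψ x = x^(-β) |p x|` with `ψ a = ψ b` (choose `β`), so
`ψ c < ψ a = ψ b` (`c^(2β) = a^β b^β`). By `insert_window` (`hmax`: `not_alt`) the points
`q 0, ..., q (j-1), b, c, a, q (j+1), ..., q (t-1)` (`t + 2` points, decreasing) have alternating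
differences of `x^(-β) p x`: `p` has alternating signs at the `q k`, the sign at `q (j-1)`,
`q (j+1)` is opposite to the sign on `[a, b]`. By `alt_of_zigzag` `g = X p' - β p` (support `⊆ s`)
alternates at `t + 1 = s.card + 1` points, against `not_alt`. -/
theorem logconcave {s : Finset ℕ} (hs0 : 0 < s.card) {p : ℝ[X]} (hs : p.support ⊆ s)
    (h : ∃ q, Alt p s.card q ∨ Alt (-p) s.card q) {a b : ℝ} (hw : Win p a b) :
    p.eval a * p.eval b ≤ p.eval (Real.sqrt (a * b)) ^ 2 := by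
  obtain ⟨q, h | h⟩ := h
  · exact logconcave_aux hs0 hs h hw
  · have h1 := logconcave_aux (p := -p) hs0 (by rwa [support_neg]) h (a := a) (b := b)
      ⟨hw.1, hw.2.1, fun x hx h0 => hw.2.2 x hx (by rwa [eval_neg, neg_eq_zero] at h0)⟩
    simpa [eval_neg] using h1

end Pool.Agent.MP_c11b14_lc.LM
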