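import Pool.Agent.Lib.MP_c11b14_lc.LM.A1

set_option autoImplicit false

namespace Pool.Agent.MP_c11b14_lc.LM

open Set Polynomial

theorem card_filter_insert_top {Y : Finset ℝ} {m y : ℝ} (hY : ∀ z ∈ Y, z < m) (hy : m < y)
    {x : ℝ} (hx : x ≤ m) :
    ((insert y Y).filter fun z => x < z).card = (Y.filter fun z => x < z).card + 1 := by
  rw [Finset.filter_insert, if_pos (lt_of_le_of_lt hx hy), Finset.card_insert_of_notMem]
  intro h
  have := hY y (Finset.mem_of_mem_filter _ h)
  exact lt_irrefl _ (this.trans hy)

/-- ROW C1 (chains and separators). PROOF. Induction on `n`, for all `P`, `M`, `c`. If `M = ∅`: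
`Y = ∅`. Else `m = max M`. `n = 0`: chain `q 0 = m`. Step `n → n + 1`: the induction hypothesis for
`P' = {x ∈ M | x < m}`, `M' = {x ∈ P | x < m}`, `c' = m` (roles exchanged) gives a chain of
`n + 1` points below `m`, put `m` in front; or `Y'`, then `Y = insert y Y'` with `m < y < c` and
no point of `P ∪ M` in `(m, y]`. -/
theorem chain_or_sep (n : ℕ) : ∀ (P M : Finset ℝ) (c : ℝ), Disjoint P M → (∀ x ∈ P, x < c) →
    (∀ x ∈ M, x < c) →
    (∃ q : ℕ → ℝ, (∀ k < n, q (k + 1) < q k) ∧
      ∀ k ≤ n, (Even k → q k ∈ M) ∧ (Odd k → q k ∈ P)) ∨
    ∃ Y : Finset ℝ, Y.card ≤ n ∧ (∀ y ∈ Y, y < c ∧ y ∉ P ∧ y ∉ M ∧ ∃ x ∈ P ∪ M, x < y) ∧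
      (∀ x ∈ P, Even (Y.filter fun y => x < y).card) ∧
      (∀ x ∈ M, Odd (Y.filter fun y => x < y).card) := by
  classical
  induction n with
  | zero =>
    intro P M c _ _ _
    rcases M.eq_empty_or_nonempty with hM | hM
    · right
      refine ⟨∅, by simp, by simp, by simp, ?_⟩
      intro x hx
      rw [hM] at hx
      exact absurd hx (Finset.notMem_empty x)
    · left
      refine ⟨fun _ => M.max' hM, fun k hk => absurd hk (Nat.not_lt_zero _), fun k hk => ?_⟩
      have : k = 0 := Nat.le_zero.mp hk
      subst this
      exact ⟨fun _ => M.max'_mem hM, fun h => by simp at h⟩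
  | succ n ih =>
    intro P M c hPM hP hMc
    rcases M.eq_empty_or_nonempty with hM | hM
    · right
      refine ⟨∅, by simp, by simp, by simp, ?_⟩
      intro x hx
      rw [hM] at hx
      exact absurd hx (Finset.notMem_empty x)
    set m := M.max' hM with hm
    have hmM : m ∈ M := M.max'_mem hM
    have hmax : ∀ x ∈ M, x ≤ m := fun x hx => M.le_max' x hx
    have hmP : m ∉ P := fun h => Finset.disjoint_left.mp hPM h hmM
    rcases ih (M.filter fun x => x < m) (P.filter fun x => x < m) m
      (Finset.disjoint_filter_filter hPM.symm)
      (fun x hx => (Finset.mem_filter.mp hx).2) (fun x hx => (Finset.mem_filter.mp hx).2) with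
      ⟨q, hq1, hq2⟩ | ⟨Y, hY1, hY2, hY3, hY4⟩
    · left
      refine ⟨fun k => if k = 0 then m else q (k - 1), ?_, ?_⟩
      · intro k hk
        rcases Nat.eq_zero_or_pos k with h0 | h0
        · subst h0
          have h := (hq2 0 (Nat.zero_le _)).1 (by simp)
          simpa using (Finset.mem_filter.mp h).2
        · have h := hq1 (k - 1) (by omega)
          rw [show k - 1 + 1 = k by omega] at h
          simpa [h0.ne'] using h
      · intro k hk
        rcases Nat.eq_zero_or_pos k with h0 | h0
        · subst h0
          exact ⟨fun _ => by simpa using hmM, fun h => by simp at h⟩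
        · have h := hq2 (k - 1) (by omega)
          have hk1 : k = (k - 1) + 1 := by omega
          constructor
          · intro he
            have ho : Odd (k - 1) := by
              rw [hk1] at he
              exact Nat.not_even_iff_odd.mp (Nat.even_add_one.mp he)
            have := h.2 ho
            simpa [h0.ne'] using (Finset.mem_filter.mp this).1
          · intro ho
            have he : Even (k - 1) := by
              rw [hk1] at ho
              exact Nat.not_odd_iff_even.mp (Nat.odd_add_one.mp ho)
            have := h.1 he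
            simpa [h0.ne'] using (Finset.mem_filter.mp this).1
    · right
      -- the new separator
      set S := insert c (P.filter fun x => m < x) with hS
      have hSne : S.Nonempty := ⟨c, Finset.mem_insert_self _ _⟩
      set s₀ := S.min' hSne with hs₀
      have hs0 : m < s₀ := by
        rcases Finset.mem_insert.mp (S.min'_mem hSne) with h | h
        · exact lt_of_lt_of_eq (hMc m hmM) h.symm
        · exact (Finset.mem_filter.mp h).2
      have hsc : s₀ ≤ c := S.min'_le _ (Finset.mem_insert_self _ _)
      obtain ⟨y, hy1, hy2⟩ := exists_between hs0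
      have hyP : ∀ x ∈ P, m < x → y < x := by
        intro x hx hxm
        exact lt_of_lt_of_le hy2 (S.min'_le _ (Finset.mem_insert_of_mem
          (Finset.mem_filter.mpr ⟨hx, hxm⟩)))
      have hYm : ∀ z ∈ Y, z < m := fun z hz => (hY2 z hz).1
      refine ⟨insert y Y, ?_, ?_, ?_, ?_⟩
      · exact (Finset.card_insert_le _ _).trans (Nat.succ_le_succ hY1)
      · intro z hz
        rcases Finset.mem_insert.mp hz with h | h
        · subst h
          refine ⟨lt_of_lt_of_le hy2 hsc, fun h => ?_, fun h => ?_, m,
            Finset.mem_union_right _ hmM, hy1⟩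
          · exact lt_irrefl _ (hyP _ h hy1)
          · exact lt_irrefl _ (hy1.trans_le (hmax _ h))
        · obtain ⟨h1, h2, h3, x, hx, hxz⟩ := hY2 z h
          refine ⟨h1.trans (hMc m hmM), fun hp => h3 (Finset.mem_filter.mpr ⟨hp, h1⟩),
            fun hp => h2 (Finset.mem_filter.mpr ⟨hp, h1⟩), x, ?_, hxz⟩
          rcases Finset.mem_union.mp hx with h' | h'
          · exact Finset.mem_union_right _ (Finset.mem_filter.mp h').1
          · exact Finset.mem_union_left _ (Finset.mem_filter.mp h').1
      · intro x hx
        rcases lt_trichotomy x m with h | h | h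
        · rw [card_filter_insert_top hYm hy1 h.le]
          have := hY4 x (Finset.mem_filter.mpr ⟨hx, h⟩)
          exact this.add_one
        · exact absurd (h ▸ hx) hmP
        · have hyx := hyP x hx h
          have : ((insert y Y).filter fun z => x < z) = ∅ := by
            rw [Finset.filter_eq_empty_iff]
            intro z hz
            rcases Finset.mem_insert.mp hz with h' | h'
            · subst h'; exact not_lt.mpr hyx.le
            · exact not_lt.mpr ((hYm z h').trans h).le
          rw [this]
          simp
      · intro x hx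
        rw [card_filter_insert_top hYm hy1 (hmax x hx)]
        rcases lt_or_eq_of_le (hmax x hx) with h | h
        · exact (hY3 x (Finset.mem_filter.mpr ⟨hx, h⟩)).add_one
        · have : (Y.filter fun z => x < z) = ∅ := by
            rw [Finset.filter_eq_empty_iff]
            intro z hz
            rw [h]
            exact not_lt.mpr (hYm z hz).le
          rw [this]
          simp

end Pool.Agent.MP_c11b14_lc.LM
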