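import Pool.Agent.Lib.MP_c11b14_lc.LM.A1

set_option autoImplicit false

namespace Pool.Agent.MP_c11b14_lc.LM

open Set Polynomial

/-- ROW C2a. PROOF. Dimension: the linear map `(s → ℝ) → (Y → ℝ)`, `v ↦ (∑ v n y^n)_y` has a
nontrivial kernel (`LinearMap.ker_ne_bot_of_finrank_lt` or `exists_ne_zero...`). -/
theorem exists_vanishing {s : Finset ℕ} {Y : Finset ℝ} (hY : Y.card < s.card) :
    ∃ w : ℝ[X], w ≠ 0 ∧ w.support ⊆ s ∧ ∀ y ∈ Y, w.eval y = 0 := by
  classical
  let L : (s → ℝ) →ₗ[ℝ] (Y → ℝ) :=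
    { toFun := fun v y => ∑ n : s, v n * (y : ℝ) ^ (n : ℕ)
      map_add' := fun v w => by
        funext y
        simp [add_mul, Finset.sum_add_distrib]
      map_smul' := fun c v => by
        funext y
        simp [mul_assoc, Finset.mul_sum] }
  have hker : LinearMap.ker L ≠ ⊥ := by
    apply LinearMap.ker_ne_bot_of_finrank_lt
    simpa using hY
  obtain ⟨v, hv, hv0⟩ := (Submodule.ne_bot_iff _).1 hker
  rw [LinearMap.mem_ker] at hv
  set w : ℝ[X] := ∑ n : s, monomial (n : ℕ) (v n) with hw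
  have hcoeff : ∀ n : s, w.coeff n = v n := by
    intro n
    rw [hw, finsetSum_coeff, Finset.sum_eq_single n]
    · rw [coeff_monomial_same]
    · intro m _ hmn
      rw [coeff_monomial, if_neg]
      intro h
      exact hmn (Subtype.ext h)
    · intro h
      exact absurd (Finset.mem_univ n) h
  refine ⟨w, ?_, ?_, ?_⟩
  · intro h0
    apply hv0
    funext n
    rw [← hcoeff n, h0]
    simp
  · intro n hn
    by_contra hns
    rw [mem_support_iff] at hn
    apply hn
    rw [hw, finsetSum_coeff]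
    refine Finset.sum_eq_zero fun m _ => ?_
    rw [coeff_monomial, if_neg]
    intro h
    exact hns (h ▸ m.2)
  · intro y hy
    have h := congrFun hv ⟨y, hy⟩
    rw [hw, eval_finsetSum]
    simpa [L, eval_monomial] using h

/-- The sign of `∏_{y ∈ Y} (x - y)`. -/
theorem sign_prod (Y : Finset ℝ) (x : ℝ) (hx : x ∉ Y) :
    0 < (-1 : ℝ) ^ (Y.filter fun y => x < y).card * ∏ y ∈ Y, (x - y) := by
  classical
  induction Y using Finset.induction_on with
  | empty => simp
  | insert a Y ha ih =>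
    have hxa : x ≠ a := fun h => hx (by simp [h])
    have h1 := ih (fun h => hx (Finset.mem_insert_of_mem h))
    rw [Finset.prod_insert ha, Finset.filter_insert]
    split_ifs with hlt
    · rw [Finset.card_insert_of_notMem (by simp [ha]), pow_succ]
      have h2 : 0 < a - x := sub_pos.2 hlt
      have h3 := mul_pos h2 h1
      linarith
    · have h2 : 0 < x - a := sub_pos.2 (lt_of_le_of_ne (not_lt.1 hlt) hxa.symm)
      have h3 := mul_pos h2 h1
      linarith

/-- A polynomial without positive roots has constant sign on `(0, ∞)`. -/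
theorem const_sign {Q : ℝ[X]} (h : ∀ x, 0 < x → Q.eval x ≠ 0) :
    ∃ σ : ℝ, ∀ x, 0 < x → 0 < σ * Q.eval x := by
  have key : ∀ x y : ℝ, 0 < x → 0 < y → 0 < Q.eval x → 0 < Q.eval y := by
    intro x y hx hy hQ
    by_contra hn
    have hn' : Q.eval y < 0 := lt_of_le_of_ne (not_lt.1 hn) (h y hy)
    have hc : ContinuousOn (fun z => Q.eval z) (Set.uIcc y x) := Q.continuous.continuousOn
    have h0 : (0 : ℝ) ∈ Set.uIcc (Q.eval y) (Q.eval x) := by
      rw [Set.mem_uIcc]
      exact Or.inl ⟨hn'.le, hQ.le⟩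
    obtain ⟨z, hz, hz0⟩ := intermediate_value_uIcc hc h0
    refine h z ?_ hz0
    rw [Set.mem_uIcc] at hz
    rcases hz with hz | hz
    · linarith [hz.1]
    · linarith [hz.1]
  rcases lt_or_gt_of_ne (h 1 one_pos) with h1 | h1
  · refine ⟨-1, fun x hx => ?_⟩
    rcases lt_or_gt_of_ne (h x hx) with h2 | h2
    · linarith
    · exact absurd (key x 1 hx one_pos h2) (not_lt.2 h1.le)
  · refine ⟨1, fun x hx => ?_⟩
    rw [one_mul]
    exact key 1 x one_pos hx h1

/-- ROW C2b (sign interpolation). PROOF. Add `s.card - 1 - Y.card` points in `(0, δ)` to get `Y'`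
with `s.card - 1` points; `w` from C2a; `w = (∏_{y ∈ Y'} (X - y)) * Q`; `Q` has no positive root
by `pos_roots_lt`, so it has constant sign on `(0, ∞)`; change the sign of `w` if necessary. -/
theorem sign_interp {s : Finset ℕ} {Y : Finset ℝ} (hY : Y.card < s.card) {δ : ℝ} (hδ : 0 < δ)
    (hYδ : ∀ y ∈ Y, δ < y) :
    ∃ w : ℝ[X], w.support ⊆ s ∧ ∀ x, δ < x → x ∉ Y →
      0 < (-1) ^ (Y.filter fun y => x < y).card * w.eval x := by
  classical
  -- the additional points
  set E : Finset ℝ := (Finset.range (s.card - 1 - Y.card)).image fun k : ℕ => δ / ((k : ℝ) + 2)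
    with hE
  have hEcard : E.card = s.card - 1 - Y.card := by
    rw [hE, Finset.card_image_of_injective, Finset.card_range]
    intro a b hab
    have ha : (0 : ℝ) < (a : ℝ) + 2 := by positivity
    have hb : (0 : ℝ) < (b : ℝ) + 2 := by positivity
    simp only at hab
    rw [div_eq_div_iff ha.ne' hb.ne'] at hab
    have := mul_left_cancel₀ hδ.ne' hab
    have h3 : (a : ℝ) = b := by linarith
    exact_mod_cast h3
  have hEmem : ∀ e ∈ E, 0 < e ∧ e < δ := by
    intro e he
    rw [hE, Finset.mem_image] at he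
    obtain ⟨k, _, rfl⟩ := he
    have hk : (0 : ℝ) ≤ (k : ℝ) := Nat.cast_nonneg k
    refine ⟨by positivity, ?_⟩
    rw [div_lt_iff₀ (by positivity)]
    nlinarith
  have hdisj : Disjoint Y E := by
    rw [Finset.disjoint_left]
    intro y hy he
    linarith [hYδ y hy, (hEmem y he).2]
  have hcard : (Y ∪ E).card = s.card - 1 := by
    rw [Finset.card_union_of_disjoint hdisj, hEcard]
    omega
  have hpos : ∀ y ∈ Y ∪ E, 0 < y := by
    intro y hy
    rcases Finset.mem_union.1 hy with h | h
    · linarith [hYδ y h]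
    · exact (hEmem y h).1
  obtain ⟨w, hw0, hws, hwY⟩ := exists_vanishing (s := s) (Y := Y ∪ E) (by omega)
  -- divide by the linear factors
  have hle : (Y ∪ E).val ≤ w.roots := by
    rw [Multiset.le_iff_subset (Y ∪ E).nodup]
    intro y hy
    rw [mem_roots hw0]
    exact hwY y hy
  obtain ⟨Q, hQ⟩ := (Multiset.prod_X_sub_C_dvd_iff_le_roots hw0 (Y ∪ E).val).2 hle
  have hprod : ((Y ∪ E).val.map fun a => (X : ℝ[X]) - C a).prod = ∏ a ∈ Y ∪ E, (X - C a) := rfl
  rw [hprod] at hQ
  have hQ0 : Q ≠ 0 := by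
    rintro rfl
    simp [hw0] at hQ
  have hP0 : ∏ a ∈ Y ∪ E, ((X : ℝ[X]) - C a) ≠ 0 := by
    intro h
    rw [h, zero_mul] at hQ
    exact hw0 hQ
  have hQroot : ∀ x, 0 < x → Q.eval x ≠ 0 := by
    intro x hx hx0
    have h1 := pos_roots_lt hw0 hws
    have h2 : w.roots = (Y ∪ E).val + Q.roots := by
      rw [hQ, roots_mul (mul_ne_zero hP0 hQ0), roots_prod_X_sub_C]
    rw [h2, Multiset.filter_add, Multiset.card_add] at h1
    have h3 : Multiset.filter (fun x => 0 < x) (Y ∪ E).val = (Y ∪ E).val := by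
      rw [Multiset.filter_eq_self]
      exact fun a ha => hpos a ha
    have h4 : 0 < (Q.roots.filter fun x => 0 < x).card := by
      rw [Multiset.card_pos_iff_exists_mem]
      exact ⟨x, Multiset.mem_filter.2 ⟨(mem_roots hQ0).2 hx0, hx⟩⟩
    rw [h3] at h1
    have h5 : (Y ∪ E).val.card = s.card - 1 := hcard
    omega
  obtain ⟨σ, hσ⟩ := const_sign hQroot
  refine ⟨C σ * w, ?_, ?_⟩
  · intro n hn
    apply hws
    rw [mem_support_iff] at hn ⊢
    intro h
    apply hn
    rw [coeff_C_mul, h, mul_zero]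
  · intro x hx hxY
    have hx0 : 0 < x := hδ.trans hx
    have hxE : x ∉ Y ∪ E := by
      intro h
      rcases Finset.mem_union.1 h with h | h
      · exact hxY h
      · linarith [(hEmem x h).2]
    have h1 := sign_prod (Y ∪ E) x hxE
    have h2 : (Y ∪ E).filter (fun y => x < y) = Y.filter (fun y => x < y) := by
      ext y
      simp only [Finset.mem_filter, Finset.mem_union]
      constructor
      · rintro ⟨h | h, h'⟩
        · exact ⟨h, h'⟩
        · linarith [(hEmem y h).2]
      · rintro ⟨h, h'⟩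
        exact ⟨Or.inl h, h'⟩
    rw [h2] at h1
    have h3 := mul_pos h1 (hσ x hx0)
    rw [eval_mul, eval_C, hQ, eval_mul, eval_prod]
    simp only [eval_sub, eval_X, eval_C]
    calc (0 : ℝ) < _ := h3
      _ = _ := by ring

end Pool.Agent.MP_c11b14_lc.LM
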