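import Pool.Agent.Lib.MP_c11b14_lc.LM.C1
import Pool.Agent.Lib.MP_c11b14_lc.LM.C2

set_option autoImplicit false

namespace Pool.Agent.MP_c11b14_lc.LM

open Set Polynomial

/-- The polynomial with the coefficients `c`. -/
noncomputable def C3a_pol (s : Finset ℕ) (c : s → ℝ) : ℝ[X] := ∑ n : s, monomial (n : ℕ) (c n)

theorem C3a_eval (s : Finset ℕ) (c : s → ℝ) (x : ℝ) :
    (C3a_pol s c).eval x = ∑ n : s, c n * x ^ (n : ℕ) := by
  unfold C3a_pol
  rw [eval_finsetSum]
  exact Finset.sum_congr rfl fun n _ => eval_monomial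

theorem C3a_coeff (s : Finset ℕ) (c : s → ℝ) (n : s) : (C3a_pol s c).coeff n = c n := by
  unfold C3a_pol
  rw [finsetSum_coeff, Finset.sum_eq_single n]
  · rw [coeff_monomial, if_pos rfl]
  · intro m _ hm
    rw [coeff_monomial, if_neg]
    exact fun h => hm (Subtype.ext h)
  · intro h
    exact absurd (Finset.mem_univ n) h

theorem C3a_support (s : Finset ℕ) (c : s → ℝ) : (C3a_pol s c).support ⊆ s := by
  intro j hj
  by_contra hjs
  rw [mem_support_iff] at hj
  apply hj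
  unfold C3a_pol
  rw [finsetSum_coeff]
  refine Finset.sum_eq_zero fun n _ => ?_
  rw [coeff_monomial, if_neg]
  rintro rfl
  exact hjs n.2

theorem C3a_of {s : Finset ℕ} {w : ℝ[X]} (hw : w.support ⊆ s) :
    C3a_pol s (fun n => w.coeff n) = w := by
  ext j
  by_cases hj : j ∈ s
  · exact C3a_coeff s (fun n => w.coeff n) ⟨j, hj⟩
  · have h1 : (C3a_pol s fun n => w.coeff n).coeff j = 0 := by
      by_contra h
      exact hj (C3a_support s _ (mem_support_iff.2 h))
    have h2 : w.coeff j = 0 := by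
      by_contra h
      exact hj (hw (mem_support_iff.2 h))
    rw [h1, h2]

/-- Evaluation at the points of `X`. -/
noncomputable def C3a_ev (s : Finset ℕ) (X : Finset ℝ) : (s → ℝ) →ₗ[ℝ] (X → ℝ) where
  toFun c x := ∑ n : s, c n * (x : ℝ) ^ (n : ℕ)
  map_add' c d := by
    funext x
    simp only [Pi.add_apply, add_mul, Finset.sum_add_distrib]
  map_smul' r c := by
    funext x
    simp only [Pi.smul_apply, smul_eq_mul, RingHom.id_apply, Finset.mul_sum, mul_assoc]

theorem C3a_inj {s : Finset ℕ} {X : Finset ℝ} (hX0 : ∀ x ∈ X, 0 < x) (hX : s.card ≤ X.card) :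
    LinearMap.ker (C3a_ev s X) = ⊥ := by
  rw [LinearMap.ker_eq_bot']
  intro c hc
  have h0 : C3a_pol s c = 0 := by
    by_contra hne
    have h1 := npos_lt hne (C3a_support s c)
    have h2 : X.card ≤ npos (C3a_pol s c) := by
      unfold npos
      refine Finset.card_le_card fun x hx => ?_
      rw [Finset.mem_filter, Multiset.mem_toFinset, mem_roots hne]
      refine ⟨?_, hX0 x hx⟩
      have h3 := congrFun hc ⟨x, hx⟩
      change (C3a_pol s c).eval x = 0
      rw [C3a_eval]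
      exact h3
    omega
  funext n
  rw [← C3a_coeff s c n, h0, coeff_zero]
  rfl

theorem C3a_uIcc {y P : ℝ} (hP : P ≠ 0) : y ∈ uIcc 0 P ↔ 0 ≤ y * P ∧ y * P ≤ P ^ 2 := by
  rcases lt_or_gt_of_ne hP with h | h
  · rw [uIcc_of_ge h.le, mem_Icc]
    constructor
    · rintro ⟨h1, h2⟩
      constructor <;> nlinarith
    · rintro ⟨h1, h2⟩
      constructor
      · by_contra h3
        push Not at h3
        nlinarith
      · by_contra h3
        push Not at h3
        nlinarith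
  · rw [uIcc_of_le h.le, mem_Icc]
    constructor
    · rintro ⟨h1, h2⟩
      constructor <;> nlinarith
    · rintro ⟨h1, h2⟩
      constructor
      · by_contra h3
        push Not at h3
        nlinarith
      · by_contra h3
        push Not at h3
        nlinarith

/-- ROW C3a (compactness). PROOF. `v = ∑_{n ∈ s} c n X^n`, `c : s → ℝ`. The set of the `c` with
`Adm` is closed, not empty (`v = 0`) and bounded: evaluation at the points of `X` is an injective
linear map (`npos_lt` and `hX`), so antilipschitz (`LinearMap.exists_antilipschitzWith`), and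
`|v x| ≤ |p x|` on `X`. `v ↦ v.eval c` is continuous. -/
theorem exists_max {s : Finset ℕ} {p : ℝ[X]} {X : Finset ℝ} (hX0 : ∀ x ∈ X, 0 < x)
    (hXp : ∀ x ∈ X, p.eval x ≠ 0) (hX : s.card ≤ X.card) (c : ℝ) :
    ∃ v, Adm s p X v ∧ ∀ w, Adm s p X w → w.eval c ≤ v.eval c := by
  have hadm : ∀ d : s → ℝ, C3a_ev s X d ∈ Set.pi univ (fun x : X => uIcc 0 (p.eval (x : ℝ))) ↔
      Adm s p X (C3a_pol s d) := by
    intro d
    rw [Set.mem_univ_pi]
    constructor
    · intro h
      refine ⟨C3a_support s d, fun x hx => ?_⟩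
      have h1 := (C3a_uIcc (hXp x hx)).1 (h ⟨x, hx⟩)
      rw [C3a_eval]
      exact h1
    · intro h x
      have h1 := h.2 x x.2
      rw [C3a_eval] at h1
      exact (C3a_uIcc (hXp x x.2)).2 h1
  have hK : IsCompact ((C3a_ev s X) ⁻¹' (Set.pi univ (fun x : X => uIcc 0 (p.eval (x : ℝ))))) :=
    (LinearMap.isClosedEmbedding_of_injective (C3a_inj hX0 hX)).isCompact_preimage
      (isCompact_univ_pi fun _ => isCompact_uIcc)
  have hne : ((C3a_ev s X) ⁻¹' (Set.pi univ (fun x : X => uIcc 0 (p.eval (x : ℝ))))).Nonempty := by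
    refine ⟨0, ?_⟩
    rw [mem_preimage, map_zero, Set.mem_univ_pi]
    exact fun x => left_mem_uIcc
  have hcont : Continuous fun d : s → ℝ => (C3a_pol s d).eval c := by
    simp only [C3a_eval]
    exact continuous_finsetSum _ fun n _ => (continuous_apply n).mul continuous_const
  obtain ⟨d, hd, hmax⟩ := hK.exists_isMaxOn hne hcont.continuousOn
  refine ⟨C3a_pol s d, (hadm d).1 hd, fun w hw => ?_⟩
  have h1 := C3a_of hw.1
  have h2 : (fun n : s => w.coeff n) ∈
      (C3a_ev s X) ⁻¹' (Set.pi univ (fun x : X => uIcc 0 (p.eval (x : ℝ)))) := by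
    rw [mem_preimage, hadm, h1]
    exact hw
  have h3 := hmax h2
  simp only [Set.mem_ofPred_eq] at h3
  rw [h1] at h3
  exact h3


/-- The two inequalities for small `ε`. -/
theorem C3_small {a b P : ℝ} (h0 : 0 ≤ a) (h1 : a ≤ P) (hP : 0 < P) (ha : a = 0 → 0 < b) (hb : a = P → b < 0) :
    ∀ᶠ ε in nhdsWithin (0 : ℝ) (Ioi 0), 0 ≤ a + ε * b ∧ a + ε * b ≤ P := by
  have hB : 0 < |b| + 1 := by positivity
  have key : ∀ m : ℝ, 0 < m → ∀ᶠ ε in nhdsWithin (0 : ℝ) (Ioi 0), 0 < ε ∧ ε * |b| ≤ m := by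
    intro m hm
    filter_upwards [Ioc_mem_nhdsGT (show (0 : ℝ) < m / (|b| + 1) by positivity)] with ε hε
    refine ⟨hε.1, ?_⟩
    have h2 := (le_div_iff₀ hB).1 hε.2
    nlinarith [hε.1]
  rcases h0.eq_or_lt with h | h
  · have hb' := ha h.symm
    filter_upwards [key P hP] with ε hε
    rw [abs_of_pos hb'] at hε
    rw [← h, zero_add]
    exact ⟨(mul_pos hε.1 hb').le, hε.2⟩
  · rcases h1.eq_or_lt with h2 | h2
    · have hb' := hb h2
      filter_upwards [key P hP] with ε hε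
      rw [abs_of_neg hb'] at hε
      have h3 := mul_neg_of_pos_of_neg hε.1 hb'
      rw [h2]
      constructor <;> linarith [hε.2]
    · filter_upwards [key _ (lt_min h (sub_pos.2 h2))] with ε hε
      have h3 : |ε * b| ≤ min a (P - a) := by rw [abs_mul, abs_of_pos hε.1]; exact hε.2
      have h4 := abs_le.1 h3
      have h5 := min_le_left a (P - a)
      have h6 := min_le_right a (P - a)
      constructor <;> linarith [h4.1, h4.2]

/-- ROW C3b (perturbation). PROOF. For each `x ∈ X` the two inequalities hold for all small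
`ε > 0`; `X` is finite. -/
theorem adm_add {s : Finset ℕ} {p : ℝ[X]} {X : Finset ℝ} {v w : ℝ[X]}
    (hXp : ∀ x ∈ X, p.eval x ≠ 0) (hv : Adm s p X v) (hw : w.support ⊆ s)
    (h : ∀ x ∈ X, (v.eval x = 0 → 0 < w.eval x * p.eval x) ∧
      (v.eval x = p.eval x → w.eval x * p.eval x < 0)) :
    ∃ ε : ℝ, 0 < ε ∧ Adm s p X (v + C ε * w) := by
  have h1 : ∀ᶠ ε in nhdsWithin (0 : ℝ) (Ioi 0), ∀ x ∈ X, 0 ≤ v.eval x * p.eval x + ε * (w.eval x * p.eval x) ∧
      v.eval x * p.eval x + ε * (w.eval x * p.eval x) ≤ p.eval x ^ 2 := by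
    rw [Filter.eventually_all_finset]
    intro x hx
    have hp := hXp x hx
    have h2 := hv.2 x hx
    refine C3_small h2.1 h2.2 (by positivity) (fun h3 => (h x hx).1 ?_) (fun h3 => (h x hx).2 ?_)
    · exact (mul_eq_zero.1 h3).resolve_right hp
    · rw [pow_two] at h3
      exact mul_right_cancel₀ hp h3
  obtain ⟨ε, hε, hε0⟩ := (h1.and self_mem_nhdsWithin).exists
  refine ⟨ε, hε0, ?_, fun x hx => ?_⟩
  · refine (support_add).trans (Finset.union_subset hv.1 ?_)
    refine Finset.Subset.trans ?_ hw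
    intro n hn
    rw [mem_support_iff] at hn ⊢
    intro h2
    apply hn
    rw [coeff_C_mul, h2, mul_zero]
  · have h2 := hε x hx
    rw [eval_add, eval_mul, eval_C]
    constructor <;> linarith [h2.1, h2.2]

/-- ROW C3c (the snake). PROOF. `c` larger than all points of `X`, `v` from C3a.
`P = {x ∈ X | (v x = 0 ∧ 0 < p x) ∨ (v x = p x ∧ p x < 0)}`,
`M = {x ∈ X | (v x = 0 ∧ p x < 0) ∨ (v x = p x ∧ 0 < p x)}`. `chain_or_sep (s.card - 1)`: a chain is
what is claimed. Otherwise `Y` with at most `s.card - 1` points; `δ > 0` smaller than all points of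
`X` and `Y`; `sign_interp` gives `w > 0` on `P`, `w < 0` on `M`, `w c > 0`; `adm_add` contradicts
the maximality. -/
theorem exists_snake {s : Finset ℕ} (hs0 : 0 < s.card) {p : ℝ[X]} {X : Finset ℝ}
    (hX0 : ∀ x ∈ X, 0 < x) (hXp : ∀ x ∈ X, p.eval x ≠ 0) (hX : s.card ≤ X.card) :
    ∃ v, Adm s p X v ∧ ∃ q : ℕ → ℝ, (∀ k, k + 1 < s.card → q (k + 1) < q k) ∧
      ∀ k < s.card, q k ∈ X ∧ ((v.eval (q k) = 0 ∧ (-1) ^ k * p.eval (q k) < 0) ∨
        (v.eval (q k) = p.eval (q k) ∧ 0 < (-1) ^ k * p.eval (q k))) := by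
  classical
  obtain ⟨B, hB⟩ := X.finite_toSet.bddAbove
  obtain ⟨c, hc⟩ : ∃ c : ℝ, c = B + 1 := ⟨_, rfl⟩
  have hXc : ∀ x ∈ X, x < c := fun x hx => by
    have : x ≤ B := hB hx
    linarith
  obtain ⟨v, hv, hmax⟩ := exists_max hX0 hXp hX c
  obtain ⟨P, hPd⟩ : ∃ P : Finset ℝ, P = X.filter fun x => (v.eval x = 0 ∧ 0 < p.eval x) ∨
    (v.eval x = p.eval x ∧ p.eval x < 0) := ⟨_, rfl⟩
  obtain ⟨M, hMd⟩ : ∃ M : Finset ℝ, M = X.filter fun x => (v.eval x = 0 ∧ p.eval x < 0) ∨
    (v.eval x = p.eval x ∧ 0 < p.eval x) := ⟨_, rfl⟩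
  have hPX : ∀ x ∈ P, x ∈ X := fun x hx => by
    rw [hPd] at hx
    exact (Finset.mem_filter.1 hx).1
  have hMX : ∀ x ∈ M, x ∈ X := fun x hx => by
    rw [hMd] at hx
    exact (Finset.mem_filter.1 hx).1
  have hdis : Disjoint P M := by
    rw [Finset.disjoint_left]
    intro x hxP hxM
    have hx0 := hXp x (hPX x hxP)
    rw [hPd] at hxP
    rw [hMd] at hxM
    rcases (Finset.mem_filter.1 hxP).2 with h1 | h1 <;> rcases (Finset.mem_filter.1 hxM).2 with h2 | h2
    · linarith [h1.2, h2.2]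
    · exact hx0 (h2.1.symm.trans h1.1)
    · exact hx0 (h1.1.symm.trans h2.1)
    · linarith [h1.2, h2.2]
  rcases chain_or_sep (s.card - 1) P M c hdis (fun x hx => hXc x (hPX x hx)) (fun x hx => hXc x (hMX x hx)) with
    ⟨q, hq1, hq2⟩ | ⟨Y, hY1, hY2, hY3, hY4⟩
  · refine ⟨v, hv, q, fun k hk => hq1 k (by omega), fun k hk => ?_⟩
    have h1 := hq2 k (by omega)
    rcases Nat.even_or_odd k with hk' | hk'
    · have h2 := h1.1 hk'
      refine ⟨hMX _ h2, ?_⟩
      rw [hMd] at h2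
      rw [hk'.neg_one_pow, one_mul]
      exact (Finset.mem_filter.1 h2).2
    · have h2 := h1.2 hk'
      refine ⟨hPX _ h2, ?_⟩
      rw [hPd] at h2
      rw [hk'.neg_one_pow]
      rcases (Finset.mem_filter.1 h2).2 with h3 | h3
      · exact Or.inl ⟨h3.1, by linarith [h3.2]⟩
      · exact Or.inr ⟨h3.1, by linarith [h3.2]⟩
  · exfalso
    have hYpos : ∀ y ∈ Y, 0 < y := by
      intro y hy
      obtain ⟨x, hx, hxy⟩ := (hY2 y hy).2.2.2
      rcases Finset.mem_union.1 hx with h | h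
      · exact (hX0 x (hPX x h)).trans hxy
      · exact (hX0 x (hMX x h)).trans hxy
    obtain ⟨δ, hδ, hδ0⟩ : ∃ δ : ℝ, (∀ z ∈ X ∪ Y, δ < z) ∧ 0 < δ := by
      have h1 : ∀ᶠ δ in nhdsWithin (0 : ℝ) (Ioi 0), ∀ z ∈ X ∪ Y, δ < z := by
        rw [Filter.eventually_all_finset]
        intro z hz
        have hz0 : 0 < z := by
          rcases Finset.mem_union.1 hz with h | h
          · exact hX0 z h
          · exact hYpos z h
        exact nhdsWithin_le_nhds (Iio_mem_nhds hz0)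
      exact (h1.and self_mem_nhdsWithin).exists
    obtain ⟨w, hw1, hw2⟩ := sign_interp (s := s) (Y := Y) (by omega) hδ0
      (fun y hy => hδ y (Finset.mem_union_right _ hy))
    have hwP : ∀ x ∈ P, 0 < w.eval x := by
      intro x hx
      have h1 := hw2 x (hδ x (Finset.mem_union_left _ (hPX x hx))) (fun h => (hY2 x h).2.1 hx)
      rwa [(hY3 x hx).neg_one_pow, one_mul] at h1
    have hwM : ∀ x ∈ M, w.eval x < 0 := by
      intro x hx
      have h1 := hw2 x (hδ x (Finset.mem_union_left _ (hMX x hx))) (fun h => (hY2 x h).2.2.1 hx)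
      rw [(hY4 x hx).neg_one_pow] at h1
      linarith
    have hwc : 0 < w.eval c := by
      have hδc : δ < c := by
        obtain ⟨x, hx⟩ : X.Nonempty := Finset.card_pos.1 (by omega)
        exact (hδ x (Finset.mem_union_left _ hx)).trans (hXc x hx)
      have h1 := hw2 c hδc (fun h => lt_irrefl c (hY2 c h).1)
      have h2 : Y.filter (fun y => c < y) = ∅ := by
        rw [Finset.filter_eq_empty_iff]
        intro y hy h3
        exact lt_asymm h3 (hY2 y hy).1
      rwa [h2, Finset.card_empty, pow_zero, one_mul] at h1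
    obtain ⟨ε, hε, hadm⟩ := adm_add hXp hv hw1 (fun x hx => by
      have hp := hXp x hx
      constructor
      · intro h1
        rcases lt_or_gt_of_ne hp with h2 | h2
        · have h3 : x ∈ M := by rw [hMd]; exact Finset.mem_filter.2 ⟨hx, Or.inl ⟨h1, h2⟩⟩
          exact mul_pos_of_neg_of_neg (hwM x h3) h2
        · have h3 : x ∈ P := by rw [hPd]; exact Finset.mem_filter.2 ⟨hx, Or.inl ⟨h1, h2⟩⟩
          exact mul_pos (hwP x h3) h2
      · intro h1
        rcases lt_or_gt_of_ne hp with h2 | h2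
        · have h3 : x ∈ P := by rw [hPd]; exact Finset.mem_filter.2 ⟨hx, Or.inr ⟨h1, h2⟩⟩
          exact mul_neg_of_pos_of_neg (hwP x h3) h2
        · have h3 : x ∈ M := by rw [hMd]; exact Finset.mem_filter.2 ⟨hx, Or.inr ⟨h1, h2⟩⟩
          exact mul_neg_of_neg_of_pos (hwM x h3) h2)
    have h1 := hmax _ hadm
    rw [eval_add, eval_mul, eval_C] at h1
    have h2 := mul_pos hε hwc
    linarith

/-- ROW C3d. The consequence: `v - ε p` and `(p - v) - ε p` alternate at `s.card` points. -/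
theorem snake_alt {s : Finset ℕ} (hs0 : 0 < s.card) {p : ℝ[X]} {X : Finset ℝ}
    (hX0 : ∀ x ∈ X, 0 < x) (hXp : ∀ x ∈ X, p.eval x ≠ 0) (hX : s.card ≤ X.card) :
    ∃ v, Adm s p X v ∧ ∀ ε : ℝ, 0 < ε → ε < 1 →
      (∃ q, Alt (v - C ε * p) s.card q ∨ Alt (-(v - C ε * p)) s.card q) ∧
      (∃ q, Alt ((p - v) - C ε * p) s.card q ∨ Alt (-((p - v) - C ε * p)) s.card q) := by
  obtain ⟨v, hv, q, hq1, hq2⟩ := exists_snake hs0 hX0 hXp hX
  refine ⟨v, hv, fun ε hε hε1 => ⟨⟨q, Or.inl ⟨hq1, fun k hk => ?_⟩⟩, ⟨q, Or.inr ⟨hq1, fun k hk => ?_⟩⟩⟩⟩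
  · obtain ⟨h1, h2⟩ := hq2 k hk
    refine ⟨hX0 _ h1, ?_⟩
    rw [eval_sub, eval_mul, eval_C]
    rcases h2 with h2 | h2
    · rw [h2.1]
      nlinarith [mul_neg_of_pos_of_neg hε h2.2]
    · rw [h2.1]
      nlinarith [mul_pos (sub_pos.2 hε1) h2.2]
  · obtain ⟨h1, h2⟩ := hq2 k hk
    refine ⟨hX0 _ h1, ?_⟩
    rw [eval_neg, eval_sub, eval_sub, eval_mul, eval_C]
    rcases h2 with h2 | h2
    · rw [h2.1]
      nlinarith [mul_neg_of_pos_of_neg (sub_pos.2 hε1) h2.2]
    · rw [h2.1]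
      nlinarith [mul_pos hε h2.2]

end Pool.Agent.MP_c11b14_lc.LM
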