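import Pool.Agent.Lib.MP_c11b14_lc.LM.B2
import Pool.Agent.Lib.MP_c11b14_lc.LM.C3

set_option autoImplicit false

namespace Pool.Agent.MP_c11b14_lc.LM

open Set Polynomial

/-- ROW D1a (limit of log-concavity). PROOF. `v` has no root in `(a, b)`. Let `c = √(ab)`,
`1 < r < √(b/a)`, `a' = c / r`, `b' = c r` (so `[a', b'] ⊆ (a, b)`, `a' b' = a b`). For small `ε > 0`
`v - ε p ≠ 0` on `[a', b']` (compactness), `logconcave` gives
`(v - ε p)(a') (v - ε p)(b') ≤ (v - ε p)(c)²`; let `ε → 0`, then `r → √(b/a)`. -/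
theorem logconcave_limit {s : Finset ℕ} (hs0 : 0 < s.card) {v p : ℝ[X]} (hv : v.support ⊆ s)
    (hp : p.support ⊆ s) (hA : ∀ ε : ℝ, 0 < ε → ε < 1 →
      ∃ q, Alt (v - C ε * p) s.card q ∨ Alt (-(v - C ε * p)) s.card q) {a b : ℝ} (ha : 0 < a)
    (hab : a < b) (hz : ∀ x ∈ Ioo a b, v.eval x ≠ 0) :
    v.eval a * v.eval b ≤ v.eval (Real.sqrt (a * b)) ^ 2 := by
  have step : ∀ a', a < a' → a' < a * b / a' →
      v.eval a' * v.eval (a * b / a') ≤ v.eval (Real.sqrt (a * b)) ^ 2 := by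
    intro a' h1 h2
    have ha' : 0 < a' := ha.trans h1
    obtain ⟨b', hb'⟩ : ∃ b', b' = a * b / a' := ⟨_, rfl⟩
    rw [← hb'] at h2 ⊢
    have hb'b : b' < b := by
      rw [hb', div_lt_iff₀ ha', mul_comm a b]
      exact mul_lt_mul_of_pos_left h1 (ha.trans hab)
    have hab' : a' * b' = a * b := by
      rw [hb']
      field_simp
    have hz' : ∀ x ∈ Icc a' b', v.eval x ≠ 0 := fun x hx => hz x ⟨h1.trans_le hx.1, hx.2.trans_lt hb'b⟩
    obtain ⟨x0, hx0, hmin⟩ := (isCompact_Icc (a := a') (b := b')).exists_isMinOn (nonempty_Icc.2 h2.le)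
      (v.continuous.abs.continuousOn)
    obtain ⟨x1, hx1, hmax⟩ := (isCompact_Icc (a := a') (b := b')).exists_isMaxOn (nonempty_Icc.2 h2.le)
      (p.continuous.abs.continuousOn)
    have hm : 0 < |v.eval x0| := abs_pos.2 (hz' x0 hx0)
    have hM : 0 < |p.eval x1| + 1 := by positivity
    have h4 : ∀ᶠ ε in nhdsWithin (0 : ℝ) (Ioi 0), (v.eval a' - ε * p.eval a') * (v.eval b' - ε * p.eval b') ≤
        (v.eval (Real.sqrt (a * b)) - ε * p.eval (Real.sqrt (a * b))) ^ 2 := by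
      filter_upwards [Ioo_mem_nhdsGT (show (0 : ℝ) < min 1 (|v.eval x0| / (|p.eval x1| + 1)) from
        lt_min one_pos (by positivity))] with ε hε
      have he1 : ε < 1 := hε.2.trans_le (min_le_left _ _)
      have he2 : ε * (|p.eval x1| + 1) < |v.eval x0| :=
        (lt_div_iff₀ hM).1 (hε.2.trans_le (min_le_right _ _))
      have h5 := logconcave hs0 (p := v - C ε * p) ?_ (hA ε hε.1 he1) (a := a') (b := b') ⟨ha', h2, ?_⟩
      · simpa only [eval_sub, eval_mul, eval_C, hab'] using h5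
      · intro n hn
        by_contra hns
        have h6 : v.coeff n = 0 := notMem_support_iff.1 fun h => hns (hv h)
        have h7 : p.coeff n = 0 := notMem_support_iff.1 fun h => hns (hp h)
        rw [mem_support_iff] at hn
        exact hn (by rw [coeff_sub, coeff_C_mul, h6, h7]; ring)
      · intro x hx h6
        rw [eval_sub, eval_mul, eval_C, sub_eq_zero] at h6
        have h7 : |v.eval x0| ≤ |v.eval x| := hmin hx
        have h8 : |p.eval x| ≤ |p.eval x1| := hmax hx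
        rw [h6, abs_mul, abs_of_pos hε.1] at h7
        nlinarith [mul_le_mul_of_nonneg_left h8 hε.1.le, hε.1]
    have t1 : Filter.Tendsto (fun ε : ℝ => (v.eval a' - ε * p.eval a') * (v.eval b' - ε * p.eval b'))
        (nhdsWithin (0 : ℝ) (Ioi 0)) (nhds ((v.eval a' - 0 * p.eval a') * (v.eval b' - 0 * p.eval b'))) :=
      ((by fun_prop : Continuous fun ε : ℝ => (v.eval a' - ε * p.eval a') * (v.eval b' - ε * p.eval b')).tendsto
        0).mono_left nhdsWithin_le_nhds
    have t2 : Filter.Tendsto (fun ε : ℝ => (v.eval (Real.sqrt (a * b)) - ε * p.eval (Real.sqrt (a * b))) ^ 2)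
        (nhdsWithin (0 : ℝ) (Ioi 0)) (nhds ((v.eval (Real.sqrt (a * b)) - 0 * p.eval (Real.sqrt (a * b))) ^ 2)) :=
      ((by fun_prop : Continuous fun ε : ℝ =>
        (v.eval (Real.sqrt (a * b)) - ε * p.eval (Real.sqrt (a * b))) ^ 2).tendsto 0).mono_left nhdsWithin_le_nhds
    have h9 := le_of_tendsto_of_tendsto t1 t2 h4
    simpa using h9
  have hb0 : 0 < b := ha.trans hab
  have hsb : a < Real.sqrt (a * b) := by
    refine Real.lt_sqrt_of_sq_lt ?_
    rw [pow_two]
    exact mul_lt_mul_of_pos_left hab ha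
  have h4 : ∀ᶠ a' in nhdsWithin a (Ioi a), v.eval a' * v.eval (a * b / a') ≤ v.eval (Real.sqrt (a * b)) ^ 2 := by
    filter_upwards [Ioo_mem_nhdsGT hsb] with a' h5
    refine step a' h5.1 ?_
    have ha' : 0 < a' := ha.trans h5.1
    rw [lt_div_iff₀ ha', ← pow_two]
    exact (Real.lt_sqrt ha'.le).1 h5.2
  have t1 : Filter.Tendsto (fun a' : ℝ => v.eval a' * v.eval (a * b / a')) (nhdsWithin a (Ioi a))
      (nhds (v.eval a * v.eval (a * b / a))) := by
    have h6 : Filter.Tendsto (fun a' : ℝ => a * b / a') (nhds a) (nhds (a * b / a)) :=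
      tendsto_const_nhds.div Filter.tendsto_id ha.ne'
    exact ((v.continuous.tendsto a).mul ((v.continuous.tendsto _).comp h6)).mono_left nhdsWithin_le_nhds
  have h9 := le_of_tendsto t1 h4
  rwa [mul_div_cancel_left₀ b ha.ne'] at h9

theorem d1_win_mul_pos {p : ℝ[X]} {a b : ℝ} (hw : Win p a b) : 0 < p.eval a * p.eval b := by
  obtain ⟨ha, hab, h⟩ := hw
  by_contra hcon
  have ha0 := h a (left_mem_Icc.2 hab.le)
  have hb0 := h b (right_mem_Icc.2 hab.le)
  have hlt : p.eval a * p.eval b < 0 :=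
    lt_of_le_of_ne (not_lt.1 hcon) (mul_ne_zero ha0 hb0)
  have h0 : (0 : ℝ) ∈ uIcc (p.eval a) (p.eval b) := by
    rw [mem_uIcc]
    rcases mul_neg_iff.1 hlt with ⟨h1, h2⟩ | ⟨h1, h2⟩
    · exact Or.inr ⟨h2.le, h1.le⟩
    · exact Or.inl ⟨h1.le, h2.le⟩
  obtain ⟨x, hx, hx0⟩ := intermediate_value_uIcc (p.continuous.continuousOn) h0
  rw [uIcc_of_le hab.le] at hx
  exact h x hx hx0

theorem d1_atom {v p : ℝ[X]} {a b c : ℝ} (hpab : 0 < p.eval a * p.eval b)
    (hva : 0 ≤ v.eval a * p.eval a) (hvb : 0 ≤ v.eval b * p.eval b)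
    (hl : v.eval a * v.eval b ≤ v.eval c ^ 2) :
    Real.sqrt (|v.eval a| * |v.eval b|) ≤ |v.eval c| := by
  have h1 : 0 ≤ v.eval a * v.eval b := by
    have h2 : 0 ≤ (v.eval a * v.eval b) * (p.eval a * p.eval b) := by
      have := mul_nonneg hva hvb
      calc (0 : ℝ) ≤ (v.eval a * p.eval a) * (v.eval b * p.eval b) := this
        _ = _ := by ring
    exact nonneg_of_mul_nonneg_left h2 hpab
  rw [← abs_mul, abs_of_nonneg h1]
  calc Real.sqrt (v.eval a * v.eval b) ≤ Real.sqrt (v.eval c ^ 2) := Real.sqrt_le_sqrt hl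
    _ = |v.eval c| := Real.sqrt_sq_eq_abs _

theorem d1_abs_add {x y : ℝ} (hy0 : y ≠ 0) (h0 : 0 ≤ x * y) (h1 : x * y ≤ y ^ 2) :
    |x| + |y - x| = |y| := by
  rcases lt_trichotomy y 0 with hy | hy | hy
  · have hx : x ≤ 0 := by
      by_contra hx
      push Not at hx
      nlinarith
    have hxy : y ≤ x := by
      by_contra hxy
      push Not at hxy
      nlinarith
    rw [abs_of_nonpos hx, abs_of_nonpos (by linarith), abs_of_neg hy]
    ring
  · exact absurd hy hy0
  · have hx : 0 ≤ x := by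
      by_contra hx
      push Not at hx
      nlinarith
    have hxy : x ≤ y := by
      by_contra hxy
      push Not at hxy
      nlinarith
    rw [abs_of_nonneg hx, abs_of_nonneg (by linarith), abs_of_pos hy]
    ring

/-- ROW D1b (two atoms). PROOF. On `X` the numbers `v x`, `(p - v) x` are `0` or have the sign of
`p x` (from `Adm`), so `|p x| = |v x| + |(p - v) x|`; `p` has constant sign on `[a, b]`, so
`v a * v b = |v a| |v b|` etc.; D1a for `v` and `p - v` (trivial if `v = 0` resp. `p - v = 0`). -/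
theorem two_atoms {s : Finset ℕ} (hs0 : 0 < s.card) {v p : ℝ[X]} (hp : p.support ⊆ s)
    {X : Finset ℝ} (hv : Adm s p X v) (hA : ∀ ε : ℝ, 0 < ε → ε < 1 →
      (∃ q, Alt (v - C ε * p) s.card q ∨ Alt (-(v - C ε * p)) s.card q) ∧
      (∃ q, Alt ((p - v) - C ε * p) s.card q ∨ Alt (-((p - v) - C ε * p)) s.card q))
    {a b : ℝ} (hw : Win p a b) (ha : a ∈ X) (hb : b ∈ X) (hc : Real.sqrt (a * b) ∈ X)
    (h1 : v = 0 ∨ ∀ x ∈ Ioo a b, v.eval x ≠ 0)
    (h2 : p - v = 0 ∨ ∀ x ∈ Ioo a b, (p - v).eval x ≠ 0) :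
    Real.sqrt (|v.eval a| * |v.eval b|) + Real.sqrt (|(p - v).eval a| * |(p - v).eval b|) ≤
      |p.eval (Real.sqrt (a * b))| := by
  have hpab := d1_win_mul_pos hw
  obtain ⟨ha0, hab, hne⟩ := hw
  have hu : (p - v).support ⊆ s := by
    intro n hn
    rw [sub_eq_add_neg] at hn
    rcases Finset.mem_union.1 (support_add hn) with h | h
    · exact hp h
    · rw [support_neg] at h
      exact hv.1 h
  have l1 : v.eval a * v.eval b ≤ v.eval (Real.sqrt (a * b)) ^ 2 := by
    rcases h1 with h | h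
    · rw [h]; simp
    · exact logconcave_limit hs0 hv.1 hp (fun ε h0 h1 => (hA ε h0 h1).1) ha0 hab h
  have l2 : (p - v).eval a * (p - v).eval b ≤ (p - v).eval (Real.sqrt (a * b)) ^ 2 := by
    rcases h2 with h | h
    · rw [h]; simp
    · exact logconcave_limit hs0 hu hp (fun ε h0 h1 => (hA ε h0 h1).2) ha0 hab h
  have e1 := d1_atom hpab (hv.2 a ha).1 (hv.2 b hb).1 l1
  have e2 := d1_atom (v := p - v) hpab (by rw [eval_sub]; nlinarith [(hv.2 a ha).2])
    (by rw [eval_sub]; nlinarith [(hv.2 b hb).2]) l2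
  have hac : a ≤ Real.sqrt (a * b) := by
    calc a = Real.sqrt (a * a) := (Real.sqrt_mul_self ha0.le).symm
      _ ≤ Real.sqrt (a * b) := Real.sqrt_le_sqrt (by nlinarith)
  have hcb : Real.sqrt (a * b) ≤ b := by
    calc Real.sqrt (a * b) ≤ Real.sqrt (b * b) := Real.sqrt_le_sqrt (by nlinarith)
      _ = b := Real.sqrt_mul_self (by linarith)
  have e3 := d1_abs_add (hne _ ⟨hac, hcb⟩) (hv.2 _ hc).1 (hv.2 _ hc).2
  rw [← eval_sub] at e3
  linarith

end Pool.Agent.MP_c11b14_lc.LM
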