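import Mathlib

/-!
Definitions of the campaign LM (linear bound in the mean). All windows are in `(0, ∞)`, the middle
point of the window `(a, b)` is the geometric mean `√(a b)`.
-/

set_option autoImplicit false

namespace Pool.Agent.MP_c11b14_lc.LM

open Polynomial

/-- The number of different positive roots of `f`. -/
noncomputable def npos (f : ℝ[X]) : ℕ := (f.roots.toFinset.filter fun x => 0 < x).card

/-- The depth of the window `(a, b)` of `f`. -/
noncomputable def dep (f : ℝ[X]) (a b : ℝ) : ℝ :=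
  1 - |f.eval (Real.sqrt (a * b))| / Real.sqrt (|f.eval a| * |f.eval b|)

/-- `(a, b)` is a window of `f`. -/
def Win (f : ℝ[X]) (a b : ℝ) : Prop := 0 < a ∧ a < b ∧ ∀ x ∈ Set.Icc a b, f.eval x ≠ 0

/-- The intervals `(a i, b i)`, `i ∈ I`, do not overlap. -/
def Dis {ι : Type} (I : Finset ι) (a b : ι → ℝ) : Prop :=
  ∀ i ∈ I, ∀ j ∈ I, i ≠ j → b i ≤ a j ∨ b j ≤ a i

/-- `f` has alternating signs at the positive points `q 0 > q 1 > ... > q (t - 1)`, starting
with `+`. -/
def Alt (f : ℝ[X]) (t : ℕ) (q : ℕ → ℝ) : Prop :=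
  (∀ k, k + 1 < t → q (k + 1) < q k) ∧ ∀ k < t, 0 < q k ∧ 0 < (-1) ^ k * f.eval (q k)

/-- `v` has its support in `s` and `0 ≤ v / p ≤ 1` on `X`. -/
def Adm (s : Finset ℕ) (p : ℝ[X]) (X : Finset ℝ) (v : ℝ[X]) : Prop :=
  v.support ⊆ s ∧ ∀ x ∈ X, 0 ≤ v.eval x * p.eval x ∧ v.eval x * p.eval x ≤ p.eval x ^ 2

/-- `F ≠ 0` has at most `T` positive roots, and `∑ √(depth⁺) ≤ 4 T` for its windows. -/
def Good (F : ℝ[X]) (T : ℝ) : Prop :=
  F ≠ 0 ∧ (npos F : ℝ) ≤ T ∧ ∀ (ι : Type) (I : Finset ι) (a b : ι → ℝ),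
    (∀ i ∈ I, Win F (a i) (b i)) → Dis I a b →
    ∑ i ∈ I, Real.sqrt (max 0 (dep F (a i) (b i))) ≤ 4 * T

/-- `G ≠ 0` has nonnegative coefficients. -/
def Pos (G : ℝ[X]) : Prop := G ≠ 0 ∧ ∀ n, 0 ≤ G.coeff n

/-- Total variation of a finite sequence. -/
def tv : List ℝ → ℝ
  | x :: y :: l => |y - x| + tv (y :: l)
  | _ => 0

/-- `w` is a sequence high, low, high, low, ..., high with all differences at least `ε`. -/
def Vly (ε : ℝ) : List ℝ → Prop
  | [_] => True
  | h :: l :: h' :: t => l + ε ≤ h ∧ l + ε ≤ h' ∧ Vly ε (h' :: t)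
  | _ => False

/-- The Wronskian. -/
noncomputable def jac (F G : ℝ[X]) : ℝ[X] := derivative F * G - F * derivative G

/-- The positive critical points of `F / G`, in increasing order. -/
noncomputable def crit (F G : ℝ[X]) : List ℝ :=
  ((jac F G).roots.toFinset.filter fun x => 0 < x).sort (· ≤ ·)

/-- The quotient. -/
noncomputable def rat (F G : ℝ[X]) (x : ℝ) : ℝ := F.eval x / G.eval x

open Classical in
/-- The number of consecutive pairs `(p, p')` of a list with `b` between `R p` and `R p'`. -/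
noncomputable def crossings (R : ℝ → ℝ) (b : ℝ) : List ℝ → ℕ
  | p :: p' :: l => (if b ∈ Set.uIcc (R p) (R p') then 1 else 0) + crossings R b (p' :: l)
  | _ => 0

/-- `-R / a`, clamped to `[1, 2]`. -/
noncomputable def clp (R : ℝ → ℝ) (a : ℝ) (p : ℝ) : ℝ := max 1 (min 2 (-R p / a))

end Pool.Agent.MP_c11b14_lc.LM
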