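import Pool.Agent.Lib.MP_c11b14_lc.LM.D1

set_option autoImplicit false

namespace Pool.Agent.MP_c11b14_lc.LM

open Set Polynomial MeasureTheory

/-- ROW E1a (levels). PROOF. `|g i - h i|` is the length of the interval between `g i` and `h i`;
integrate the number of the `i` with `k` strictly between over `k ∈ (0, 1)`. -/
theorem level_sum {ι : Type} (I : Finset ι) (g h : ι → ℝ) (hg : ∀ i ∈ I, 0 ≤ g i ∧ g i ≤ 1)
    (hh : ∀ i ∈ I, 0 ≤ h i ∧ h i ≤ 1) (K : ℕ)
    (hK : ∀ k : ℝ, 0 < k → k < 1 → ∀ J : Finset ι, J ⊆ I →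
      (∀ i ∈ J, (g i < k ∧ k < h i) ∨ (h i < k ∧ k < g i)) → J.card ≤ K) :
    ∑ i ∈ I, |g i - h i| ≤ K := by
  classical
  have h1 : ∀ i ∈ I, |g i - h i| =
      ∫ k in Ioo (0 : ℝ) 1, (Ioo (min (g i) (h i)) (max (g i) (h i))).indicator (fun _ => (1 : ℝ)) k := by
    intro i hi
    rw [setIntegral_indicator measurableSet_Ioo]
    have h2 : Ioo (0 : ℝ) 1 ∩ Ioo (min (g i) (h i)) (max (g i) (h i)) =
        Ioo (min (g i) (h i)) (max (g i) (h i)) := by
      refine inter_eq_right.2 (Ioo_subset_Ioo ?_ ?_)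
      · exact le_min (hg i hi).1 (hh i hi).1
      · exact max_le (hg i hi).2 (hh i hi).2
    rw [h2, setIntegral_const, smul_eq_mul, mul_one, Real.volume_real_Ioo_of_le (min_le_max),
      max_sub_min_eq_abs, abs_sub_comm]
  rw [Finset.sum_congr rfl h1, ← integral_finsetSum]
  · have h3 : ∀ k ∈ Ioo (0 : ℝ) 1, ∑ i ∈ I,
        (Ioo (min (g i) (h i)) (max (g i) (h i))).indicator (fun _ => (1 : ℝ)) k ≤ K := by
      intro k hk
      have h4 : ∑ i ∈ I, (Ioo (min (g i) (h i)) (max (g i) (h i))).indicator (fun _ => (1 : ℝ)) k =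
          ((I.filter fun i => k ∈ Ioo (min (g i) (h i)) (max (g i) (h i))).card : ℝ) := by
        rw [Finset.card_filter]
        push_cast
        exact Finset.sum_congr rfl fun i _ => by rw [indicator_apply]
      rw [h4]
      exact_mod_cast hK k hk.1 hk.2 _ (Finset.filter_subset _ _) fun i hi => by
        obtain ⟨h5, h6⟩ := (Finset.mem_filter.1 hi).2
        rcases le_total (g i) (h i) with h7 | h7
        · rw [min_eq_left h7] at h5
          rw [max_eq_right h7] at h6
          exact Or.inl ⟨h5, h6⟩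
        · rw [min_eq_right h7] at h5
          rw [max_eq_left h7] at h6
          exact Or.inr ⟨h5, h6⟩
    calc ∫ k in Ioo (0 : ℝ) 1, ∑ i ∈ I,
          (Ioo (min (g i) (h i)) (max (g i) (h i))).indicator (fun _ => (1 : ℝ)) k
        ≤ ∫ _ in Ioo (0 : ℝ) 1, (K : ℝ) := by
          refine setIntegral_mono_on ?_ (integrable_const _) measurableSet_Ioo h3
          refine integrable_finsetSum _ fun i _ => ?_
          exact (integrable_const (1 : ℝ)).indicator measurableSet_Ioo
      _ = K := by simp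
  · intro i _
    exact (integrable_const (1 : ℝ)).indicator measurableSet_Ioo

/-- `p` has constant sign on a window. -/
theorem e1b_sign {p : ℝ[X]} {a b : ℝ} (hw : Win p a b) : 0 < p.eval a * p.eval b := by
  obtain ⟨h0, h1, h2⟩ := hw
  have ha := h2 a ⟨le_rfl, h1.le⟩
  have hb := h2 b ⟨h1.le, le_rfl⟩
  by_contra hcon
  have hlt : p.eval a * p.eval b < 0 :=
    lt_of_le_of_ne (not_lt.1 hcon) (mul_ne_zero ha hb)
  rcases mul_neg_iff.1 hlt with h | h
  · obtain ⟨x, hx, hx0⟩ := intermediate_value_Ioo' h1.le p.continuous.continuousOn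
      (show (0 : ℝ) ∈ Ioo (p.eval b) (p.eval a) from ⟨h.2, h.1⟩)
    exact h2 x ⟨hx.1.le, hx.2.le⟩ hx0
  · obtain ⟨x, hx, hx0⟩ := intermediate_value_Ioo h1.le p.continuous.continuousOn
      (show (0 : ℝ) ∈ Ioo (p.eval a) (p.eval b) from ⟨h.1, h.2⟩)
    exact h2 x ⟨hx.1.le, hx.2.le⟩ hx0

/-- A level strictly between the two ratios gives a root of `v - c p` in the window. -/
theorem e1b_root {v p : ℝ[X]} {a b c : ℝ} (hw : Win p a b)
    (h : (v.eval a / p.eval a < c ∧ c < v.eval b / p.eval b) ∨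
      (v.eval b / p.eval b < c ∧ c < v.eval a / p.eval a)) :
    (v - C c * p).eval a ≠ 0 ∧ ∃ x ∈ Ioo a b, (v - C c * p).eval x = 0 := by
  have hs := e1b_sign hw
  obtain ⟨h0, h1, h2⟩ := hw
  have ha := h2 a ⟨le_rfl, h1.le⟩
  have hb := h2 b ⟨h1.le, le_rfl⟩
  have e : ∀ x, p.eval x ≠ 0 → (v - C c * p).eval x = (v.eval x / p.eval x - c) * p.eval x := by
    intro x hx
    rw [eval_sub, eval_mul, eval_C]
    field_simp
  have hea := e a ha
  have heb := e b hb
  set u := v.eval a / p.eval a with hu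
  set w := v.eval b / p.eval b with hw'
  set P := p.eval a with hP
  set Q := p.eval b with hQ
  have hprod : (v - C c * p).eval a * (v - C c * p).eval b < 0 := by
    rw [hea, heb]
    have h3 : (u - c) * (w - c) < 0 := by
      rcases h with h | h
      · exact mul_neg_of_neg_of_pos (by linarith) (by linarith)
      · exact mul_neg_of_pos_of_neg (by linarith) (by linarith)
    have : (u - c) * P * ((w - c) * Q) = (u - c) * (w - c) * (P * Q) := by ring
    rw [this]
    exact mul_neg_of_neg_of_pos h3 hs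
  refine ⟨fun h3 => ?_, ?_⟩
  · rw [h3, zero_mul] at hprod
    exact lt_irrefl _ hprod
  · rcases mul_neg_iff.1 hprod with h | h
    · obtain ⟨x, hx, hx0⟩ := intermediate_value_Ioo' h1.le (v - C c * p).continuous.continuousOn
        (show (0 : ℝ) ∈ Ioo ((v - C c * p).eval b) ((v - C c * p).eval a) from ⟨h.2, h.1⟩)
      exact ⟨x, hx, hx0⟩
    · obtain ⟨x, hx, hx0⟩ := intermediate_value_Ioo h1.le (v - C c * p).continuous.continuousOn
        (show (0 : ℝ) ∈ Ioo ((v - C c * p).eval a) ((v - C c * p).eval b) from ⟨h.1, h.2⟩)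
      exact ⟨x, hx, hx0⟩

/-- `√u < k < √w` gives `u < k² < w`. -/
theorem e1b_sqrt {u w k : ℝ} (hk : 0 < k) (h : Real.sqrt u < k ∧ k < Real.sqrt w) :
    u < k ^ 2 ∧ k ^ 2 < w :=
  ⟨(Real.sqrt_lt' hk).1 h.1, (Real.lt_sqrt hk.le).1 h.2⟩

/-- ROW E1b. The square roots of two ratios. PROOF. `level_sum` with
`g i = √(v (a i) / p (a i))`, `h i = √(v (b i) / p (b i))`; if `k` is strictly between then
`v - k² p` has opposite signs at `a i` and `b i` (relative to `p`, which has constant sign on the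
window), so a root in `(a i, b i)`, and it is not `0`; `card_lt_of_roots`. -/
theorem ratio_sum {s : Finset ℕ} (hs0 : 0 < s.card) {v p : ℝ[X]} (hv : v.support ⊆ s)
    (hp : p.support ⊆ s)
    {ι : Type} (I : Finset ι) (a b : ι → ℝ) (hw : ∀ i ∈ I, Win p (a i) (b i)) (hd : Dis I a b)
    (h0 : ∀ i ∈ I, 0 ≤ v.eval (a i) / p.eval (a i) ∧ v.eval (a i) / p.eval (a i) ≤ 1 ∧
      0 ≤ v.eval (b i) / p.eval (b i) ∧ v.eval (b i) / p.eval (b i) ≤ 1) :
    ∑ i ∈ I, |Real.sqrt (v.eval (a i) / p.eval (a i)) - Real.sqrt (v.eval (b i) / p.eval (b i))| ≤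
      s.card - 1 := by
  have h1 := level_sum I (fun i => Real.sqrt (v.eval (a i) / p.eval (a i)))
    (fun i => Real.sqrt (v.eval (b i) / p.eval (b i)))
    (fun i hi => ⟨Real.sqrt_nonneg _, Real.sqrt_le_one.2 (h0 i hi).2.1⟩)
    (fun i hi => ⟨Real.sqrt_nonneg _, Real.sqrt_le_one.2 (h0 i hi).2.2.2⟩) (s.card - 1) (by
      intro k hk _ J hJ hbt
      rcases J.eq_empty_or_nonempty with rfl | ⟨j, hj⟩
      · simp
      have hroot : ∀ i ∈ J, (v - C (k ^ 2) * p).eval (a i) ≠ 0 ∧
          ∃ x ∈ Ioo (a i) (b i), (v - C (k ^ 2) * p).eval x = 0 := by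
        intro i hi
        refine e1b_root (hw i (hJ hi)) ?_
        
        rcases hbt i hi with h | h
        · exact Or.inl (e1b_sqrt hk h)
        · exact Or.inr (e1b_sqrt hk h)
      have hne : v - C (k ^ 2) * p ≠ 0 := by
        intro h
        apply (hroot j hj).1
        rw [h, eval_zero]
      have hsup : (v - C (k ^ 2) * p).support ⊆ s := by
        intro n hn
        by_contra hns
        rw [mem_support_iff, coeff_sub, coeff_C_mul] at hn
        have e1 : p.coeff n = 0 := notMem_support_iff.1 fun h => hns (hp h)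
        have e2 : v.coeff n = 0 := notMem_support_iff.1 fun h => hns (hv h)
        rw [e1, e2, mul_zero, sub_zero] at hn
        exact hn rfl
      have := card_lt_of_roots hne hsup J a b (fun i hi => (hw i (hJ hi)).1)
        (fun i hi j hj hij => hd i (hJ hi) j (hJ hj) hij) (fun i hi => (hroot i hi).2)
      omega)
  have h2 : ((s.card - 1 : ℕ) : ℝ) = (s.card : ℝ) - 1 := by
    rw [Nat.cast_sub hs0, Nat.cast_one]
  rw [← h2]
  exact h1

/-- ROW E1c. PROOF. With `f = |v a|/|p a|`, `g = |v b|/|p b|`: `1 - dep ≥ √(f g) + √((1-f)(1-g))`, so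
`2 dep ≤ (√f - √g)² + (√(1-f) - √(1-g))²`. -/
theorem dep_le_of_atoms {f g d : ℝ} (hf : 0 ≤ f) (hf1 : f ≤ 1) (hg : 0 ≤ g) (hg1 : g ≤ 1)
    (h : Real.sqrt (f * g) + Real.sqrt ((1 - f) * (1 - g)) ≤ 1 - d) :
    Real.sqrt (max 0 d) ≤ |Real.sqrt f - Real.sqrt g| + |Real.sqrt (1 - f) - Real.sqrt (1 - g)| := by
  have hf' : 0 ≤ 1 - f := by linarith
  have hg' : 0 ≤ 1 - g := by linarith
  rw [Real.sqrt_mul hf, Real.sqrt_mul hf'] at h
  have a1 := Real.sq_sqrt hf
  have a2 := Real.sq_sqrt hg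
  have a3 := Real.sq_sqrt hf'
  have a4 := Real.sq_sqrt hg'
  have b1 := sq_abs (Real.sqrt f - Real.sqrt g)
  have b2 := sq_abs (Real.sqrt (1 - f) - Real.sqrt (1 - g))
  have c1 := abs_nonneg (Real.sqrt f - Real.sqrt g)
  have c2 := abs_nonneg (Real.sqrt (1 - f) - Real.sqrt (1 - g))
  rw [Real.sqrt_le_left (by positivity)]
  refine max_le (by positivity) ?_
  nlinarith [mul_nonneg c1 c2, sq_nonneg (Real.sqrt f - Real.sqrt g),
    sq_nonneg (Real.sqrt (1 - f) - Real.sqrt (1 - g))]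

/-- Enough points off the roots. -/
theorem exists_points {p : ℝ[X]} (hp : p ≠ 0) (n : ℕ) :
    ∃ Y : Finset ℝ, n ≤ Y.card ∧ ∀ y ∈ Y, 0 < y ∧ p.eval y ≠ 0 := by
  classical
  have hinf : (Ioi (0 : ℝ) \ (p.roots.toFinset : Set ℝ)).Infinite :=
    (Ioi_infinite (0 : ℝ)).sdiff (Finset.finite_toSet _)
  obtain ⟨Y, hY, hc⟩ := hinf.exists_subset_card_eq n
  refine ⟨Y, hc.ge, fun y hy => ?_⟩
  have h := hY hy
  refine ⟨h.1, fun h0 => h.2 ?_⟩
  rw [Finset.mem_coe, Multiset.mem_toFinset, mem_roots hp]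
  exact h0

/-- Windows with a root of `v ≠ 0` inside: at most `s.card - 1`. -/
theorem bad_card {s : Finset ℕ} {v : ℝ[X]} (hv : v ≠ 0) (hs : v.support ⊆ s) {ι : Type}
    (I : Finset ι) (a b : ι → ℝ) (ha : ∀ i ∈ I, 0 < a i) (hd : Dis I a b)
    (J : Finset ι) (hJ : J ⊆ I) (h : ∀ i ∈ J, ∃ x ∈ Ioo (a i) (b i), v.eval x = 0) :
    (J.card : ℝ) ≤ s.card - 1 := by
  have h1 := card_lt_of_roots hv hs J a b (fun i hi => ha i (hJ hi))
    (fun i hi j hj hij => hd i (hJ hi) j (hJ hj) hij) h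
  have h2 : J.card + 1 ≤ s.card := h1
  have h3 : ((J.card + 1 : ℕ) : ℝ) ≤ s.card := by exact_mod_cast h2
  push_cast at h3
  linarith

theorem dep_le_one (p : ℝ[X]) (a b : ℝ) : dep p a b ≤ 1 := by
  unfold dep
  have : 0 ≤ |p.eval (Real.sqrt (a * b))| / Real.sqrt (|p.eval a| * |p.eval b|) := by positivity
  linarith

/-- ROW E1d. THE MAIN INEQUALITY. PROOF. `I = ∅` trivial. `X` = all `a i`, `b i`, `√(a i b i)` and
`s.card` more positive points with `p ≠ 0`; `v` from `snake_alt`, `u = p - v`. Bad windows: `v ≠ 0`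
and `v` has a root in `(a i, b i)`: at most `s.card - 1` (`card_lt_of_roots`); the same for `u`;
there `√(max 0 dep) ≤ 1`. Good windows: `two_atoms`, `dep_le_of_atoms`, and `ratio_sum` for `v` and
for `u` (`u/p = 1 - v/p`): `≤ 2 (s.card - 1)`. -/
theorem sum_sqrt_dep {s : Finset ℕ} {p : ℝ[X]} (hp : p ≠ 0) (hs : p.support ⊆ s) {ι : Type}
    (I : Finset ι) (a b : ι → ℝ) (hw : ∀ i ∈ I, Win p (a i) (b i)) (hd : Dis I a b) :
    ∑ i ∈ I, Real.sqrt (max 0 (dep p (a i) (b i))) ≤ 4 * ((s.card : ℝ) - 1) := by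
  classical
  have hs0 : 0 < s.card := by
    refine Finset.card_pos.2 ?_
    obtain ⟨n, hn⟩ := Finset.nonempty_iff_ne_empty.2 (fun h => hp (support_eq_empty.1 h))
    exact ⟨n, hs hn⟩
  obtain ⟨Y, hYc, hY⟩ := exists_points hp s.card
  set X : Finset ℝ := I.image a ∪ I.image b ∪ I.image (fun i => Real.sqrt (a i * b i)) ∪ Y with hX
  have hmid : ∀ i ∈ I, a i < Real.sqrt (a i * b i) ∧ Real.sqrt (a i * b i) < b i := by
    intro i hi
    obtain ⟨h0, h1, -⟩ := hw i hi
    constructor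
    · rw [Real.lt_sqrt h0.le]
      nlinarith
    · rw [Real.sqrt_lt' (h0.trans h1)]
      nlinarith
  have hXX : ∀ x ∈ X, 0 < x ∧ p.eval x ≠ 0 := by
    intro x hx
    simp only [hX, Finset.mem_union, Finset.mem_image] at hx
    rcases hx with ((⟨i, hi, rfl⟩ | ⟨i, hi, rfl⟩) | ⟨i, hi, rfl⟩) | hx
    · exact ⟨(hw i hi).1, (hw i hi).2.2 _ ⟨le_rfl, (hw i hi).2.1.le⟩⟩
    · exact ⟨(hw i hi).1.trans (hw i hi).2.1, (hw i hi).2.2 _ ⟨(hw i hi).2.1.le, le_rfl⟩⟩
    · exact ⟨(hw i hi).1.trans (hmid i hi).1, (hw i hi).2.2 _ ⟨(hmid i hi).1.le, (hmid i hi).2.le⟩⟩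
    · exact hY x hx
  have hXc : s.card ≤ X.card := hYc.trans (Finset.card_le_card Finset.subset_union_right)
  obtain ⟨v, hv, hA⟩ := snake_alt hs0 (p := p) (X := X) (fun x hx => (hXX x hx).1)
    (fun x hx => (hXX x hx).2) hXc
  have hus : (p - v).support ⊆ s := by
    intro n hn
    by_contra hns
    rw [mem_support_iff, coeff_sub] at hn
    have h1 : p.coeff n = 0 := notMem_support_iff.1 fun h => hns (hs h)
    have h2 : v.coeff n = 0 := notMem_support_iff.1 fun h => hns (hv.1 h)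
    rw [h1, h2, sub_zero] at hn
    exact hn rfl
  have haX : ∀ i ∈ I, a i ∈ X := fun i hi => by
    simp only [hX, Finset.mem_union, Finset.mem_image]
    exact Or.inl (Or.inl (Or.inl ⟨i, hi, rfl⟩))
  have hbX : ∀ i ∈ I, b i ∈ X := fun i hi => by
    simp only [hX, Finset.mem_union, Finset.mem_image]
    exact Or.inl (Or.inl (Or.inr ⟨i, hi, rfl⟩))
  have hcX : ∀ i ∈ I, Real.sqrt (a i * b i) ∈ X := fun i hi => by
    simp only [hX, Finset.mem_union, Finset.mem_image]
    exact Or.inl (Or.inr ⟨i, hi, rfl⟩)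
  -- the ratios
  have hrat : ∀ x ∈ X, 0 ≤ v.eval x / p.eval x ∧ v.eval x / p.eval x ≤ 1 := by
    intro x hx
    have h1 := hv.2 x hx
    have h2 := (hXX x hx).2
    have h3 : 0 < p.eval x ^ 2 := by positivity
    have h4 : v.eval x / p.eval x = v.eval x * p.eval x / p.eval x ^ 2 := by field_simp
    rw [h4]
    exact ⟨div_nonneg h1.1 h3.le, (div_le_one h3).2 h1.2⟩
  have hrat' : ∀ x ∈ X, (p - v).eval x / p.eval x = 1 - v.eval x / p.eval x := by
    intro x hx
    have h2 := (hXX x hx).2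
    rw [eval_sub]
    field_simp
  -- bad windows
  set B₁ : Finset ι := I.filter fun i => v ≠ 0 ∧ ∃ x ∈ Ioo (a i) (b i), v.eval x = 0 with hB₁
  set B₂ : Finset ι := I.filter fun i => p - v ≠ 0 ∧ ∃ x ∈ Ioo (a i) (b i), (p - v).eval x = 0
    with hB₂
  have ht : (0 : ℝ) ≤ (s.card : ℝ) - 1 := by
    have : (1 : ℝ) ≤ s.card := by exact_mod_cast hs0
    linarith
  have hB₁c : (B₁.card : ℝ) ≤ s.card - 1 := by
    by_cases h0 : v = 0
    · have : B₁ = ∅ := by
        rw [hB₁, Finset.filter_eq_empty_iff]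
        intro i _ h
        exact h.1 h0
      rw [this]
      simpa using ht
    · exact bad_card h0 hv.1 I a b (fun i hi => (hw i hi).1) hd B₁ (Finset.filter_subset _ _)
        (fun i hi => ((Finset.mem_filter.1 hi).2).2)
  have hB₂c : (B₂.card : ℝ) ≤ s.card - 1 := by
    by_cases h0 : p - v = 0
    · have : B₂ = ∅ := by
        rw [hB₂, Finset.filter_eq_empty_iff]
        intro i _ h
        exact h.1 h0
      rw [this]
      simpa using ht
    · exact bad_card h0 hus I a b (fun i hi => (hw i hi).1) hd B₂ (Finset.filter_subset _ _)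
        (fun i hi => ((Finset.mem_filter.1 hi).2).2)
  -- pointwise bound
  have hone : ∀ i, Real.sqrt (max 0 (dep p (a i) (b i))) ≤ 1 := by
    intro i
    exact Real.sqrt_le_one.2 (max_le zero_le_one (dep_le_one _ _ _))
  set g₁ : ι → ℝ := fun i => |Real.sqrt (v.eval (a i) / p.eval (a i)) -
    Real.sqrt (v.eval (b i) / p.eval (b i))| with hg₁
  set g₂ : ι → ℝ := fun i => |Real.sqrt ((p - v).eval (a i) / p.eval (a i)) -
    Real.sqrt ((p - v).eval (b i) / p.eval (b i))| with hg₂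
  have hpt : ∀ i ∈ I, Real.sqrt (max 0 (dep p (a i) (b i))) ≤
      g₁ i + g₂ i + (if i ∈ B₁ then 1 else 0) + (if i ∈ B₂ then 1 else 0) := by
    intro i hi
    have hg1 : 0 ≤ g₁ i := abs_nonneg _
    have hg2 : 0 ≤ g₂ i := abs_nonneg _
    by_cases h1 : i ∈ B₁
    · rw [if_pos h1]
      have := hone i
      split_ifs <;> linarith
    · by_cases h2 : i ∈ B₂
      · rw [if_neg h1, if_pos h2]
        have := hone i
        linarith
      · rw [if_neg h1, if_neg h2]
        have k1 : v = 0 ∨ ∀ x ∈ Ioo (a i) (b i), v.eval x ≠ 0 := by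
          by_contra hcon
          push Not at hcon
          exact h1 (Finset.mem_filter.2 ⟨hi, hcon⟩)
        have k2 : p - v = 0 ∨ ∀ x ∈ Ioo (a i) (b i), (p - v).eval x ≠ 0 := by
          by_contra hcon
          push Not at hcon
          exact h2 (Finset.mem_filter.2 ⟨hi, hcon⟩)
        have h3 := two_atoms hs0 hs hv hA (hw i hi) (haX i hi) (hbX i hi) (hcX i hi) k1 k2
        have ha0 := (hXX _ (haX i hi)).2
        have hb0 := (hXX _ (hbX i hi)).2
        have hra := hrat _ (haX i hi)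
        have hrb := hrat _ (hbX i hi)
        have hD : 0 < Real.sqrt (|p.eval (a i)| * |p.eval (b i)|) := Real.sqrt_pos.2 (by positivity)
        have h4 : Real.sqrt (v.eval (a i) / p.eval (a i) * (v.eval (b i) / p.eval (b i))) =
            Real.sqrt (|v.eval (a i)| * |v.eval (b i)|) /
              Real.sqrt (|p.eval (a i)| * |p.eval (b i)|) := by
          rw [← Real.sqrt_div (by positivity)]
          congr 1
          rw [← abs_of_nonneg hra.1, ← abs_of_nonneg hrb.1, abs_div, abs_div]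
          field_simp
        have h5 : Real.sqrt ((1 - v.eval (a i) / p.eval (a i)) * (1 - v.eval (b i) / p.eval (b i))) =
            Real.sqrt (|(p - v).eval (a i)| * |(p - v).eval (b i)|) /
              Real.sqrt (|p.eval (a i)| * |p.eval (b i)|) := by
          rw [← Real.sqrt_div (by positivity), ← hrat' _ (haX i hi), ← hrat' _ (hbX i hi)]
          congr 1
          have e1 : 0 ≤ (p - v).eval (a i) / p.eval (a i) := by
            rw [hrat' _ (haX i hi)]; linarith [hra.2]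
          have e2 : 0 ≤ (p - v).eval (b i) / p.eval (b i) := by
            rw [hrat' _ (hbX i hi)]; linarith [hrb.2]
          rw [← abs_of_nonneg e1, ← abs_of_nonneg e2, abs_div, abs_div]
          field_simp
        have h6 := dep_le_of_atoms (f := v.eval (a i) / p.eval (a i))
          (g := v.eval (b i) / p.eval (b i)) (d := dep p (a i) (b i)) hra.1 hra.2 hrb.1 hrb.2 (by
            rw [h4, h5, ← add_div, dep]
            have : (Real.sqrt (|v.eval (a i)| * |v.eval (b i)|) +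
              Real.sqrt (|(p - v).eval (a i)| * |(p - v).eval (b i)|)) /
              Real.sqrt (|p.eval (a i)| * |p.eval (b i)|) ≤
              |p.eval (Real.sqrt (a i * b i))| / Real.sqrt (|p.eval (a i)| * |p.eval (b i)|) :=
              (div_le_div_iff_of_pos_right hD).2 h3
            linarith)
        rw [← hrat' _ (haX i hi), ← hrat' _ (hbX i hi)] at h6
        simp only [hg₁, hg₂]
        linarith
  have hsum₁ : ∑ i ∈ I, g₁ i ≤ s.card - 1 :=
    ratio_sum hs0 hv.1 hs I a b hw hd fun i hi =>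
      ⟨(hrat _ (haX i hi)).1, (hrat _ (haX i hi)).2, (hrat _ (hbX i hi)).1, (hrat _ (hbX i hi)).2⟩
  have hsum₂ : ∑ i ∈ I, g₂ i ≤ s.card - 1 :=
    ratio_sum hs0 hus hs I a b hw hd fun i hi => by
      rw [hrat' _ (haX i hi), hrat' _ (hbX i hi)]
      have := hrat _ (haX i hi)
      have := hrat _ (hbX i hi)
      refine ⟨?_, ?_, ?_, ?_⟩ <;> linarith
  calc ∑ i ∈ I, Real.sqrt (max 0 (dep p (a i) (b i)))
      ≤ ∑ i ∈ I, (g₁ i + g₂ i + (if i ∈ B₁ then 1 else 0) + (if i ∈ B₂ then 1 else 0)) :=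
        Finset.sum_le_sum hpt
    _ = ∑ i ∈ I, g₁ i + ∑ i ∈ I, g₂ i + B₁.card + B₂.card := by
        rw [Finset.sum_add_distrib, Finset.sum_add_distrib, Finset.sum_add_distrib]
        congr 1
        · congr 1
          rw [← Finset.sum_filter, Finset.sum_const, nsmul_eq_mul, mul_one]
          congr 2
          ext i
          simp only [Finset.mem_filter, hB₁]
          tauto
        · rw [← Finset.sum_filter, Finset.sum_const, nsmul_eq_mul, mul_one]
          congr 2
          ext i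
          simp only [Finset.mem_filter, hB₂]
          tauto
    _ ≤ 4 * ((s.card : ℝ) - 1) := by linarith

end Pool.Agent.MP_c11b14_lc.LM
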