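import Pool.Agent.Lib.MP_c11b14_lc.LM.E1

set_option autoImplicit false

namespace Pool.Agent.MP_c11b14_lc.LM

open Set Polynomial

private theorem F1_one_sub_prod {ι : Type*} (s : Finset ι) (σ : ι → ℝ) (hσ : ∀ i ∈ s, 0 ≤ σ i) :
    max 0 (1 - ∏ i ∈ s, σ i) ≤ ∑ i ∈ s, max 0 (1 - σ i) := by
  classical
  induction s using Finset.induction_on with
  | empty => simp
  | insert i s hi ih =>
    rw [Finset.prod_insert hi, Finset.sum_insert hi]
    have h1 := ih (fun j hj => hσ j (Finset.mem_insert_of_mem hj))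
    have h2 := hσ i (Finset.mem_insert_self i s)
    have h3 : 0 ≤ ∏ j ∈ s, σ j := Finset.prod_nonneg (fun j hj => hσ j (Finset.mem_insert_of_mem hj))
    set a := ∏ j ∈ s, σ j with ha
    refine le_trans ?_ (add_le_add_right h1 _)
    rcases le_total 0 (1 - σ i) with h4 | h4 <;> rcases le_total 0 (1 - a) with h5 | h5
    · rw [max_eq_right h4, max_eq_right h5]
      refine max_le (by linarith) ?_
      nlinarith [mul_nonneg h4 h5]
    · rw [max_eq_right h4, max_eq_left h5]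
      refine max_le (by linarith) ?_
      nlinarith [mul_nonneg h2 (neg_nonneg.2 h5)]
    · rw [max_eq_left h4, max_eq_right h5]
      refine max_le (by linarith) ?_
      nlinarith [mul_nonneg h3 (neg_nonneg.2 h4)]
    · rw [max_eq_left h4, max_eq_left h5]
      refine max_le (by linarith) ?_
      nlinarith [mul_nonneg (neg_nonneg.2 h4) (neg_nonneg.2 h5)]

private theorem F1_npos_prod {m : ℕ} {f : Fin m → ℝ[X]} (hf : ∀ i, f i ≠ 0) :
    npos (∏ i, f i) ≤ ∑ i, npos (f i) := by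
  classical
  unfold npos
  refine le_trans (Finset.card_le_card (t := Finset.univ.biUnion
    fun i => (f i).roots.toFinset.filter fun x => 0 < x) ?_) Finset.card_biUnion_le
  intro x hx
  rw [Finset.mem_filter, Multiset.mem_toFinset, mem_roots (Finset.prod_ne_zero_iff.2 fun i _ => hf i), IsRoot.def,
    eval_prod] at hx
  obtain ⟨i, _, hi⟩ := Finset.prod_eq_zero_iff.1 hx.1
  rw [Finset.mem_biUnion]
  refine ⟨i, Finset.mem_univ i, ?_⟩
  rw [Finset.mem_filter, Multiset.mem_toFinset, mem_roots (hf i)]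
  exact ⟨hi, hx.2⟩

private theorem F1_sqrt_add {x y : ℝ} (hx : 0 ≤ x) (hy : 0 ≤ y) :
    Real.sqrt (x + y) ≤ Real.sqrt x + Real.sqrt y := by
  rw [Real.sqrt_le_left (by positivity)]
  nlinarith [Real.sq_sqrt hx, Real.sq_sqrt hy, mul_nonneg (Real.sqrt_nonneg x) (Real.sqrt_nonneg y)]

private theorem F1_sqrt_sum {ι : Type*} (s : Finset ι) (x : ι → ℝ) (hx : ∀ i ∈ s, 0 ≤ x i) :
    Real.sqrt (∑ i ∈ s, x i) ≤ ∑ i ∈ s, Real.sqrt (x i) := by
  classical
  induction s using Finset.induction_on with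
  | empty => simp
  | insert i s hi ih =>
    rw [Finset.sum_insert hi, Finset.sum_insert hi]
    refine (F1_sqrt_add (hx i (Finset.mem_insert_self i s)) (Finset.sum_nonneg fun j hj =>
      hx j (Finset.mem_insert_of_mem hj))).trans ?_
    have := ih fun j hj => hx j (Finset.mem_insert_of_mem hj)
    linarith

private theorem F1_dep_prod {m : ℕ} (f : Fin m → ℝ[X]) (a b : ℝ) :
    1 - dep (∏ i, f i) a b = ∏ i, (1 - dep (f i) a b) := by
  simp only [dep, sub_sub_cancel, eval_prod, Finset.abs_prod]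
  rw [← Finset.prod_mul_distrib, Real.sqrt_prod _ (fun i _ => by positivity),
    ← Finset.prod_div_distrib]

/-- ROW F1a (products). PROOF. `1 - dep (∏ f) = ∏ (1 - dep f_i)` on a window of `∏ f`, so
`dep (∏ f)⁺ ≤ ∑ (dep f_i)⁺` and `√` of a sum is at most the sum of the `√`; `sum_sqrt_dep` with
`s = (f i).support`; `npos (∏ f) ≤ ∑ npos (f i) ≤ ∑ (t_i - 1)`. -/
theorem good_prod' {m : ℕ} {f : Fin m → ℝ[X]} (hf : ∀ i, f i ≠ 0) :
    Good (∏ i, f i) (∑ i, (((f i).support.card : ℝ) - 1)) := by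
  refine ⟨Finset.prod_ne_zero_iff.2 fun i _ => hf i, ?_, fun ι I a b hw hd => ?_⟩
  · have h1 : (npos (∏ i, f i) : ℝ) ≤ ∑ i, (npos (f i) : ℝ) := by exact_mod_cast F1_npos_prod hf
    refine h1.trans (Finset.sum_le_sum fun i _ => ?_)
    have h2 : npos (f i) + 1 ≤ (f i).support.card := npos_lt (hf i) subset_rfl
    have h3 : ((npos (f i) + 1 : ℕ) : ℝ) ≤ (f i).support.card := by exact_mod_cast h2
    push_cast at h3
    linarith
  · have hwi : ∀ j, ∀ i ∈ I, Win (f j) (a i) (b i) := by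
      intro j i hi
      obtain ⟨h1, h2, h3⟩ := hw i hi
      refine ⟨h1, h2, fun x hx => ?_⟩
      have h4 := h3 x hx
      rw [eval_prod] at h4
      exact Finset.prod_ne_zero_iff.1 h4 j (Finset.mem_univ j)
    have hstep : ∀ i ∈ I, Real.sqrt (max 0 (dep (∏ i, f i) (a i) (b i))) ≤
        ∑ j, Real.sqrt (max 0 (dep (f j) (a i) (b i))) := by
      intro i _
      refine (Real.sqrt_le_sqrt ?_).trans (F1_sqrt_sum Finset.univ
        (fun j => max 0 (dep (f j) (a i) (b i))) fun j _ => le_max_left _ _)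
      have h1 := F1_one_sub_prod Finset.univ (fun j => 1 - dep (f j) (a i) (b i)) fun j _ => by
        simp only [dep, sub_sub_cancel]
        positivity
      simp only [sub_sub_cancel] at h1
      rw [← F1_dep_prod, sub_sub_cancel] at h1
      exact h1
    refine (Finset.sum_le_sum hstep).trans ?_
    rw [Finset.sum_comm, Finset.mul_sum]
    refine Finset.sum_le_sum fun j _ => ?_
    have := sum_sqrt_dep (hf j) (subset_rfl : (f j).support ⊆ (f j).support) I a b (hwi j) hd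
    linarith

theorem Good.mono {F : ℝ[X]} {T T' : ℝ} (h : Good F T) (hT : T ≤ T') : Good F T' :=
  ⟨h.1, h.2.1.trans hT, fun ι I a b hw hd => (h.2.2 ι I a b hw hd).trans (by linarith)⟩

theorem good_prod {m : ℕ} {f : Fin m → ℝ[X]} (hf : ∀ i, f i ≠ 0) :
    Good (∏ i, f i) (∑ i, ((f i).support.card : ℝ)) :=
  (good_prod' hf).mono (Finset.sum_le_sum fun i _ => by linarith)

/-- ROW F1b. -/
theorem Good.neg {F : ℝ[X]} {T : ℝ} (h : Good F T) : Good (-F) T := by
  obtain ⟨h1, h2, h3⟩ := h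
  refine ⟨neg_ne_zero.mpr h1, ?_, fun ι I a b hw hd => ?_⟩
  · have : npos (-F) = npos F := by simp only [npos, roots_neg]
    rwa [this]
  · have h4 := h3 ι I a b (fun i hi => ?_) hd
    · have h5 : ∀ x y, dep (-F) x y = dep F x y := fun x y => by
        simp only [dep, eval_neg, abs_neg]
      simpa only [h5] using h4
    · obtain ⟨k1, k2, k3⟩ := hw i hi
      exact ⟨k1, k2, fun x hx h0 => k3 x hx (by rw [eval_neg, h0, neg_zero])⟩

/-- ROW F1c. -/
theorem Pos.eval_pos {G : ℝ[X]} (hG : Pos G) {x : ℝ} (hx : 0 < x) : 0 < G.eval x := by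
  rw [eval_eq_sum_range]
  refine Finset.sum_pos' (fun i _ => mul_nonneg (hG.2 i) (pow_pos hx i).le)
    ⟨G.natDegree, Finset.self_mem_range_succ _, mul_pos ?_ (pow_pos hx _)⟩
  exact lt_of_le_of_ne (hG.2 _) (Ne.symm (leadingCoeff_ne_zero.mpr hG.1))

/-- ROW F1d. PROOF. Cauchy-Schwarz: `(ab)^(n/2) = √(a^n) √(b^n)`. -/
theorem Pos.conv {G : ℝ[X]} (hG : Pos G) {a b : ℝ} (ha : 0 < a) (hb : 0 < b) :
    G.eval (Real.sqrt (a * b)) ^ 2 ≤ G.eval a * G.eval b := by
  have h1 := Finset.sum_mul_sq_le_sq_mul_sq (Finset.range (G.natDegree + 1))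
    (fun i => Real.sqrt (G.coeff i * a ^ i)) (fun i => Real.sqrt (G.coeff i * b ^ i))
  have h2 : ∀ i, Real.sqrt (G.coeff i * a ^ i) * Real.sqrt (G.coeff i * b ^ i) =
      G.coeff i * Real.sqrt (a * b) ^ i := by
    intro i
    rw [← Real.sqrt_mul (mul_nonneg (hG.2 i) (pow_pos ha i).le)]
    have h3 : G.coeff i * a ^ i * (G.coeff i * b ^ i) = (G.coeff i * Real.sqrt (a * b) ^ i) ^ 2 := by
      rw [mul_pow, ← pow_mul, mul_comm i 2, pow_mul, Real.sq_sqrt (mul_pos ha hb).le, mul_pow]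
      ring
    rw [h3, Real.sqrt_sq (mul_nonneg (hG.2 i) (by positivity))]
  have h4 : ∀ i, Real.sqrt (G.coeff i * a ^ i) ^ 2 = G.coeff i * a ^ i := fun i =>
    Real.sq_sqrt (mul_nonneg (hG.2 i) (pow_pos ha i).le)
  have h5 : ∀ i, Real.sqrt (G.coeff i * b ^ i) ^ 2 = G.coeff i * b ^ i := fun i =>
    Real.sq_sqrt (mul_nonneg (hG.2 i) (pow_pos hb i).le)
  simp only [h2, h4, h5] at h1
  rw [eval_eq_sum_range, eval_eq_sum_range, eval_eq_sum_range]
  exact h1

end Pool.Agent.MP_c11b14_lc.LM
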