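import Pool.Agent.Lib.MP_c11b14_lc.LM.F1

set_option autoImplicit false

namespace Pool.Agent.MP_c11b14_lc.LM

open Set Polynomial

/-- ROW F2a (one dip). PROOF. `R = -F/G > 0` on `[a, b]` (`F` has no root there and `F < 0` at `a`).
`c'` a minimum point of `R` on `[a, b]`: `R c' ≤ R c ≤ (1 - η) h`, so `a < c' < b`.
`r = min (c'/a) (b/c') > 1`, `a' = c'/r`, `b' = c' r`: `[a', b'] ⊆ [a, b]`, `√(a' b') = c'`, and
`a' = a` or `b' = b`. At one end `R ≥ h`, at the other `R ≥ R c'`. `G c'² ≤ G a' G b'`, so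
`1 - dep F a' b' = |F c'| / √(|F a'| |F b'|) ≤ R c' / √(R a' R b') ≤ √(R c' / h) ≤ √(1 - η) ≤
1 - η/2`. -/
theorem one_dip {F G : ℝ[X]} (hG : Pos G) {η a c b h : ℝ} (h0 : 0 < η) (h1 : η ≤ 1)
    (ha : 0 < a) (hac : a < c) (hcb : c < b) (hh : 0 < h) (hz : ∀ x ∈ Icc a b, F.eval x ≠ 0)
    (hFa : h * G.eval a ≤ -F.eval a) (hFb : h * G.eval b ≤ -F.eval b)
    (hFc : -F.eval c ≤ (1 - η) * h * G.eval c) :
    ∃ a' b', a ≤ a' ∧ b' ≤ b ∧ Win F a' b' ∧ η / 2 ≤ dep F a' b' := by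
  have hab : a < b := hac.trans hcb
  have hb0 : 0 < b := ha.trans hab
  have hc0 : 0 < c := ha.trans hac
  have hGp : ∀ x ∈ Icc a b, 0 < G.eval x := fun x hx => hG.eval_pos (ha.trans_le hx.1)
  have haI : a ∈ Icc a b := ⟨le_rfl, hab.le⟩
  have hbI : b ∈ Icc a b := ⟨hab.le, le_rfl⟩
  have hcI : c ∈ Icc a b := ⟨hac.le, hcb.le⟩
  -- `F` is negative on `[a, b]`
  have hFneg : ∀ x ∈ Icc a b, F.eval x < 0 := by
    intro x hx
    by_contra hcon
    rw [not_lt] at hcon
    have h2 : F.eval a < 0 := by nlinarith [hGp a haI]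
    have h3 : (0 : ℝ) ∈ Icc (F.eval a) (F.eval x) := ⟨h2.le, hcon⟩
    obtain ⟨y, hy, hy'⟩ := intermediate_value_Icc hx.1 F.continuous.continuousOn h3
    exact hz y ⟨hy.1, hy.2.trans hx.2⟩ hy'
  -- the quotient
  set R : ℝ → ℝ := fun x => -F.eval x / G.eval x with hR
  have hRc : ContinuousOn R (Icc a b) :=
    (F.continuous.neg.continuousOn).div G.continuous.continuousOn fun x hx => (hGp x hx).ne'
  have hFR : ∀ x ∈ Icc a b, -F.eval x = R x * G.eval x := fun x hx => by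
    rw [hR]; field_simp [(hGp x hx).ne']
  obtain ⟨c', hc'I, hmin⟩ := isCompact_Icc.exists_isMinOn (nonempty_Icc.2 hab.le) hRc
  have hmin' : ∀ x ∈ Icc a b, R c' ≤ R x := fun x hx => hmin hx
  have hRpos : ∀ x ∈ Icc a b, 0 < R x := fun x hx => div_pos (by linarith [hFneg x hx]) (hGp x hx)
  have hRa : h ≤ R a := by
    rw [hR, le_div_iff₀ (hGp a haI)]; exact hFa
  have hRb : h ≤ R b := by
    rw [hR, le_div_iff₀ (hGp b hbI)]; exact hFb
  have hRcc : R c ≤ (1 - η) * h := by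
    rw [hR, div_le_iff₀ (hGp c hcI)]; exact hFc
  have hρ : R c' ≤ (1 - η) * h := (hmin' c hcI).trans hRcc
  have hlt : R c' < h := by nlinarith
  have hac' : a < c' := by
    rcases hc'I.1.lt_or_eq with h2 | h2
    · exact h2
    · rw [← h2] at hlt; linarith
  have hcb' : c' < b := by
    rcases hc'I.2.lt_or_eq with h2 | h2
    · exact h2
    · rw [h2] at hlt; linarith
  have hc'0 : 0 < c' := ha.trans hac'
  set r : ℝ := min (c' / a) (b / c') with hr
  have hr1 : 1 < r := lt_min ((one_lt_div ha).2 hac') ((one_lt_div hc'0).2 hcb')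
  have hr0 : 0 < r := by linarith
  have ha' : a ≤ c' / r := by
    rw [le_div_iff₀ hr0]
    have : r ≤ c' / a := min_le_left _ _
    rw [le_div_iff₀ ha] at this
    linarith
  have hb' : c' * r ≤ b := by
    have : r ≤ b / c' := min_le_right _ _
    rw [le_div_iff₀ hc'0] at this
    linarith
  have hlt' : c' / r < c' * r := by
    rw [div_lt_iff₀ hr0]
    nlinarith [mul_pos hc'0 hr0]
  have ha'c : c' / r ≤ c' := by
    rw [div_le_iff₀ hr0]; nlinarith
  have hcb'' : c' ≤ c' * r := by nlinarith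
  have ha'I : c' / r ∈ Icc a b := ⟨ha', ha'c.trans hcb'.le⟩
  have hb'I : c' * r ∈ Icc a b := ⟨hac'.le.trans hcb'', hb'⟩
  have hprod : c' / r * (c' * r) = c' ^ 2 := by field_simp
  have hsq : Real.sqrt (c' / r * (c' * r)) = c' := by rw [hprod]; exact Real.sqrt_sq hc'0.le
  -- one end is high
  have hhigh : h * R c' ≤ R (c' / r) * R (c' * r) := by
    rcases le_total (c' / a) (b / c') with h2 | h2
    · have h3 : r = c' / a := min_eq_left h2
      have h4 : c' / r = a := by rw [h3]; field_simp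
      rw [h4]
      exact mul_le_mul hRa (hmin' _ hb'I) (hRpos _ hc'I).le (hRpos a haI).le
    · have h3 : r = b / c' := min_eq_right h2
      have h4 : c' * r = b := by rw [h3]; field_simp
      rw [h4, mul_comm (R (c' / r))]
      exact mul_le_mul hRb (hmin' _ ha'I) (hRpos _ hc'I).le (hRpos b hbI).le
  have hconv : G.eval c' ^ 2 ≤ G.eval (c' / r) * G.eval (c' * r) := by
    have := hG.conv (div_pos hc'0 hr0) (mul_pos hc'0 hr0)
    rwa [hsq] at this
  refine ⟨c' / r, c' * r, ha', hb', ⟨div_pos hc'0 hr0, hlt', fun x hx =>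
    hz x ⟨ha'.trans hx.1, hx.2.trans hb'⟩⟩, ?_⟩
  unfold dep
  rw [hsq]
  have e1 : |F.eval c'| = R c' * G.eval c' := by
    rw [abs_of_neg (hFneg _ hc'I), hFR _ hc'I]
  have e2 : |F.eval (c' / r)| = R (c' / r) * G.eval (c' / r) := by
    rw [abs_of_neg (hFneg _ ha'I), hFR _ ha'I]
  have e3 : |F.eval (c' * r)| = R (c' * r) * G.eval (c' * r) := by
    rw [abs_of_neg (hFneg _ hb'I), hFR _ hb'I]
  have hpp : 0 < |F.eval (c' / r)| * |F.eval (c' * r)| :=
    mul_pos (abs_pos.2 (hFneg _ ha'I).ne) (abs_pos.2 (hFneg _ hb'I).ne)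
  have hkey : |F.eval c'| ≤ (1 - η / 2) * Real.sqrt (|F.eval (c' / r)| * |F.eval (c' * r)|) := by
    have h2 : |F.eval c'| ^ 2 ≤ (1 - η / 2) ^ 2 * (|F.eval (c' / r)| * |F.eval (c' * r)|) := by
      rw [e1, e2, e3]
      have h3 : R c' ^ 2 ≤ (1 - η / 2) ^ 2 * (h * R c') := by
        have h4 : R c' ^ 2 ≤ (1 - η) * h * R c' := by
          rw [pow_two]; exact mul_le_mul_of_nonneg_right hρ (hRpos _ hc'I).le
        have h5 : (1 - η) * (h * R c') ≤ (1 - η / 2) ^ 2 * (h * R c') :=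
          mul_le_mul_of_nonneg_right (by nlinarith) (mul_pos hh (hRpos _ hc'I)).le
        linarith
      calc (R c' * G.eval c') ^ 2 = R c' ^ 2 * G.eval c' ^ 2 := by ring
        _ ≤ ((1 - η / 2) ^ 2 * (h * R c')) * G.eval c' ^ 2 :=
            mul_le_mul_of_nonneg_right h3 (by positivity)
        _ ≤ ((1 - η / 2) ^ 2 * (R (c' / r) * R (c' * r))) *
            (G.eval (c' / r) * G.eval (c' * r)) := by
            apply mul_le_mul
            · exact mul_le_mul_of_nonneg_left hhigh (by positivity)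
            · exact hconv
            · positivity
            · exact mul_nonneg (by positivity)
                (mul_pos (hRpos _ ha'I) (hRpos _ hb'I)).le
        _ = _ := by ring
    have h6 : |F.eval c'| = Real.sqrt (|F.eval c'| ^ 2) := (Real.sqrt_sq (abs_nonneg _)).symm
    rw [h6]
    calc Real.sqrt (|F.eval c'| ^ 2)
        ≤ Real.sqrt ((1 - η / 2) ^ 2 * (|F.eval (c' / r)| * |F.eval (c' * r)|)) :=
          Real.sqrt_le_sqrt h2
      _ = (1 - η / 2) * Real.sqrt (|F.eval (c' / r)| * |F.eval (c' * r)|) := by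
          rw [Real.sqrt_mul (by positivity), Real.sqrt_sq (by linarith)]
  have hsp : 0 < Real.sqrt (|F.eval (c' / r)| * |F.eval (c' * r)|) := Real.sqrt_pos.2 hpp
  have h7 : |F.eval c'| / Real.sqrt (|F.eval (c' / r)| * |F.eval (c' * r)|) ≤ 1 - η / 2 := by
    rw [div_le_iff₀ hsp]; exact hkey
  linarith

/-- ROW F2b (dips). PROOF. The triples with a root of `F` in `[a i, b i]` (then in `(a i, b i)`):
at most `npos F ≤ T`. For the others `one_dip`: at most `4 T / √(η/2)`. Together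
`≤ (1 + 4 √2) T / √η ≤ 7 T / √η`. -/
theorem dips {F G : ℝ[X]} {T : ℝ} (hF : Good F T) (hG : Pos G) {η : ℝ} (h0 : 0 < η) (h1 : η ≤ 1)
    {ι : Type} (I : Finset ι) (a c b h : ι → ℝ)
    (hpos : ∀ i ∈ I, 0 < a i ∧ a i < c i ∧ c i < b i ∧ 0 < h i) (hd : Dis I a b)
    (hh : ∀ i ∈ I, h i * G.eval (a i) ≤ -F.eval (a i) ∧ h i * G.eval (b i) ≤ -F.eval (b i) ∧
      -F.eval (c i) ≤ (1 - η) * h i * G.eval (c i)) :
    (I.card : ℝ) * Real.sqrt η ≤ 7 * T := by
  classical
  obtain ⟨hF0, hFn, hFs⟩ := hF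
  have hT : 0 ≤ T := le_trans (by positivity) hFn
  -- the triples with a root
  have hroot : ∀ i ∈ I.filter (fun i => ∃ x ∈ Icc (a i) (b i), F.eval x = 0),
      ∃ x, a i < x ∧ x < b i ∧ F.eval x = 0 := by
    intro i hi
    rw [Finset.mem_filter] at hi
    obtain ⟨hi, x, hx, hx0⟩ := hi
    obtain ⟨p1, p2, p3, p4⟩ := hpos i hi
    obtain ⟨q1, q2, -⟩ := hh i hi
    have ga : 0 < G.eval (a i) := hG.eval_pos p1
    have gb : 0 < G.eval (b i) := hG.eval_pos (p1.trans (p2.trans p3))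
    refine ⟨x, ?_, ?_, hx0⟩
    · rcases hx.1.lt_or_eq with h2 | h2
      · exact h2
      · rw [← h2] at hx0; nlinarith [mul_pos p4 ga]
    · rcases hx.2.lt_or_eq with h2 | h2
      · exact h2
      · rw [h2] at hx0; nlinarith [mul_pos p4 gb]
  choose! x hx using hroot
  have hJ : (I.filter (fun i => ∃ x ∈ Icc (a i) (b i), F.eval x = 0)).card ≤ npos F := by
    unfold npos
    refine Finset.card_le_card_of_injOn x ?_ ?_
    · intro i hi
      have hi' : i ∈ I.filter (fun i => ∃ x ∈ Icc (a i) (b i), F.eval x = 0) := hi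
      obtain ⟨h2, h3, h4⟩ := hx i hi'
      have hiI := (Finset.mem_filter.1 hi').1
      rw [Finset.mem_coe, Finset.mem_filter, Multiset.mem_toFinset, mem_roots hF0]
      exact ⟨h4, (hpos i hiI).1.trans h2⟩
    · intro i hi j hj hij
      have hi' : i ∈ I.filter (fun i => ∃ x ∈ Icc (a i) (b i), F.eval x = 0) := hi
      have hj' : j ∈ I.filter (fun i => ∃ x ∈ Icc (a i) (b i), F.eval x = 0) := hj
      obtain ⟨h2, h3, -⟩ := hx i hi'
      obtain ⟨h4, h5, -⟩ := hx j hj'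
      by_contra hne
      rcases hd i (Finset.mem_filter.1 hi').1 j (Finset.mem_filter.1 hj').1 hne with h6 | h6
      · rw [← hij] at h4; linarith
      · rw [← hij] at h5; linarith
  -- the others
  have hwin : ∀ i ∈ I.filter (fun i => ¬ ∃ x ∈ Icc (a i) (b i), F.eval x = 0),
      ∃ w : ℝ × ℝ, a i ≤ w.1 ∧ w.2 ≤ b i ∧ Win F w.1 w.2 ∧ η / 2 ≤ dep F w.1 w.2 := by
    intro i hi
    rw [Finset.mem_filter] at hi
    obtain ⟨hi, hno⟩ := hi
    push Not at hno
    obtain ⟨p1, p2, p3, p4⟩ := hpos i hi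
    obtain ⟨q1, q2, q3⟩ := hh i hi
    obtain ⟨a', b', r1, r2, r3, r4⟩ := one_dip hG h0 h1 p1 p2 p3 p4 hno q1 q2 q3
    exact ⟨(a', b'), r1, r2, r3, r4⟩
  choose! w hw using hwin
  have hsum := hFs ι (I.filter (fun i => ¬ ∃ x ∈ Icc (a i) (b i), F.eval x = 0))
    (fun i => (w i).1) (fun i => (w i).2) (fun i hi => (hw i hi).2.2.1) (by
      intro i hi j hj hne
      obtain ⟨r1, r2, -⟩ := hw i hi
      obtain ⟨s1, s2, -⟩ := hw j hj
      rcases hd i (Finset.mem_filter.1 hi).1 j (Finset.mem_filter.1 hj).1 hne with h6 | h6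
      · exact Or.inl (r2.trans (h6.trans s1))
      · exact Or.inr (s2.trans (h6.trans r1)))
  have hlow : ((I.filter (fun i => ¬ ∃ x ∈ Icc (a i) (b i), F.eval x = 0)).card : ℝ) *
      Real.sqrt (η / 2) ≤ 4 * T := by
    refine le_trans ?_ hsum
    rw [← nsmul_eq_mul, ← Finset.sum_const]
    refine Finset.sum_le_sum fun i hi => Real.sqrt_le_sqrt ?_
    exact (hw i hi).2.2.2.trans (le_max_right _ _)
  have hcard : (I.card : ℝ) = ((I.filter (fun i => ∃ x ∈ Icc (a i) (b i), F.eval x = 0)).card : ℝ) +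
      ((I.filter (fun i => ¬ ∃ x ∈ Icc (a i) (b i), F.eval x = 0)).card : ℝ) := by
    exact_mod_cast (Finset.card_filter_add_card_filter_not _).symm
  set A : ℝ := ((I.filter (fun i => ∃ x ∈ Icc (a i) (b i), F.eval x = 0)).card : ℝ) with hA
  set B : ℝ := ((I.filter (fun i => ¬ ∃ x ∈ Icc (a i) (b i), F.eval x = 0)).card : ℝ) with hB
  have hA0 : 0 ≤ A := by positivity
  have hB0 : 0 ≤ B := by positivity
  have hAT : A ≤ T := le_trans (Nat.cast_le.2 hJ) hFn
  have hs1 : Real.sqrt η ≤ 1 := by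
    rw [Real.sqrt_le_one]; exact h1
  have hs0 : 0 ≤ Real.sqrt η := Real.sqrt_nonneg _
  have hs2 : Real.sqrt η ≤ 3 / 2 * Real.sqrt (η / 2) := by
    rw [Real.sqrt_le_left (by positivity)]
    rw [mul_pow, Real.sq_sqrt (by positivity)]
    linarith
  rw [hcard]
  have h8 : A * Real.sqrt η ≤ T := by nlinarith
  have h9 : B * Real.sqrt η ≤ 6 * T := by
    have : B * Real.sqrt η ≤ B * (3 / 2 * Real.sqrt (η / 2)) := mul_le_mul_of_nonneg_left hs2 hB0
    linarith
  nlinarith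

/-- ROW F2c. The same for a sequence `y 0 < y 1 < ... < y (2n)`. -/
theorem dips_seq {F G : ℝ[X]} {T : ℝ} (hF : Good F T) (hG : Pos G) {η : ℝ} (h0 : 0 < η)
    (h1 : η ≤ 1) (n : ℕ) (y h : ℕ → ℝ) (hy0 : 0 < y 0) (hy : ∀ i < 2 * n, y i < y (i + 1))
    (hh : ∀ j < n, 0 < h j ∧ h j * G.eval (y (2 * j)) ≤ -F.eval (y (2 * j)) ∧
      h j * G.eval (y (2 * j + 2)) ≤ -F.eval (y (2 * j + 2)) ∧
      -F.eval (y (2 * j + 1)) ≤ (1 - η) * h j * G.eval (y (2 * j + 1))) :
    (n : ℝ) * Real.sqrt η ≤ 7 * T := by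
  have hmono : ∀ j k, k + j ≤ 2 * n → y k ≤ y (k + j) := by
    intro j
    induction j with
    | zero => intro k _; exact le_rfl
    | succ j ih =>
      intro k hk
      exact (ih k (by omega)).trans (hy (k + j) (by omega)).le
  have hpos : ∀ k ≤ 2 * n, 0 < y k := fun k hk => by
    have := hmono k 0 (by omega)
    rw [Nat.zero_add] at this
    exact hy0.trans_le this
  have h2 := dips hF hG h0 h1 (Finset.range n) (fun j => y (2 * j)) (fun j => y (2 * j + 1))
    (fun j => y (2 * j + 2)) h (fun j hj => by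
      rw [Finset.mem_range] at hj
      exact ⟨hpos _ (by omega), hy _ (by omega), hy _ (by omega), (hh j hj).1⟩)
    (by
      intro i hi j hj hne
      rw [Finset.mem_range] at hi hj
      rcases lt_or_gt_of_ne hne with h3 | h3
      · left
        have := hmono (2 * j - (2 * i + 2)) (2 * i + 2) (by omega)
        rwa [show 2 * i + 2 + (2 * j - (2 * i + 2)) = 2 * j by omega] at this
      · right
        have := hmono (2 * i - (2 * j + 2)) (2 * j + 2) (by omega)
        rwa [show 2 * j + 2 + (2 * i - (2 * j + 2)) = 2 * i by omega] at this)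
    (fun j hj => (hh j (Finset.mem_range.1 hj)).2)
  rwa [Finset.card_range] at h2

end Pool.Agent.MP_c11b14_lc.LM
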