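import Pool.Agent.Lib.MP_c11b14_lc.LM.F2

set_option autoImplicit false

namespace Pool.Agent.MP_c11b14_lc.LM

open Set Polynomial

/-- ROW G1 (alternations). PROOF. `dips_seq` with `y i = x (i + 1)`, `h = 1 + ε`, `η = ε`
(`1 - ε ≤ (1 - ε)(1 + ε)` fails, use: `-F ≤ (1 - ε) G ≤ (1 - ε) (1 + ε) G`), for the largest `n`
with `2 n + 1 ≤ N`: `N ≤ 2 n + 2`, `√ε N ≤ 14 T + 2 √ε ≤ 16 T`. -/
theorem alternations {F G : ℝ[X]} {T : ℝ} (hF : Good F T) (hT : 1 ≤ T) (hG : Pos G) {ε : ℝ}
    (h0 : 0 < ε) (h1 : ε ≤ 1) (N : ℕ) (x : ℕ → ℝ) (hx0 : 0 < x 0) (hx : ∀ i < N, x i < x (i + 1))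
    (h : ∀ i ≤ N, ε * G.eval (x i) ≤ (-1) ^ i * (F.eval (x i) + G.eval (x i))) :
    Real.sqrt ε * N ≤ 16 * T := by
  rcases Nat.eq_zero_or_pos N with hN | hN
  · subst hN
    simp only [Nat.cast_zero, mul_zero]
    linarith
  obtain ⟨n, hn1, hn2⟩ : ∃ n : ℕ, 2 * n + 1 ≤ N ∧ N ≤ 2 * n + 2 := ⟨(N - 1) / 2, by omega, by omega⟩
  have hpos : ∀ i ≤ N, 0 < x i := by
    intro i
    induction i with
    | zero => intro _; exact hx0
    | succ i ih =>
      intro hi
      exact (ih (by omega)).trans (hx i (by omega))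
  have hGp : ∀ i ≤ N, 0 < G.eval (x i) := fun i hi => hG.eval_pos (hpos i hi)
  have hodd : ∀ j : ℕ, 2 * j + 1 ≤ N →
      (1 + ε) * G.eval (x (2 * j + 1)) ≤ -F.eval (x (2 * j + 1)) := by
    intro j hj
    have h2 := h (2 * j + 1) hj
    rw [pow_succ, pow_mul] at h2
    norm_num at h2
    linarith
  have heven : ∀ j : ℕ, 2 * j ≤ N →
      -F.eval (x (2 * j)) ≤ (1 - ε) * (1 + ε) * G.eval (x (2 * j)) := by
    intro j hj
    have h2 := h (2 * j) hj
    rw [pow_mul] at h2
    norm_num at h2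
    have h3 : 0 ≤ (1 - ε) * ε * G.eval (x (2 * j)) :=
      mul_nonneg (mul_nonneg (by linarith) h0.le) (hGp _ hj).le
    nlinarith
  have hd := dips_seq hF hG (η := ε) h0 h1 n (fun i => x (i + 1)) (fun _ => 1 + ε)
    (by simpa using hpos 1 (by omega)) (fun i hi => hx (i + 1) (by omega)) (by
      intro j hj
      refine ⟨by linarith, ?_, ?_, ?_⟩
      · exact hodd j (by omega)
      · exact hodd (j + 1) (by omega)
      · exact heven (j + 1) (by omega))
  have hs0 : 0 ≤ Real.sqrt ε := Real.sqrt_nonneg _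
  have hs1 : Real.sqrt ε ≤ 1 := by
    rw [show (1 : ℝ) = Real.sqrt 1 by simp]
    exact Real.sqrt_le_sqrt h1
  have hNn : (N : ℝ) ≤ 2 * n + 2 := by exact_mod_cast hn2
  have h4 : Real.sqrt ε * N ≤ Real.sqrt ε * (2 * n + 2) := mul_le_mul_of_nonneg_left hNn hs0
  nlinarith

private theorem G2_support_comp (p : ℝ[X]) : (p.comp (-X)).support = p.support := by
  have h : ∀ n, (p.comp (-X)).coeff n = p.coeff n * (-1) ^ n := by
    intro n
    have h1 : (-X : ℝ[X]) = C (-1) * X := by simp
    rw [h1, comp_C_mul_X_coeff]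
  ext n
  rw [mem_support_iff, mem_support_iff, h n]
  have : ((-1 : ℝ) ^ n) ≠ 0 := pow_ne_zero _ (by norm_num)
  constructor
  · intro h1 h2
    exact h1 (by rw [h2, zero_mul])
  · intro h1
    exact mul_ne_zero h1 this

private theorem G2_pos_one : Pos (1 : ℝ[X]) := by
  refine ⟨one_ne_zero, fun n => ?_⟩
  rw [coeff_one]
  split_ifs <;> norm_num

/- The positive half line, from an even index. -/
private theorem G2_half {m : ℕ} {f : Fin m → ℝ[X]} (hm : 0 < m) (hf : ∀ i, f i ≠ 0) {ε : ℝ}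
    (h0 : 0 < ε) (h1 : ε ≤ 1) (N : ℕ) (x : ℕ → ℝ) (hx0 : 0 < x 0) (hx : ∀ i < N, x i < x (i + 1))
    (h : ∀ i ≤ N, ε ≤ (-1) ^ i * ((∏ i, f i).eval (x i) + 1)) :
    Real.sqrt ε * N ≤ 16 * ∑ i, ((f i).support.card : ℝ) := by
  have hT : (1 : ℝ) ≤ ∑ i, ((f i).support.card : ℝ) := by
    have hcard : ∀ i, (1 : ℝ) ≤ ((f i).support.card : ℝ) := by
      intro i
      have : 0 < (f i).support.card := Finset.card_pos.2 (nonempty_support_iff.2 (hf i))
      exact_mod_cast this
    have h2 : ∑ _i : Fin m, (1 : ℝ) ≤ ∑ i, ((f i).support.card : ℝ) :=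
      Finset.sum_le_sum fun i _ => hcard i
    have h3 : (1 : ℝ) ≤ m := by exact_mod_cast hm
    simp only [Finset.sum_const, Finset.card_univ, Fintype.card_fin, nsmul_eq_mul, mul_one] at h2
    linarith
  refine alternations (good_prod hf) hT G2_pos_one h0 h1 N x hx0 hx fun i hi => ?_
  rw [eval_one, mul_one]
  exact h i hi

/-- ROW G2 (alternations on the line). PROOF. As `alternations` in LF_G1.lean (helper22): positive
half line: the run of the indices with `x i > 0`, without its first point if that has the wrong sign;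
negative half line: the same for `(f i).comp (-X)` and the reversed sequence; `G = 1`. At most
`16 T/√ε + 2` points on each side and the point `0`: `√ε N ≤ 32 T + 4 √ε ≤ 36 T`. -/
theorem alternations_line {m : ℕ} {f : Fin m → ℝ[X]} (hm : 0 < m) (hf : ∀ i, f i ≠ 0) {ε : ℝ}
    (h0 : 0 < ε) (h1 : ε ≤ 1) (N : ℕ) (x : ℕ → ℝ) (hx : ∀ i < N, x i < x (i + 1))
    (h : ∀ i ≤ N, ε ≤ (-1) ^ i * ((∏ i, f i).eval (x i) + 1)) :
    Real.sqrt ε * N ≤ 36 * ∑ i, ((f i).support.card : ℝ) := by
  classical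
  set T : ℝ := ∑ i, ((f i).support.card : ℝ) with hTdef
  have hT : (1 : ℝ) ≤ T := by
    have hcard : ∀ i, (1 : ℝ) ≤ ((f i).support.card : ℝ) := by
      intro i
      have : 0 < (f i).support.card := Finset.card_pos.2 (nonempty_support_iff.2 (hf i))
      exact_mod_cast this
    have h2 : ∑ _i : Fin m, (1 : ℝ) ≤ ∑ i, ((f i).support.card : ℝ) :=
      Finset.sum_le_sum fun i _ => hcard i
    have h3 : (1 : ℝ) ≤ m := by exact_mod_cast hm
    simp only [Finset.sum_const, Finset.card_univ, Fintype.card_fin, nsmul_eq_mul, mul_one] at h2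
    linarith
  have hs0 : 0 ≤ Real.sqrt ε := Real.sqrt_nonneg ε
  have hs1 : Real.sqrt ε ≤ 1 := by
    have h2 := Real.sqrt_le_sqrt h1
    rwa [Real.sqrt_one] at h2
  -- monotonicity
  have hmono : ∀ i j, i < j → j ≤ N → x i < x j := by
    intro i j hij
    induction j, hij using Nat.le_induction with
    | base => intro hj; exact hx i (by omega)
    | succ j _ ih => intro hj; exact (ih (by omega)).trans (hx j (by omega))
  -- the first positive index
  have hex : ∃ c, c = N + 1 ∨ 0 < x c := ⟨N + 1, Or.inl rfl⟩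
  set c := Nat.find hex with hc
  have hcN : c ≤ N + 1 := Nat.find_min' hex (Or.inl rfl)
  have hcs := Nat.find_spec hex
  rw [← hc] at hcs
  have hbelow : ∀ i < c, x i ≤ 0 := by
    intro i hi
    have h2 := Nat.find_min hex hi
    push Not at h2
    exact h2.2
  -- the positive half line
  have hplus : Real.sqrt ε * (N : ℝ) ≤ 16 * T + Real.sqrt ε * c + Real.sqrt ε := by
    obtain ⟨i₁, hi₁, hev⟩ : ∃ i₁, (i₁ = c ∨ i₁ = c + 1) ∧ Even i₁ := by
      rcases Nat.even_or_odd c with h2 | h2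
      · exact ⟨c, Or.inl rfl, h2⟩
      · exact ⟨c + 1, Or.inr rfl, h2.add_one⟩
    have hi₁' : (i₁ : ℝ) ≤ c + 1 := by
      rcases hi₁ with h2 | h2 <;> rw [h2] <;> push_cast <;> linarith
    by_cases hle : i₁ ≤ N
    · have hcpos : 0 < x c := by
        rcases hcs with h2 | h2
        · omega
        · exact h2
      have hpos : 0 < x i₁ := by
        rcases hi₁ with h2 | h2
        · rw [h2]; exact hcpos
        · rw [h2]; exact hcpos.trans (hx c (by omega))
      have h2 := G2_half hm hf h0 h1 (N - i₁) (fun k => x (i₁ + k)) (by simpa using hpos)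
        (fun i hi => hx (i₁ + i) (by omega)) (fun i hi => by
          have h3 := h (i₁ + i) (by omega)
          rwa [pow_add, hev.neg_one_pow, one_mul] at h3)
      rw [Nat.cast_sub hle] at h2
      nlinarith
    · have h2 : (N : ℝ) ≤ i₁ := by exact_mod_cast (by omega : N ≤ i₁)
      nlinarith
  -- the negative half line
  have hminus : Real.sqrt ε * (c : ℝ) ≤ 16 * T + 3 * Real.sqrt ε := by
    by_cases hc2 : 2 ≤ c
    · obtain ⟨i₂, hi₂, hi₂', hev⟩ : ∃ i₂, i₂ + 2 ≤ c ∧ c ≤ i₂ + 3 ∧ Even i₂ := by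
        rcases Nat.even_or_odd c with h2 | h2
        · obtain ⟨r, hr⟩ := h2
          exact ⟨c - 2, by omega, by omega, ⟨r - 1, by omega⟩⟩
        · obtain ⟨r, hr⟩ := h2
          exact ⟨c - 3, by omega, by omega, ⟨r - 1, by omega⟩⟩
      have hneg : x i₂ < 0 := lt_of_lt_of_le (hmono i₂ (i₂ + 1) (by omega) (by omega))
        (hbelow (i₂ + 1) (by omega))
      have hev' : ∀ y : ℝ, (∏ i, (f i).comp (-X)).eval y = (∏ i, f i).eval (-y) := by
        intro y
        rw [eval_prod, eval_prod]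
        refine Finset.prod_congr rfl fun i _ => ?_
        rw [eval_comp, eval_neg, eval_X]
      have hf' : ∀ i, (f i).comp (-X) ≠ 0 := by
        intro i h0
        have h1 := G2_support_comp (f i)
        rw [h0, support_zero] at h1
        exact hf i (support_eq_empty.1 h1.symm)
      have hsum : ∑ i, (((f i).comp (-X)).support.card : ℝ) = T :=
        Finset.sum_congr rfl fun i _ => by rw [G2_support_comp]
      have h2 := G2_half hm hf' h0 h1 i₂ (fun k => -x (i₂ - k)) (by simpa using hneg)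
        (fun i hi => by
          have h3 := hx (i₂ - (i + 1)) (by omega)
          rw [show i₂ - (i + 1) + 1 = i₂ - i by omega] at h3
          show -x (i₂ - i) < -x (i₂ - (i + 1))
          linarith) (fun i hi => by
          rw [hev', neg_neg]
          have h3 := h (i₂ - i) (by omega)
          have h4 : ((-1 : ℝ)) ^ (i₂ - i) = (-1) ^ i := by
            have h5 : ((-1 : ℝ)) ^ (i₂ - i) * (-1) ^ i = 1 := by
              rw [← pow_add, show i₂ - i + i = i₂ by omega, hev.neg_one_pow]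
            have h6 : ((-1 : ℝ)) ^ i * (-1) ^ i = 1 := by
              rw [← pow_add, ← two_mul, (even_two_mul i).neg_one_pow]
            have h7 : ((-1 : ℝ)) ^ i ≠ 0 := pow_ne_zero _ (by norm_num)
            exact mul_right_cancel₀ h7 (h5.trans h6.symm)
          rwa [h4] at h3)
      rw [hsum] at h2
      have h3 : (c : ℝ) ≤ i₂ + 3 := by exact_mod_cast hi₂'
      nlinarith
    · have h2 : (c : ℝ) ≤ 1 := by exact_mod_cast (by omega : c ≤ 1)
      nlinarith
  nlinarith

end Pool.Agent.MP_c11b14_lc.LM
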