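import Pool.Agent.Lib.MP_c11b14_lc.LM.Defs

set_option autoImplicit false

namespace Pool.Agent.MP_c11b14_lc.LM

/-! The proof. `mE ε true v` is the maximum over the sublists `w` of `v` of the alternating sum
`vE ε true w = (2 - w₀ - ε) - (2 - w₁) + (2 - w₂ - ε) - ...`. It is computed from the right by
`mE`; a maximal `w` alternates with steps `≥ ε` (`opt`), so its number of terms is `≤ 2 A / ε + 4`,
and `mE ε - mE (2 ε) ≤ A + 2 ε`; the total variation is `≤ 2 * mE 0`. -/

/-- The alternating sum with a penalty `ε` for every term with sign `+`. -/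
def vE (ε : ℝ) : Bool → List ℝ → ℝ
  | _, [] => 0
  | true, x :: w => (2 - x) - ε + vE ε false w
  | false, x :: w => -(2 - x) + vE ε true w

/-- The maximum of `vE` over all sublists. -/
noncomputable def mE (ε : ℝ) : Bool → List ℝ → ℝ
  | _, [] => 0
  | true, x :: w => max (mE ε true w) ((2 - x) - ε + mE ε false w)
  | false, x :: w => max (mE ε false w) (-(2 - x) + mE ε true w)

/-- Alternating with steps `≥ ε`; `true`: the first term is a low one. -/
def Al (ε : ℝ) : Bool → List ℝ → Prop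
  | _, [] => True
  | _, [_] => True
  | true, x :: z :: w => x + ε ≤ z ∧ Al ε false (z :: w)
  | false, x :: z :: w => z + ε ≤ x ∧ Al ε true (z :: w)

/-- The number of terms with sign `+`. -/
def cp : Bool → List ℝ → ℕ
  | _, [] => 0
  | true, _ :: w => cp false w + 1
  | false, _ :: w => cp true w

theorem vE_le {ε : ℝ} {w v : List ℝ} (h : w.Sublist v) (b : Bool) : vE ε b w ≤ mE ε b v := by
  induction h generalizing b with
  | slnil => cases b <;> simp [vE, mE]
  | cons x h ih =>
    cases b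
    · simp only [mE]; exact le_trans (ih false) (le_max_left _ _)
    · simp only [mE]; exact le_trans (ih true) (le_max_left _ _)
  | cons_cons x h ih =>
    cases b
    · simp only [mE, vE]
      exact le_trans (by linarith [ih true]) (le_max_right _ _)
    · simp only [mE, vE]
      exact le_trans (by linarith [ih false]) (le_max_right _ _)

theorem opt (ε : ℝ) (v : List ℝ) :
    (∃ w : List ℝ, w.Sublist v ∧ vE ε true w = mE ε true v ∧ Al ε true w) ∧
      (∃ w : List ℝ, w.Sublist v ∧ vE ε false w = mE ε false v ∧ Al ε false w) := by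
  induction v with
  | nil => exact ⟨⟨[], by simp, by simp [vE, mE], by simp [Al]⟩,
      ⟨[], by simp, by simp [vE, mE], by simp [Al]⟩⟩
  | cons x v ih =>
    obtain ⟨⟨wE, hE, vEE, aE⟩, ⟨wD, hD, vDD, aD⟩⟩ := ih
    constructor
    · by_cases hc : (2 - x) - ε + mE ε false v ≤ mE ε true v
      · exact ⟨wE, hE.cons x, by simp only [mE]; rw [max_eq_left hc, vEE], aE⟩
      · push Not at hc
        refine ⟨x :: wD, hD.cons_cons x, ?_, ?_⟩
        · simp only [mE, vE]; rw [max_eq_right hc.le, vDD]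
        · cases wD with
          | nil => simp [Al]
          | cons z r =>
            refine ⟨?_, aD⟩
            have h1 : vE ε true r ≤ mE ε true v := vE_le ((List.sublist_cons_self z r).trans hD) true
            simp only [vE] at vDD
            linarith
    · by_cases hc : -(2 - x) + mE ε true v ≤ mE ε false v
      · exact ⟨wD, hD.cons x, by simp only [mE]; rw [max_eq_left hc, vDD], aD⟩
      · push Not at hc
        refine ⟨x :: wE, hE.cons_cons x, ?_, ?_⟩
        · simp only [mE, vE]; rw [max_eq_right hc.le, vEE]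
        · cases wE with
          | nil => simp [Al]
          | cons z r =>
            refine ⟨?_, aE⟩
            have h1 : vE ε false r ≤ mE ε false v :=
              vE_le ((List.sublist_cons_self z r).trans hE) false
            simp only [vE] at vEE
            linarith

theorem vE_cp (ε : ℝ) (b : Bool) (w : List ℝ) : vE ε b w + ε * (cp b w : ℝ) = vE 0 b w := by
  induction w generalizing b with
  | nil => cases b <;> simp [vE, cp]
  | cons x w ih =>
    cases b
    · simp only [vE, cp]; linarith [ih true]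
    · simp only [vE, cp]; push_cast; linarith [ih false]

theorem cp_le (w : List ℝ) : 2 * cp true w ≤ w.length + 1 ∧ 2 * cp false w ≤ w.length := by
  induction w with
  | nil => simp [cp]
  | cons x w ih => simp only [cp, List.length_cons]; omega

theorem vly_of_al {ε : ℝ} : ∀ (n : ℕ) (x : ℝ) (r : List ℝ), r.length ≤ n → Al ε false (x :: r) →
    ∃ t : List ℝ, t.Sublist r ∧ Vly ε (x :: t) ∧ r.length ≤ t.length + 1 := by
  intro n
  induction n using Nat.strong_induction_on with
  | _ n ih =>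
    intro x r hr ha
    match r, hr, ha with
    | [], _, _ => exact ⟨[], by simp, by simp [Vly], by simp⟩
    | [z], _, _ => exact ⟨[], by simp, by simp [Vly], by simp⟩
    | z :: y :: r', hr, ha =>
      simp only [Al] at ha
      simp only [List.length_cons] at hr
      obtain ⟨h1, h2, h3⟩ := ha
      obtain ⟨t, ht, hV, hl⟩ := ih (n - 2) (by omega) y r' (by omega) h3
      refine ⟨z :: y :: t, (ht.cons_cons y).cons_cons z, ?_, ?_⟩
      · simp only [Vly]; exact ⟨h1, h2, hV⟩
      · simp only [List.length_cons]; omega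

theorem cp_bound {A ε : ℝ} (hA : 0 ≤ A) (hε : 0 < ε) {v w : List ℝ}
    (h : ∀ w : List ℝ, w.Sublist v → Vly ε w → (((w.length : ℝ) - 1) / 2) * √ε ≤ A)
    (hw : w.Sublist v) (ha : Al ε true w) : (cp true w : ℝ) * √ε ≤ A + 2 * √ε := by
  have hs : 0 < √ε := Real.sqrt_pos.2 hε
  match w, hw, ha with
  | [], _, _ => simp only [cp]; push_cast; linarith
  | [x], _, _ => simp only [cp]; push_cast; linarith
  | x :: z :: r, hw, ha =>
    simp only [Al] at ha
    obtain ⟨t, ht, hV, hl⟩ := vly_of_al r.length z r le_rfl ha.2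
    have h1 := h (z :: t) (((ht.cons_cons z).cons x).trans hw) hV
    have h2 := (cp_le (x :: z :: r)).1
    simp only [List.length_cons] at h1 h2
    have h3 : (cp true (x :: z :: r) : ℝ) ≤ (t.length : ℝ) / 2 + 2 := by
      have : 2 * cp true (x :: z :: r) ≤ t.length + 4 := by omega
      have : (2 : ℝ) * (cp true (x :: z :: r) : ℝ) ≤ t.length + 4 := by exact_mod_cast this
      linarith
    push_cast at h1
    nlinarith

theorem mE_one (v : List ℝ) (hv : ∀ x ∈ v, 1 ≤ x ∧ x ≤ 2) :
    mE 1 true v ≤ 0 ∧ mE 1 false v ≤ 0 := by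
  induction v with
  | nil => simp [mE]
  | cons x v ih =>
    have h1 := hv x (by simp)
    have h2 := ih fun y hy => hv y (by simp [hy])
    simp only [mE]
    exact ⟨max_le h2.1 (by linarith [h2.2]), max_le h2.2 (by linarith [h2.1])⟩

/-- The difference for two penalties. -/
theorem mE_diff {ε ε' : ℝ} {v : List ℝ} :
    ∃ w : List ℝ, w.Sublist v ∧ Al ε true w ∧
      mE ε true v ≤ mE ε' true v + (ε' - ε) * (cp true w : ℝ) := by
  obtain ⟨⟨w, hw, hv, ha⟩, _⟩ := opt ε v
  refine ⟨w, hw, ha, ?_⟩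
  have h1 := vE_cp ε true w
  have h2 := vE_cp ε' true w
  have h3 := vE_le (ε := ε') hw true
  rw [← hv]
  linarith

theorem mE_dyadic {A : ℝ} (hA : 0 ≤ A) {v : List ℝ} (hv : ∀ x ∈ v, 1 ≤ x ∧ x ≤ 2)
    (h : ∀ ε : ℝ, 0 < ε → ∀ w : List ℝ, w.Sublist v → Vly ε w →
      (((w.length : ℝ) - 1) / 2) * √ε ≤ A) (J : ℕ) :
    mE ((1 / 4) ^ J) true v ≤ 3 * A * (1 - (1 / 2) ^ J) + 2 * (1 - (1 / 4) ^ J) := by
  induction J with
  | zero => simpa using (mE_one v hv).1
  | succ J ih =>
    obtain ⟨w, hw, ha, hd⟩ := mE_diff (ε := (1 / 4) ^ (J + 1)) (ε' := (1 / 4) ^ J) (v := v)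
    have hp : (0 : ℝ) < (1 / 4) ^ (J + 1) := by positivity
    have hc := cp_bound hA hp (h _ hp) hw ha
    have hq : (0 : ℝ) < (1 / 2) ^ (J + 1) := by positivity
    have hsq : √(((1 : ℝ) / 4) ^ (J + 1)) = (1 / 2) ^ (J + 1) := by
      rw [show ((1 : ℝ) / 4) ^ (J + 1) = ((1 / 2) ^ (J + 1)) ^ 2 by rw [← pow_mul, mul_comm, pow_mul]; norm_num]
      exact Real.sqrt_sq hq.le
    rw [hsq] at hc
    have e : ((1 : ℝ) / 4) ^ J = 4 * (1 / 4) ^ (J + 1) := by rw [pow_succ]; ring
    have e1 : ((1 : ℝ) / 2) ^ J = 2 * (1 / 2) ^ (J + 1) := by rw [pow_succ]; ring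
    have e3 : ((1 : ℝ) / 4) ^ (J + 1) = (1 / 2) ^ (J + 1) * (1 / 2) ^ (J + 1) := by
      rw [← mul_pow]; norm_num
    have e2 : ((1 : ℝ) / 4) ^ J - (1 / 4) ^ (J + 1) = 3 * (1 / 4) ^ (J + 1) := by rw [e]; ring
    rw [e2] at hd
    have ih' : mE ((1 / 4) ^ J) true v ≤
        3 * A * (1 - 2 * (1 / 2) ^ (J + 1)) + 2 * (1 - 4 * (1 / 4) ^ (J + 1)) := by
      rw [← e, ← e1]; exact ih
    have h5 : 3 * ((1 : ℝ) / 4) ^ (J + 1) * (cp true w : ℝ) ≤
        3 * (A * (1 / 2) ^ (J + 1) + 2 * (1 / 4) ^ (J + 1)) := by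
      rw [e3]; nlinarith
    nlinarith

theorem tv_mE (v : List ℝ) (x : ℝ) (hv : ∀ y ∈ x :: v, 1 ≤ y ∧ y ≤ 2) :
    mE 0 false (x :: v) = mE 0 true (x :: v) - (2 - x) ∧
      tv (x :: v) + (2 - x) ≤ 2 * mE 0 true (x :: v) := by
  induction v generalizing x with
  | nil =>
    have h1 := hv x (by simp)
    simp only [mE, tv]
    rw [max_eq_left (by linarith), max_eq_right (by linarith)]
    constructor <;> linarith
  | cons y v ih =>
    obtain ⟨i1, i2⟩ := ih y fun z hz => hv z (by simp only [List.mem_cons] at hz ⊢; tauto)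
    have e1 : mE 0 true (x :: y :: v) =
        max (mE 0 true (y :: v)) ((2 - x) - 0 + mE 0 false (y :: v)) := rfl
    have e2 : mE 0 false (x :: y :: v) =
        max (mE 0 false (y :: v)) (-(2 - x) + mE 0 true (y :: v)) := rfl
    have e3 : tv (x :: y :: v) = |y - x| + tv (y :: v) := rfl
    rw [e1, e2, e3, i1]
    rcases le_total x y with hxy | hxy
    · rw [abs_of_nonneg (by linarith), max_eq_left (by linarith), max_eq_right (by linarith)]
      constructor <;> linarith
    · rw [abs_of_nonpos (by linarith), max_eq_right (by linarith), max_eq_left (by linarith)]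
      constructor <;> linarith

theorem tv_le_mE {v : List ℝ} (hv : ∀ x ∈ v, 1 ≤ x ∧ x ≤ 2) : tv v ≤ 2 * mE 0 true v := by
  cases v with
  | nil => simp [tv, mE]
  | cons x v =>
    have h1 := (tv_mE v x hv).2
    have h2 := hv x (by simp)
    linarith

/-- ROW L10. If for every `ε` the subsequences with `n` valleys of depth `ε` satisfy `n √ε ≤ A`, then
the total variation is at most `9 A`. -/
theorem tv_le {A : ℝ} (hA : 1 ≤ A) (v : List ℝ) (hv : ∀ x ∈ v, 1 ≤ x ∧ x ≤ 2)
    (h : ∀ ε : ℝ, 0 < ε → ∀ w : List ℝ, w.Sublist v → Vly ε w →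
      (((w.length : ℝ) - 1) / 2) * √ε ≤ A) :
    tv v ≤ 10 * A := by
  have hA0 : (0 : ℝ) < A := by linarith
  have htv := tv_le_mE hv
  suffices hm : mE 0 true v ≤ 3 * A + 2 by linarith
  by_contra hcon
  push Not at hcon
  obtain ⟨J, hJ⟩ := exists_pow_lt_of_lt_one
    (show (0 : ℝ) < (mE 0 true v - (3 * A + 2)) / ((v.length : ℝ) + 1) by
      apply div_pos (by linarith); positivity) (show (1 / 4 : ℝ) < 1 by norm_num)
  have hp : (0 : ℝ) < (1 / 4) ^ J := by positivity
  have hp2 : (0 : ℝ) < (1 / 2) ^ J := by positivity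
  obtain ⟨w, hw, -, hd⟩ := mE_diff (ε := 0) (ε' := (1 / 4) ^ J) (v := v)
  have hdy := mE_dyadic hA0.le hv h J
  have hcp : (cp true w : ℝ) ≤ v.length + 1 := by
    have h1 := (cp_le w).1
    have h2 := hw.length_le
    have : cp true w ≤ v.length + 1 := by omega
    exact_mod_cast this
  have h6 : (1 / 4 : ℝ) ^ J * ((v.length : ℝ) + 1) < mE 0 true v - (3 * A + 2) := by
    rwa [lt_div_iff₀ (by positivity)] at hJ
  have h7 : ((1 / 4 : ℝ) ^ J - 0) * (cp true w : ℝ) ≤ (1 / 4) ^ J * ((v.length : ℝ) + 1) := by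
    rw [sub_zero]; gcongr
  nlinarith

end Pool.Agent.MP_c11b14_lc.LM
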