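import Pool.Agent.Lib.MP_c11b14_lc.LM.F2
import Pool.Agent.Lib.MP_c11b14_lc.LM.H1

set_option autoImplicit false

namespace Pool.Agent.MP_c11b14_lc.LM

open Set Polynomial MeasureTheory
open scoped ENNReal

/-- Rolle: `F / G` is injective on `[u, v]` if it has no critical point inside. -/
theorem i1_inj {F G : ℝ[X]} (hG : Pos G) {u v : ℝ} (hu : 0 < u)
    (h : ∀ z ∈ Ioo u v, (jac F G).eval z ≠ 0) : InjOn (rat F G) (Icc u v) := by
  have hder : ∀ z, 0 < z → HasDerivAt (rat F G) ((jac F G).eval z / G.eval z ^ 2) z := by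
    intro z hz
    have h1 := (F.hasDerivAt z).div (G.hasDerivAt z) (hG.eval_pos hz).ne'
    have h2 : (jac F G).eval z = (derivative F).eval z * G.eval z -
        F.eval z * (derivative G).eval z := by simp [jac]
    rw [h2]
    exact h1
  have key : ∀ x ∈ Icc u v, ∀ y ∈ Icc u v, x < y → rat F G x = rat F G y → False := by
    intro x hx y hy hxy he
    have hc : ContinuousOn (rat F G) (Icc x y) := fun z hz =>
      (hder z (hu.trans_le (hx.1.trans hz.1))).continuousAt.continuousWithinAt
    obtain ⟨z, hz, hz0⟩ := exists_deriv_eq_zero hxy hc he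
    have hz' : 0 < z := hu.trans_le (hx.1.trans hz.1.le)
    rw [(hder z hz').deriv] at hz0
    have h3 : G.eval z ^ 2 ≠ 0 := pow_ne_zero _ (hG.eval_pos hz').ne'
    exact h z ⟨lt_of_le_of_lt hx.1 hz.1, lt_of_lt_of_le hz.2 hy.2⟩
      ((div_eq_zero_iff.1 hz0).resolve_right h3)
  intro x hx y hy he
  by_contra hne
  rcases lt_or_gt_of_ne hne with hlt | hlt
  · exact key x hx y hy hlt he
  · exact key y hy x hx hlt he.symm

theorem i1_cont {F G : ℝ[X]} (hG : Pos G) {u v : ℝ} (hu : 0 < u) :
    ContinuousOn (rat F G) (Icc u v) := fun _ hz =>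
  ((F.continuous.continuousAt).div G.continuous.continuousAt
    (hG.eval_pos (hu.trans_le hz.1)).ne').continuousWithinAt

/-- At most one root between two consecutive critical points, and then `b` is between the values. -/
theorem i1_piece {F G : ℝ[X]} (hG : Pos G) {b p p' : ℝ} (hp0 : 0 < p) (hpp : p < p')
    (h : ∀ z ∈ Ioo p p', (jac F G).eval z ≠ 0) (R : Finset ℝ)
    (hR : ∀ x ∈ R, p ≤ x ∧ x < p' ∧ rat F G x = b) :
    R.card ≤ crossings (rat F G) b [p, p'] := by
  have hinj := i1_inj hG hp0 h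
  rcases R.eq_empty_or_nonempty with h0 | ⟨x, hx⟩
  · simp [h0]
  · have hb : b ∈ uIcc (rat F G p) (rat F G p') := by
      obtain ⟨h1, h2, h3⟩ := hR x hx
      rw [← h3]
      rcases ContinuousOn.strictMonoOn_of_injOn_Icc' hpp.le (i1_cont hG hp0) hinj with
        hm | hm
      · refine mem_uIcc.2 (Or.inl ⟨?_, ?_⟩)
        · exact hm.monotoneOn ⟨le_rfl, hpp.le⟩ ⟨h1, h2.le⟩ h1
        · exact hm.monotoneOn ⟨h1, h2.le⟩ ⟨hpp.le, le_rfl⟩ h2.le
      · refine mem_uIcc.2 (Or.inr ⟨?_, ?_⟩)
        · exact hm.antitoneOn ⟨h1, h2.le⟩ ⟨hpp.le, le_rfl⟩ h2.le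
        · exact hm.antitoneOn ⟨le_rfl, hpp.le⟩ ⟨h1, h2.le⟩ h1
    simp only [crossings, if_pos hb]
    refine Finset.card_le_one.2 fun y hy z hz => ?_
    obtain ⟨h1, h2, h3⟩ := hR y hy
    obtain ⟨k1, k2, k3⟩ := hR z hz
    exact hinj ⟨h1, h2.le⟩ ⟨k1, k2.le⟩ (h3.trans k3.symm)

theorem i1_tail {F G : ℝ[X]} (hG : Pos G) (b : ℝ) : ∀ (l : List ℝ) (p : ℝ), 0 < p →
    (p :: l).Pairwise (· < ·) → (∀ z, p < z → (jac F G).eval z = 0 → z ∈ l) → ∀ R : Finset ℝ,
      (∀ x ∈ R, p ≤ x ∧ rat F G x = b) → R.card ≤ 1 + crossings (rat F G) b (p :: l) := by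
  intro l
  induction l with
  | nil =>
    intro p hp0 _ hz R hR
    simp only [crossings]
    refine Finset.card_le_one.2 fun y hy z hz' => ?_
    obtain ⟨h1, h3⟩ := hR y hy
    obtain ⟨k1, k3⟩ := hR z hz'
    refine i1_inj (F := F) hG (u := p) (v := max y z) hp0 (fun t ht h0 => ?_)
      ⟨h1, le_max_left _ _⟩ ⟨k1, le_max_right _ _⟩ (h3.trans k3.symm)
    simpa using hz t ht.1 h0
  | cons p' l ih =>
    intro p hp0 hp hz R hR
    rw [List.pairwise_cons] at hp
    have hpp : p < p' := hp.1 p' (by simp)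
    have h1 : (R.filter fun x => x < p').card ≤ crossings (rat F G) b [p, p'] := by
      refine i1_piece hG hp0 hpp (fun z hz' h0 => ?_) _ fun x hx => ?_
      · have hm := hz z hz'.1 h0
        rcases List.mem_cons.1 hm with he | he
        · exact absurd he hz'.2.ne
        · exact absurd ((List.pairwise_cons.1 hp.2).1 z he) (not_lt.2 hz'.2.le)
      · rw [Finset.mem_filter] at hx
        exact ⟨(hR x hx.1).1, hx.2, (hR x hx.1).2⟩
    have h2 : (R.filter fun x => ¬ x < p').card ≤ 1 + crossings (rat F G) b (p' :: l) := by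
      refine ih p' (hp0.trans hpp) hp.2 (fun z hz' h0 => ?_) _ fun x hx => ?_
      · have hm := hz z (hpp.trans hz') h0
        rcases List.mem_cons.1 hm with he | he
        · exact absurd he hz'.ne'
        · exact he
      · rw [Finset.mem_filter] at hx
        exact ⟨not_lt.1 hx.2, (hR x hx.1).2⟩
    have h3 := Finset.card_filter_add_card_filter_not (s := R) (fun x => x < p')
    have h4 : crossings (rat F G) b (p :: p' :: l) =
        crossings (rat F G) b [p, p'] + crossings (rat F G) b (p' :: l) := by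
      simp only [crossings, add_zero]
    omega

/-- ROW I1. `F / G` is strictly monotone on `(0, ∞)` between consecutive critical points
(`(F/G)' = jac / G²`, no root inside), so every piece contains at most one root of `F - b G`. -/
theorem npos_le_crossings {F G : ℝ[X]} (hG : Pos G) (hJ : jac F G ≠ 0) (b : ℝ) :
    npos (F - C b * G) ≤ 2 + crossings (rat F G) b (crit F G) := by
  have hroot : ∀ x ∈ (F - C b * G).roots.toFinset.filter (fun x => 0 < x),
      0 < x ∧ rat F G x = b := by
    intro x hx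
    rw [Finset.mem_filter, Multiset.mem_toFinset] at hx
    have h1 := (Polynomial.mem_roots'.1 hx.1).2
    simp only [IsRoot, eval_sub, eval_mul, eval_C] at h1
    refine ⟨hx.2, ?_⟩
    rw [rat, div_eq_iff (hG.eval_pos hx.2).ne']
    linarith
  have hcrit : ∀ z, 0 < z → (jac F G).eval z = 0 → z ∈ crit F G := by
    intro z hz h0
    unfold crit
    rw [Finset.mem_sort, Finset.mem_filter, Multiset.mem_toFinset, Polynomial.mem_roots hJ]
    exact ⟨h0, hz⟩
  have hsort : (crit F G).Pairwise (· < ·) := (Finset.sortedLT_sort _).pairwise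
  unfold npos
  set R := (F - C b * G).roots.toFinset.filter (fun x => 0 < x) with hR
  rcases hc : crit F G with _ | ⟨p, l⟩
  · rw [hc] at hcrit
    have : R.card ≤ 1 := by
      refine Finset.card_le_one.2 fun y hy z hz' => ?_
      obtain ⟨h1, h3⟩ := hroot y hy
      obtain ⟨k1, k3⟩ := hroot z hz'
      refine i1_inj (F := F) hG (u := min y z) (v := max y z) (lt_min h1 k1)
        (fun t ht h0 => ?_) ⟨min_le_left _ _, le_max_left _ _⟩
        ⟨min_le_right _ _, le_max_right _ _⟩ (h3.trans k3.symm)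
      simpa using hcrit t ((lt_min h1 k1).trans ht.1) h0
    omega
  · rw [hc] at hcrit hsort
    have h1 : (R.filter fun x => x < p).card ≤ 1 := by
      refine Finset.card_le_one.2 fun y hy z hz' => ?_
      rw [Finset.mem_filter] at hy hz'
      obtain ⟨h1, h3⟩ := hroot y hy.1
      obtain ⟨k1, k3⟩ := hroot z hz'.1
      refine i1_inj (F := F) hG (u := min y z) (v := p) (lt_min h1 k1) (fun t ht h0 => ?_)
        ⟨min_le_left _ _, hy.2.le⟩ ⟨min_le_right _ _, hz'.2.le⟩ (h3.trans k3.symm)
      rcases List.mem_cons.1 (hcrit t ((lt_min h1 k1).trans ht.1) h0) with he | he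
      · exact absurd he ht.2.ne
      · exact absurd ((List.pairwise_cons.1 hsort).1 t he) (not_lt.2 ht.2.le)
    have hp0 : 0 < p := by
      have : p ∈ crit F G := by rw [hc]; simp
      unfold crit at this
      rw [Finset.mem_sort, Finset.mem_filter] at this
      exact this.2
    have h2 : (R.filter fun x => ¬ x < p).card ≤ 1 + crossings (rat F G) b (p :: l) := by
      refine i1_tail hG b l p hp0 hsort (fun z hz h0 => ?_) _ fun x hx => ?_
      · rcases List.mem_cons.1 (hcrit z (hp0.trans hz) h0) with he | he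
        · exact absurd he hz.ne'
        · exact he
      · rw [Finset.mem_filter] at hx
        exact ⟨not_lt.1 hx.2, (hroot x hx.1).2⟩
    have h3 := Finset.card_filter_add_card_filter_not (s := R) (fun x => x < p)
    omega

end Pool.Agent.MP_c11b14_lc.LM
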