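import Pool.Agent.Lib.MP_c11b14_lc.LM.Defs

set_option autoImplicit false

namespace Pool.Agent.MP_c11b14_lc.LM

open Set Polynomial MeasureTheory
open scoped ENNReal

private theorem I2_tv_nn (l : List ℝ) : 0 ≤ tv l := by
  induction l with
  | nil => simp [tv]
  | cons x l ih =>
    cases l with
    | nil => simp [tv]
    | cons y l =>
      rw [tv]
      exact add_nonneg (abs_nonneg _) ih

private theorem I2_clp_le (R : ℝ → ℝ) (a p c : ℝ) (h1 : 1 ≤ c) (h : -R p / a ≤ c) : clp R a p ≤ c :=
  max_le h1 ((min_le_right _ _).trans h)

private theorem I2_le_clp (R : ℝ → ℝ) (a p c : ℝ) (h2 : c ≤ 2) (h : c ≤ -R p / a) : c ≤ clp R a p :=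
  le_max_of_le_right (le_min h2 h)

/-- ROW I2. -/
theorem lintegral_crossings (R : ℝ → ℝ) {a : ℝ} (ha : a ≠ 0) (l : List ℝ) :
    Measurable (fun c : ℝ => (crossings R (-(a * c)) l : ℝ≥0∞)) ∧
      ∫⁻ c in Icc (1 : ℝ) 2, (crossings R (-(a * c)) l : ℝ≥0∞) ≤
        ENNReal.ofReal (tv (l.map (clp R a))) := by
  classical
  induction l with
  | nil => simp [crossings, tv]
  | cons p l ih =>
    cases l with
    | nil => simp [crossings, tv]
    | cons p' l =>
      obtain ⟨ih1, ih2⟩ := ih
      set S : Set ℝ := {c : ℝ | -(a * c) ∈ uIcc (R p) (R p')} with hS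
      have hSm : MeasurableSet S := by
        have hc : Continuous fun c : ℝ => -(a * c) := by fun_prop
        have : IsClosed S := isClosed_Icc.preimage hc
        exact this.measurableSet
      have hcr : (fun c : ℝ => (crossings R (-(a * c)) (p :: p' :: l) : ℝ≥0∞)) =
          fun c => S.indicator 1 c + (crossings R (-(a * c)) (p' :: l) : ℝ≥0∞) := by
        funext c
        rw [crossings, Nat.cast_add]
        congr 1
        by_cases h : -(a * c) ∈ uIcc (R p) (R p')
        · rw [if_pos h, Set.indicator_of_mem (show c ∈ S from h)]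
          simp
        · rw [if_neg h, Set.indicator_of_notMem (show c ∉ S from h)]
          simp
      have hind : Measurable (S.indicator (1 : ℝ → ℝ≥0∞)) := measurable_one.indicator hSm
      rw [hcr]
      refine ⟨hind.add ih1, ?_⟩
      rw [lintegral_add_left hind, lintegral_indicator_one hSm, Measure.restrict_apply hSm]
      have hsub : S ∩ Icc (1 : ℝ) 2 ⊆ uIcc (clp R a p) (clp R a p') := by
        rintro c ⟨hc, h1, h2⟩
        have hc' : c ∈ uIcc (-R p / a) (-R p' / a) := by
          have hc2 : -(a * c) ∈ uIcc (R p) (R p') := hc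
          rw [mem_uIcc] at hc2 ⊢
          rcases lt_or_gt_of_ne ha with hneg | hpos
          · rcases hc2 with ⟨k1, k2⟩ | ⟨k1, k2⟩
            · left
              constructor
              · rw [div_le_iff_of_neg hneg]; linarith
              · rw [le_div_iff_of_neg hneg]; linarith
            · right
              constructor
              · rw [div_le_iff_of_neg hneg]; linarith
              · rw [le_div_iff_of_neg hneg]; linarith
          · rcases hc2 with ⟨k1, k2⟩ | ⟨k1, k2⟩
            · right
              constructor
              · rw [div_le_iff₀ hpos]; linarith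
              · rw [le_div_iff₀ hpos]; linarith
            · left
              constructor
              · rw [div_le_iff₀ hpos]; linarith
              · rw [le_div_iff₀ hpos]; linarith
        rw [mem_uIcc] at hc' ⊢
        rcases hc' with ⟨k1, k2⟩ | ⟨k1, k2⟩
        · exact Or.inl ⟨I2_clp_le R a p c h1 k1, I2_le_clp R a p' c h2 k2⟩
        · exact Or.inr ⟨I2_clp_le R a p' c h1 k1, I2_le_clp R a p c h2 k2⟩
      have hvol : volume (S ∩ Icc (1 : ℝ) 2) ≤ ENNReal.ofReal |clp R a p' - clp R a p| := by
        rw [← Real.volume_interval]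
        exact measure_mono hsub
      have htv : tv ((p :: p' :: l).map (clp R a)) =
          |clp R a p' - clp R a p| + tv ((p' :: l).map (clp R a)) := by
        simp only [List.map_cons, tv]
      rw [htv, ENNReal.ofReal_add (abs_nonneg _) (I2_tv_nn _)]
      exact add_le_add hvol ih2

end Pool.Agent.MP_c11b14_lc.LM
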