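import Pool.Agent.Lib.MP_c11b14_lc.LM.F2
import Pool.Agent.Lib.MP_c11b14_lc.LM.H1

set_option autoImplicit false

namespace Pool.Agent.MP_c11b14_lc.LM

open Set Polynomial

/-- Valleys of a list in terms of indices. -/
private theorem i3_vly_get {ε : ℝ} : ∀ (w : List ℝ), Vly ε w → ∃ n, w.length = 2 * n + 1 ∧
    ∀ j < n, w.getD (2 * j + 1) 0 + ε ≤ w.getD (2 * j) 0 ∧
      w.getD (2 * j + 1) 0 + ε ≤ w.getD (2 * j + 2) 0
  | [], h => by simp [Vly] at h
  | [x], _ => ⟨0, by simp, by simp⟩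
  | [x, y], h => by simp [Vly] at h
  | h :: l :: h' :: t, hv => by
    simp only [Vly] at hv
    obtain ⟨n, hn, hj⟩ := i3_vly_get (h' :: t) hv.2.2
    refine ⟨n + 1, by simp only [List.length_cons] at hn ⊢; omega, ?_⟩
    intro j hj'
    rcases Nat.eq_zero_or_pos j with rfl | hjp
    · simpa using ⟨hv.1, hv.2.1⟩
    · obtain ⟨k, rfl⟩ : ∃ k, j = k + 1 := ⟨j - 1, by omega⟩
      have := hj k (by omega)
      have e1 : 2 * (k + 1) + 1 = (2 * k + 1) + 2 := by ring
      have e2 : 2 * (k + 1) = 2 * k + 2 := by ring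
      have e3 : 2 * (k + 1) + 2 = (2 * k + 2) + 2 := by ring
      rw [e1, e3, e2]
      simpa using this

/-- A value above 1 of `clp` is at most `-R / a`. -/
private theorem i3_clp_le {R : ℝ → ℝ} {a p : ℝ} (h : 1 < clp R a p) : clp R a p ≤ -R p / a := by
  unfold clp at h ⊢
  rcases lt_max_iff.1 h with h | h
  · exact absurd h (lt_irrefl _)
  · rw [max_eq_right h.le]; exact min_le_right _ _

/-- A value below 2 of `clp` is at least `-R / a`. -/
private theorem i3_le_clp {R : ℝ → ℝ} {a p : ℝ} (h : clp R a p < 2) : -R p / a ≤ clp R a p := by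
  unfold clp at h ⊢
  have h2 := (max_lt_iff.1 h).2
  rcases min_lt_iff.1 h2 with h3 | h3
  · exact absurd h3 (lt_irrefl _)
  · rw [min_eq_right h3.le]; exact le_max_right _ _

/-- ROW I3. A sequence with `n` valleys of depth `ε` among the clamped values: `ε ≤ 1`; if
`clp` falls from `≥ l + ε` to `l` and rises to `≥ l + ε` then `l < 2`, `-R/a ≥ l + ε` at the ends,
`-R/a ≤ l` in the middle. With `h = a (l + ε)` and `l + ε ≤ 2`: relative depth `≥ ε/2`;
`dips_seq` with `η = ε/2`: `n √(ε/2) ≤ 7 T`, so `n √ε ≤ 10 T`. -/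
theorem vly_le {F G : ℝ[X]} {T : ℝ} (hF : Good F T) (hG : Pos G) {a : ℝ} (ha : 0 < a) (l : List ℝ)
    (hl : l.Pairwise (· < ·)) (hpos : ∀ x ∈ l, 0 < x) {ε : ℝ} (hε : 0 < ε) (w : List ℝ)
    (hw : w.Sublist (l.map (clp (rat F G) a))) (hv : Vly ε w) :
    (((w.length : ℝ) - 1) / 2) * Real.sqrt ε ≤ 10 * T := by
  have hT : 0 ≤ T := (Nat.cast_nonneg _).trans hF.2.1
  obtain ⟨l', hl', rfl⟩ := List.sublist_map_iff.1 hw
  obtain ⟨n, hn, hj⟩ := i3_vly_get _ hv
  have hlen : l'.length = 2 * n + 1 := by simpa using hn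
  have hL : (((List.map (clp (rat F G) a) l').length : ℝ) - 1) / 2 = n := by
    rw [hn]; push_cast; ring
  rw [hL]
  rcases Nat.eq_zero_or_pos n with rfl | hnp
  · simp only [Nat.cast_zero, zero_mul]
    positivity
  set c := clp (rat F G) a with hc
  have hget : ∀ i < 2 * n + 1, (List.map c l').getD i 0 = c (l'.getD i 0) := by
    intro i hi
    simp [List.getD_eq_getElem?_getD, hlen, hi]
  have hpw : l'.Pairwise (· < ·) := hl.sublist hl'
  have hy : ∀ i < 2 * n, l'.getD i 0 < l'.getD (i + 1) 0 := by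
    intro i hi
    have h1 : i < l'.length := by omega
    have h2 : i + 1 < l'.length := by omega
    rw [List.getD_eq_getElem _ _ h1, List.getD_eq_getElem _ _ h2]
    exact List.pairwise_iff_getElem.1 hpw i (i + 1) h1 h2 (by omega)
  have hyp : ∀ i < 2 * n + 1, 0 < l'.getD i 0 := by
    intro i hi
    have h1 : i < l'.length := by omega
    rw [List.getD_eq_getElem _ _ h1]
    exact hpos _ (hl'.subset (List.getElem_mem h1))
  have hjj : ∀ j < n, c (l'.getD (2 * j + 1) 0) + ε ≤ c (l'.getD (2 * j) 0) ∧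
      c (l'.getD (2 * j + 1) 0) + ε ≤ c (l'.getD (2 * j + 2) 0) := by
    intro j hj'
    have := hj j hj'
    rwa [hget _ (by omega), hget _ (by omega), hget _ (by omega)] at this
  have hge1 : ∀ x, 1 ≤ c x := fun x => le_max_left _ _
  have hle2 : ∀ x, c x ≤ 2 := fun x => max_le (by norm_num) (min_le_left _ _)
  have hε1 : ε ≤ 1 := by
    have := (hjj 0 hnp).1
    linarith [hge1 (l'.getD (2 * 0 + 1) 0), hle2 (l'.getD (2 * 0) 0)]
  -- high and low values
  have hhigh : ∀ x h, 0 < x → 1 < h → h ≤ c x → a * h * G.eval x ≤ -F.eval x := by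
    intro x h hx h1 h2
    have h3 := i3_clp_le (R := rat F G) (a := a) (p := x) (by rw [← hc]; linarith)
    rw [← hc] at h3
    have h4 : h ≤ -rat F G x / a := h2.trans h3
    rw [le_div_iff₀ ha] at h4
    unfold rat at h4
    have hGx := hG.eval_pos hx
    rw [← neg_div, le_div_iff₀ hGx] at h4
    linarith
  have hlow : ∀ x, 0 < x → c x < 2 → -F.eval x ≤ a * c x * G.eval x := by
    intro x hx h1
    have h3 := i3_le_clp (R := rat F G) (a := a) (p := x) h1
    rw [← hc] at h3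
    rw [div_le_iff₀ ha] at h3
    unfold rat at h3
    have hGx := hG.eval_pos hx
    rw [← neg_div, div_le_iff₀ hGx] at h3
    linarith
  have key := dips_seq hF hG (η := ε / 2) (by linarith) (by linarith) n
    (fun i => l'.getD i 0) (fun j => a * (c (l'.getD (2 * j + 1) 0) + ε)) (hyp 0 (by omega)) hy
    (fun j hj' => by
      obtain ⟨h1, h2⟩ := hjj j hj'
      have g1 := hge1 (l'.getD (2 * j + 1) 0)
      have g2 := hle2 (l'.getD (2 * j) 0)
      have hG1 := hG.eval_pos (hyp (2 * j + 1) (by omega))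
      refine ⟨by positivity, hhigh _ _ (hyp (2 * j) (by omega)) (by linarith) h1,
        hhigh _ _ (hyp (2 * j + 2) (by omega)) (by linarith) h2, ?_⟩
      have h3 := hlow _ (hyp (2 * j + 1) (by omega)) (by linarith)
      refine h3.trans (mul_le_mul_of_nonneg_right ?_ hG1.le)
      have h4 : c (l'.getD (2 * j + 1) 0) ≤
          (1 - ε / 2) * (c (l'.getD (2 * j + 1) 0) + ε) := by nlinarith
      calc a * c (l'.getD (2 * j + 1) 0)
          ≤ a * ((1 - ε / 2) * (c (l'.getD (2 * j + 1) 0) + ε)) :=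
            mul_le_mul_of_nonneg_left h4 ha.le
        _ = (1 - ε / 2) * (a * (c (l'.getD (2 * j + 1) 0) + ε)) := by ring)
  have e1 : Real.sqrt ε = Real.sqrt 2 * Real.sqrt (ε / 2) := by
    rw [← Real.sqrt_mul (by norm_num)]
    congr 1
    ring
  have e2 : Real.sqrt 2 * 7 ≤ 10 := by
    have : Real.sqrt 2 ≤ 10 / 7 := by
      rw [Real.sqrt_le_left (by norm_num)]
      norm_num
    linarith
  calc (n : ℝ) * Real.sqrt ε = Real.sqrt 2 * (n * Real.sqrt (ε / 2)) := by rw [e1]; ring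
    _ ≤ Real.sqrt 2 * (7 * T) := mul_le_mul_of_nonneg_left key (Real.sqrt_nonneg _)
    _ = (Real.sqrt 2 * 7) * T := by ring
    _ ≤ 10 * T := mul_le_mul_of_nonneg_right e2 hT

end Pool.Agent.MP_c11b14_lc.LM
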