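import Pool.Agent.Lib.MP_c11b14_lc.LM.I1
import Pool.Agent.Lib.MP_c11b14_lc.LM.I2
import Pool.Agent.Lib.MP_c11b14_lc.LM.I3

set_option autoImplicit false

namespace Pool.Agent.MP_c11b14_lc.LM

open Set Polynomial MeasureTheory
open scoped ENNReal

/-- `F / G` constant on the half line: no positive root of `F + κ G` (unless it is 0). -/
theorem npos_of_jac {F G : ℝ[X]} (hG : Pos G) (hJ : jac F G = 0) (κ : ℝ) :
    npos (F + C κ * G) = 0 := by
  unfold npos
  rw [Finset.card_eq_zero, Finset.filter_eq_empty_iff]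
  intro x hx hx0
  rw [Multiset.mem_toFinset] at hx
  have hP0 : F + C κ * G ≠ 0 := fun h => by rw [h, roots_zero] at hx; simp at hx
  have hPx : (F + C κ * G).eval x = 0 := (mem_roots'.mp hx).2
  apply hP0
  apply eq_zero_of_infinite_isRoot
  refine Set.Infinite.mono ?_ (Set.Ioi_infinite (0 : ℝ))
  intro y hy
  have hGp : ∀ z ∈ Ioi (0 : ℝ), G.eval z ≠ 0 := fun z hz => (hG.eval_pos hz).ne'
  have hd : ∀ z ∈ Ioi (0 : ℝ), HasDerivAt (fun z => (F + C κ * G).eval z / G.eval z) 0 z := by
    intro z hz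
    have h1 := ((F + C κ * G).hasDerivAt z).div (G.hasDerivAt z) (hGp z hz)
    have h2 : (derivative (F + C κ * G)).eval z * G.eval z -
        (F + C κ * G).eval z * (derivative G).eval z = 0 := by
      have h3 := congrArg (Polynomial.eval z) hJ
      unfold jac at h3
      simp only [eval_sub, eval_mul, eval_zero] at h3
      simp only [derivative_add, derivative_mul, derivative_C, zero_mul, zero_add, eval_add,
        eval_mul, eval_C]
      linear_combination h3
    rw [h2, zero_div] at h1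
    exact h1
  have hc := isOpen_Ioi.is_const_of_deriv_eq_zero (isPreconnected_Ioi)
    (fun z hz => (hd z hz).differentiableAt.differentiableWithinAt)
    (fun z hz => (hd z hz).deriv) (show y ∈ Ioi (0 : ℝ) from hy) (show x ∈ Ioi (0 : ℝ) from hx0)
  simp only [hPx, zero_div] at hc
  exact (div_eq_zero_iff.mp hc).resolve_right (hGp y hy)

theorem tv_nonneg' (l : List ℝ) : 0 ≤ tv l := by
  induction l with
  | nil => exact le_rfl
  | cons x l ih =>
    cases l with
    | nil => exact le_rfl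
    | cons y l => exact add_nonneg (abs_nonneg _) ih

/-- ROW I4. The mean on the positive half line for `a > 0`: `jac = 0`: `F = κ G`, at most one `c` with
`F + a c G = 0`, and no positive root otherwise: `H = 0`. Else `H c = 2 + crossings` on `[1, 2]`. -/
theorem mean_pos' {F G : ℝ[X]} {T : ℝ} (hF : Good F T) (hG : Pos G) (hT : 1 ≤ T) {a : ℝ}
    (ha : 0 < a) :
    ∃ H : ℝ → ℝ≥0∞, Measurable H ∧ (∀ c, (npos (F + C (a * c) * G) : ℝ≥0∞) ≤ H c) ∧
      ∫⁻ c in Icc (1 : ℝ) 2, H c ≤ ENNReal.ofReal (102 * T) := by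
  by_cases hJ : jac F G = 0
  · refine ⟨fun _ => 0, measurable_const, fun c => ?_, by simp⟩
    rw [npos_of_jac hG hJ]
    simp
  obtain ⟨hmeas, hint⟩ := lintegral_crossings (rat F G) ha.ne' (crit F G)
  have hsort : (crit F G).Pairwise (· < ·) := by
    unfold crit
    exact (Finset.sortedLT_sort _).pairwise
  have hcpos : ∀ x ∈ crit F G, 0 < x := by
    intro x hx
    unfold crit at hx
    rw [Finset.mem_sort, Finset.mem_filter] at hx
    exact hx.2
  refine ⟨fun c => 2 + (crossings (rat F G) (-(a * c)) (crit F G) : ℝ≥0∞),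
    measurable_const.add hmeas, ?_, ?_⟩
  · intro c
    have h1 := npos_le_crossings hG hJ (-(a * c))
    rw [show F - C (-(a * c)) * G = F + C (a * c) * G by
      rw [map_neg, neg_mul, sub_neg_eq_add]] at h1
    have h3 : ((npos (F + C (a * c) * G) : ℕ) : ℝ≥0∞) ≤
        ((2 + crossings (rat F G) (-(a * c)) (crit F G) : ℕ) : ℝ≥0∞) := Nat.cast_le.mpr h1
    rw [Nat.cast_add] at h3
    exact h3
  · have h1 : ∫⁻ _ in Icc (1 : ℝ) 2, (2 : ℝ≥0∞) = ENNReal.ofReal 2 := by
      rw [lintegral_const, Measure.restrict_apply MeasurableSet.univ, univ_inter, Real.volume_Icc]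
      norm_num
    rw [lintegral_add_left measurable_const, h1]
    have htv := tv_le (A := 10 * T) (by linarith) ((crit F G).map (clp (rat F G) a)) (by
      intro x hx
      obtain ⟨p, _, rfl⟩ := List.mem_map.mp hx
      exact ⟨le_max_left _ _, max_le (by norm_num) (min_le_left _ _)⟩) (by
      intro ε hε w hw hv
      exact vly_le hF hG ha _ hsort hcpos hε w hw hv)
    refine (add_le_add le_rfl hint).trans ?_
    rw [← ENNReal.ofReal_add (by norm_num) (tv_nonneg' _)]
    exact ENNReal.ofReal_le_ofReal (by linarith)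

theorem npos_neg (p : ℝ[X]) : npos (-p) = npos p := by
  unfold npos
  rw [roots_neg]

/-- ROW I5. All real `a`. `a = 0`: `npos F ≤ T`. `a < 0`: `-F`. -/
theorem mean_pos {F G : ℝ[X]} {T : ℝ} (hF : Good F T) (hG : Pos G) (hT : 1 ≤ T) (a : ℝ) :
    ∃ H : ℝ → ℝ≥0∞, Measurable H ∧ (∀ c, (npos (F + C (a * c) * G) : ℝ≥0∞) ≤ H c) ∧
      ∫⁻ c in Icc (1 : ℝ) 2, H c ≤ ENNReal.ofReal (102 * T) := by
  rcases lt_trichotomy a 0 with ha | ha | ha
  · obtain ⟨H, h1, h2, h3⟩ := mean_pos' hF.neg hG hT (neg_pos.mpr ha)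
    refine ⟨H, h1, fun c => ?_, h3⟩
    have h4 := h2 c
    rw [show -F + C (-a * c) * G = -(F + C (a * c) * G) by
      rw [neg_mul, map_neg, neg_mul]; ring, npos_neg] at h4
    exact h4
  · refine ⟨fun _ => ENNReal.ofReal T, measurable_const, fun c => ?_, ?_⟩
    · rw [ha, zero_mul, C_0, zero_mul, add_zero, ← ENNReal.ofReal_natCast]
      exact ENNReal.ofReal_le_ofReal hF.2.1
    · rw [setLIntegral_const, Real.volume_Icc, show (2 : ℝ) - 1 = 1 by norm_num,
        ENNReal.ofReal_one, mul_one]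
      exact ENNReal.ofReal_le_ofReal (by linarith)
  · exact mean_pos' hF hG hT ha

theorem I6_support (p : ℝ[X]) : (p.comp (-X)).support = p.support := by
  ext n
  have h1 : (-X : ℝ[X]) = C (-1) * X := by simp
  rw [mem_support_iff, mem_support_iff, h1, comp_C_mul_X_coeff]
  constructor
  · intro h h2
    exact h (by rw [h2, zero_mul])
  · intro h
    exact mul_ne_zero h (pow_ne_zero _ (by norm_num))

/-- Positive, negative roots and the root 0. -/
theorem I6_roots (p : ℝ[X]) : p.roots.toFinset.card ≤ npos p + npos (p.comp (-X)) + 1 := by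
  classical
  have h1 : p.roots.toFinset ⊆ (p.roots.toFinset.filter fun x => 0 < x) ∪
      ((((p.comp (-X)).roots.toFinset.filter fun x => 0 < x).image fun x => -x) ∪ {0}) := by
    intro x hx
    rcases lt_trichotomy x 0 with h | h | h
    · refine Finset.mem_union_right _ (Finset.mem_union_left _
        (Finset.mem_image.2 ⟨-x, ?_, neg_neg x⟩))
      rw [Finset.mem_filter, Multiset.mem_toFinset, roots_comp_neg_X, Multiset.mem_map]
      exact ⟨⟨x, Multiset.mem_toFinset.1 hx, rfl⟩, by linarith⟩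
    · exact Finset.mem_union_right _ (Finset.mem_union_right _ (Finset.mem_singleton.2 h))
    · exact Finset.mem_union_left _ (Finset.mem_filter.2 ⟨hx, h⟩)
  refine (Finset.card_le_card h1).trans ((Finset.card_union_le _ _).trans ?_)
  refine Nat.add_assoc _ _ _ ▸ Nat.add_le_add_left ((Finset.card_union_le _ _).trans ?_) _
  exact Nat.add_le_add Finset.card_image_le (Finset.card_singleton _).le

theorem pos_X_pow (k : ℕ) : Pos (X ^ k : ℝ[X]) := by
  refine ⟨pow_ne_zero _ X_ne_zero, fun n => ?_⟩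
  rw [coeff_X_pow]
  split_ifs <;> norm_num

/-- ROW I6. The mean on the line: `G = X^k`, positive and negative half line and the root `0`. -/
theorem mean_line {m : ℕ} {f : Fin m → ℝ[X]} (hm : 0 < m) (hf : ∀ i, f i ≠ 0) (a : ℝ) (k : ℕ) :
    ∃ H : ℝ → ℝ≥0∞, Measurable H ∧
      (∀ c : ℝ, ((((∏ i, f i) + C (a * c) * X ^ k).roots.toFinset.card : ℕ) : ℝ≥0∞) ≤ H c) ∧
      ∫⁻ c in Icc (1 : ℝ) 2, H c ≤ ENNReal.ofReal (205 * ∑ i, ((f i).support.card : ℝ)) := by
  have hT : (1 : ℝ) ≤ ∑ i, ((f i).support.card : ℝ) := by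
    have h1 : (1 : ℝ) ≤ ((f ⟨0, hm⟩).support.card : ℝ) := by
      have : 0 < (f ⟨0, hm⟩).support.card := by
        rw [Finset.card_pos, Finset.nonempty_iff_ne_empty]
        exact fun h => hf _ (support_eq_empty.1 h)
      exact Nat.one_le_cast.mpr this
    exact h1.trans (Finset.single_le_sum (f := fun i => ((f i).support.card : ℝ))
      (fun j _ => Nat.cast_nonneg _) (Finset.mem_univ _))
  have hf' : ∀ i, (f i).comp (-X) ≠ 0 := fun i h => hf i (comp_neg_X_eq_zero_iff.1 h)
  have hT' : ∑ i, (((f i).comp (-X)).support.card : ℝ) = ∑ i, ((f i).support.card : ℝ) :=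
    Finset.sum_congr rfl fun i _ => by rw [I6_support]
  have hg := good_prod hf
  have hg' := good_prod hf'
  rw [hT', show (∏ i, (f i).comp (-X)) = (∏ i, f i).comp (-X) from (prod_comp _ _ _).symm] at hg'
  generalize (∏ i, f i) = F at *
  generalize (∑ i, ((f i).support.card : ℝ)) = T at *
  obtain ⟨H1, hm1, hH1, hI1⟩ := mean_pos hg (pos_X_pow k) hT a
  obtain ⟨H2, hm2, hH2, hI2⟩ := mean_pos hg' (pos_X_pow k) hT (a * (-1) ^ k)
  refine ⟨fun c => H1 c + H2 c + 1, (hm1.add hm2).add_const _, fun c => ?_, ?_⟩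
  · have h1 := I6_roots (F + C (a * c) * X ^ k)
    have h2 : (F + C (a * c) * X ^ k).comp (-X) =
        F.comp (-X) + C (a * (-1) ^ k * c) * X ^ k := by
      rw [add_comp, mul_comp, C_comp, pow_comp, X_comp, neg_pow, ← C_1, ← C_neg, ← C_pow,
        ← mul_assoc, ← C_mul]
      congr 3
      ring
    rw [h2] at h1
    have h3 : ((((F + C (a * c) * X ^ k).roots.toFinset.card : ℕ)) : ℝ≥0∞) ≤
        ((npos (F + C (a * c) * X ^ k) + npos (F.comp (-X) + C (a * (-1) ^ k * c) * X ^ k) + 1 :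
          ℕ) : ℝ≥0∞) := Nat.cast_le.mpr h1
    rw [Nat.cast_add, Nat.cast_add, Nat.cast_one] at h3
    exact h3.trans (add_le_add (add_le_add (hH1 c) (hH2 c)) le_rfl)
  · have e1 : ∫⁻ c in Icc (1 : ℝ) 2, (H1 c + H2 c + 1) =
        (∫⁻ c in Icc (1 : ℝ) 2, H1 c) + (∫⁻ c in Icc (1 : ℝ) 2, H2 c) + 1 := by
      rw [lintegral_add_right _ measurable_const, lintegral_add_right _ hm2, setLIntegral_const,
        Real.volume_Icc, show (2 : ℝ) - 1 = 1 by norm_num, ENNReal.ofReal_one, mul_one]
    rw [e1]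
    refine (add_le_add (add_le_add hI1 hI2) le_rfl).trans ?_
    rw [← ENNReal.ofReal_add (by linarith) (by linarith), ← ENNReal.ofReal_one,
      ← ENNReal.ofReal_add (by linarith) (by norm_num)]
    exact ENNReal.ofReal_le_ofReal (by linarith)

end Pool.Agent.MP_c11b14_lc.LM
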