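import Pool.Agent.Lib.MP_c11b14_lc.LM.I4
import Pool.Agent.Lib.MP_c11b14_lc.OP.H2

set_option autoImplicit false

namespace Pool.Agent.MP_c11b14_lc.LM

open Polynomial MeasureTheory
open scoped ENNReal

/-- From all dyadic scales to the mean over `ℝ` with the weight `1 / (1 + y²)`. -/
theorem all_scales' {N : ℝ → ℝ≥0∞} {B : ℝ} (hB : 0 ≤ B)
    (h : ∀ a : ℝ, ∃ H : ℝ → ℝ≥0∞, Measurable H ∧ (∀ c : ℝ, N (a * c) ≤ H c) ∧
      ∫⁻ c in Set.Icc (1 : ℝ) 2, H c ≤ ENNReal.ofReal B) :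
    ∃ H : ℝ → ℝ≥0∞, Measurable H ∧ (∀ᵐ y : ℝ, N y ≤ H y) ∧
      ∫⁻ y : ℝ, ENNReal.ofReal (1 / (1 + y ^ 2)) * H y ≤ ENNReal.ofReal (8 * B) := by
  have hscale : ∀ i : Bool × Bool × ℕ, ∃ H : ℝ → ℝ≥0∞, Measurable H ∧
      (∀ c : ℝ, N (OP.H2a i * c) ≤ H c) ∧ ∫⁻ c in Set.Icc (1 : ℝ) 2, H c ≤ ENNReal.ofReal B :=
    fun i => h _
  choose H hHm hHa hHi using hscale
  refine ⟨fun y => ∑' i, (Set.Icc (1 : ℝ) 2).indicator (H i) (y * (OP.H2a i)⁻¹), ?_, ?_, ?_⟩
  · refine Measurable.ennreal_tsum fun i => ?_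
    exact ((hHm i).indicator measurableSet_Icc).comp (measurable_mul_const _)
  · have h0 : ∀ᵐ y : ℝ, y ≠ 0 :=
      (measure_eq_zero_iff_ae_notMem.1 (Real.volume_singleton (a := 0))).mono
        fun y hy => by simpa using hy
    filter_upwards [h0] with y hy0
    obtain ⟨i, hi⟩ := OP.H2a_cover hy0
    have h5 := hHa i (y * (OP.H2a i)⁻¹)
    have h6 : OP.H2a i * (y * (OP.H2a i)⁻¹) = y := by
      have := OP.H2a_ne i
      field_simp
    rw [h6] at h5
    refine h5.trans (le_trans (le_of_eq ?_) (ENNReal.le_tsum i))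
    rw [Set.indicator_of_mem hi]
  · have h2 : ∀ i, ∫⁻ y : ℝ, ENNReal.ofReal (1 / (1 + y ^ 2)) *
        (Set.Icc (1 : ℝ) 2).indicator (H i) (y * (OP.H2a i)⁻¹) ≤
        ENNReal.ofReal (|OP.H2a i| / (1 + OP.H2a i ^ 2)) * ENNReal.ofReal B := by
      intro i
      have hne := OP.H2a_ne i
      have h3 : ∀ y : ℝ, ENNReal.ofReal (1 / (1 + y ^ 2)) *
          (Set.Icc (1 : ℝ) 2).indicator (H i) (y * (OP.H2a i)⁻¹) ≤
          ENNReal.ofReal (1 / (1 + OP.H2a i ^ 2)) *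
          (Set.Icc (1 : ℝ) 2).indicator (H i) (y * (OP.H2a i)⁻¹) := by
        intro y
        by_cases hy : y * (OP.H2a i)⁻¹ ∈ Set.Icc (1 : ℝ) 2
        · refine mul_le_mul' (ENNReal.ofReal_le_ofReal
            (one_div_le_one_div_of_le (by positivity) ?_)) le_rfl
          have h4 : y ^ 2 = OP.H2a i ^ 2 * (y * (OP.H2a i)⁻¹) ^ 2 := by field_simp
          have h5 : (1 : ℝ) ≤ (y * (OP.H2a i)⁻¹) ^ 2 := by
            have := hy.1
            nlinarith
          nlinarith [sq_nonneg (OP.H2a i)]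
        · rw [Set.indicator_of_notMem hy, mul_zero, mul_zero]
      calc _ ≤ ∫⁻ y : ℝ, ENNReal.ofReal (1 / (1 + OP.H2a i ^ 2)) *
            (Set.Icc (1 : ℝ) 2).indicator (H i) (y * (OP.H2a i)⁻¹) := lintegral_mono h3
        _ = ENNReal.ofReal (1 / (1 + OP.H2a i ^ 2)) *
            ∫⁻ y : ℝ, (Set.Icc (1 : ℝ) 2).indicator (H i) (y * (OP.H2a i)⁻¹) :=
          lintegral_const_mul _ (((hHm i).indicator measurableSet_Icc).comp (measurable_mul_const _))
        _ = ENNReal.ofReal (1 / (1 + OP.H2a i ^ 2)) *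
            (ENNReal.ofReal |OP.H2a i| * ∫⁻ lm in Set.Icc (1 : ℝ) 2, H i lm) := by
          congr 1
          rw [← lintegral_map ((hHm i).indicator measurableSet_Icc) (measurable_mul_const _),
            OP.H2_qmp hne, lintegral_smul_measure, lintegral_indicator measurableSet_Icc, smul_eq_mul]
        _ ≤ ENNReal.ofReal (1 / (1 + OP.H2a i ^ 2)) *
            (ENNReal.ofReal |OP.H2a i| * ENNReal.ofReal B) := by
          gcongr
          exact hHi i
        _ = _ := by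
          rw [← mul_assoc, ← ENNReal.ofReal_mul (by positivity)]
          congr 2
          ring
    have h3 : ∫⁻ y : ℝ, ENNReal.ofReal (1 / (1 + y ^ 2)) *
        ∑' i, (Set.Icc (1 : ℝ) 2).indicator (H i) (y * (OP.H2a i)⁻¹) =
        ∑' i, ∫⁻ y : ℝ, ENNReal.ofReal (1 / (1 + y ^ 2)) *
        (Set.Icc (1 : ℝ) 2).indicator (H i) (y * (OP.H2a i)⁻¹) := by
      rw [← lintegral_tsum fun i => ?_]
      · refine lintegral_congr fun y => ?_
        rw [ENNReal.tsum_mul_left]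
      · exact (Measurable.mul (by fun_prop) (((hHm i).indicator measurableSet_Icc).comp
          (measurable_mul_const _))).aemeasurable
    rw [h3]
    calc _ ≤ ∑' i, ENNReal.ofReal (|OP.H2a i| / (1 + OP.H2a i ^ 2)) * ENNReal.ofReal B :=
          ENNReal.tsum_le_tsum h2
      _ = (∑' i, ENNReal.ofReal (|OP.H2a i| / (1 + OP.H2a i ^ 2))) * ENNReal.ofReal B :=
          ENNReal.tsum_mul_right
      _ ≤ ENNReal.ofReal 8 * ENNReal.ofReal B :=
          mul_le_mul' OP.H2a_sum le_rfl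
      _ = _ := by
          rw [← ENNReal.ofReal_mul (by norm_num)]

/-- ROW J1 (length). PROOF. As `OP.length_le` in Pool/Agent/Lib/MP_c11b14_lc/OP/H2.lean:
`OP.H2_pair` (with `G = X ^ k`), the dyadic scales (`all_scales'`) and `mean_line`:
`8 · 205 = 1640`. -/
theorem length {m : ℕ} {f : Fin m → ℝ[X]} (hm : 0 < m) (hf : ∀ i, f i ≠ 0) (k : ℕ) :
    ∫⁻ x : ℝ, ENNReal.ofReal (|(jac (∏ i, f i) (X ^ k)).eval x| /
        ((∏ i, f i).eval x ^ 2 + ((X : ℝ[X]) ^ k).eval x ^ 2)) ≤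
      ENNReal.ofReal (1640 * ∑ i, ((f i).support.card : ℝ)) := by
  have hB : (0 : ℝ) ≤ 205 * ∑ i, ((f i).support.card : ℝ) := by positivity
  by_cases hw : jac (∏ i, f i) (X ^ k) = 0
  · rw [hw]
    simp
  · obtain ⟨H, h1, h2, h3⟩ := all_scales' (N := fun y =>
      ((((∏ i, f i) + C y * X ^ k).roots.toFinset.card : ℕ) : ℝ≥0∞)) hB
      (fun a => mean_line hm hf a k)
    have h4 := OP.H2_pair (F := ∏ i, f i) (G := X ^ k) (pow_ne_zero _ X_ne_zero) hw h1 h2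
    refine h4.trans (h3.trans (le_of_eq ?_))
    congr 1
    ring

end Pool.Agent.MP_c11b14_lc.LM
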