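import Pool.Agent.Lib.MP_c11b14_lc.LM.G1

set_option autoImplicit false

namespace Pool.Agent.MP_c11b14_lc.LM

open Set Polynomial

/-- Values of absolute value at least `ε` and of opposite signs. -/
def Opp (G : ℝ[X]) (ε : ℝ) (x y : ℝ) : Prop :=
  x < y ∧ ((ε ≤ G.eval x ∧ G.eval y ≤ -ε) ∨ (G.eval x ≤ -ε ∧ ε ≤ G.eval y))

/-- A polynomial without zero in an open interval has a constant sign there. -/
theorem k1_sign {G : ℝ[X]} {a b c y : ℝ} (h : ∀ u ∈ Ioo a b, G.eval u ≠ 0) (hc : c ∈ Ioo a b)
    (hy : y ∈ Ioo a b) : 0 < G.eval y * G.eval c := by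
  by_contra hneg
  have hne : G.eval y * G.eval c ≠ 0 := mul_ne_zero (h y hy) (h c hc)
  have hlt : G.eval y * G.eval c < 0 := lt_of_le_of_ne (not_lt.mp hneg) hne
  have h0 : (0 : ℝ) ∈ uIcc (G.eval y) (G.eval c) := by
    rw [mem_uIcc]
    rcases mul_neg_iff.mp hlt with ⟨h1, h2⟩ | ⟨h1, h2⟩
    · right; exact ⟨h2.le, h1.le⟩
    · left; exact ⟨h1.le, h2.le⟩
  obtain ⟨u, hu, hu0⟩ := intermediate_value_uIcc (G.continuous.continuousOn) h0
  refine h u ?_ hu0
  rw [mem_uIcc] at hu
  rcases hu with hu | hu
  · exact ⟨hy.1.trans_le hu.1, hu.2.trans_lt hc.2⟩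
  · exact ⟨hc.1.trans_le hu.1, hu.2.trans_lt hy.2⟩

/-- The critical point between two consecutive zeros. -/
theorem k1_crit {G : ℝ[X]} {a b : ℝ} (hab : a < b) (ha : G.eval a = 0) (hb : G.eval b = 0)
    (h : ∀ u ∈ Ioo a b, G.eval u ≠ 0) :
    ∃ c ∈ Ioo a b, G.derivative.eval c = 0 := by
  have hcont : ContinuousOn (fun u => |G.eval u|) (Icc a b) :=
    (continuous_abs.comp G.continuous).continuousOn
  obtain ⟨c, hc, hmax⟩ := isCompact_Icc.exists_isMaxOn (nonempty_Icc.mpr hab.le) hcont
  have hm : (a + b) / 2 ∈ Ioo a b := ⟨by linarith, by linarith⟩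
  have hpos : 0 < |G.eval c| := by
    have h1 := hmax (Ioo_subset_Icc_self hm)
    simp only [Set.mem_ofPred_eq] at h1
    exact (abs_pos.mpr (h _ hm)).trans_le h1
  have hc' : c ∈ Ioo a b := by
    refine ⟨lt_of_le_of_ne hc.1 ?_, lt_of_le_of_ne hc.2 ?_⟩
    · rintro rfl
      rw [ha, abs_zero] at hpos
      exact lt_irrefl _ hpos
    · rintro rfl
      rw [hb, abs_zero] at hpos
      exact lt_irrefl _ hpos
  refine ⟨c, hc', ?_⟩
  have hnhds : Ioo a b ∈ nhds c := Ioo_mem_nhds hc'.1 hc'.2
  have hle : ∀ᶠ y in nhds c, |G.eval y| ≤ |G.eval c| := by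
    filter_upwards [hnhds] with y hy
    exact hmax (Ioo_subset_Icc_self hy)
  rcases lt_or_gt_of_ne (abs_pos.mp hpos) with hneg | hpos'
  · have : IsLocalMin (fun u => G.eval u) c := by
      filter_upwards [hle] with y hy
      rw [abs_of_neg hneg] at hy
      linarith [neg_abs_le (G.eval y)]
    exact this.hasDerivAt_eq_zero (G.hasDerivAt c)
  · have : IsLocalMax (fun u => G.eval u) c := by
      filter_upwards [hle] with y hy
      rw [abs_of_pos hpos'] at hy
      linarith [le_abs_self (G.eval y)]
    exact this.hasDerivAt_eq_zero (G.hasDerivAt c)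

theorem k1_main {G : ℝ[X]} (hG : G ≠ 0) {ε : ℝ} (hε : 0 < ε) (S : Finset ℝ)
    (hS : ∀ x, G.derivative.eval x = 0 → |G.eval x| < ε → x ∈ S) (n : ℕ) :
    ∀ z : ℝ, G.eval z = 0 → (G.roots.toFinset.filter fun x => z < x).card = n →
      ∃ l : List ℝ, l.IsChain (Opp G ε) ∧ (∀ x ∈ l, z < x ∧ ε ≤ |G.eval x|) ∧
        n ≤ l.length + 2 * (S.filter fun x => z < x).card ∧
        (n + 1 ≤ l.length + 2 * (S.filter fun x => z < x).card ∨ l = [] ∨
          ∃ h t, l = h :: t ∧ ∃ y₀, z < y₀ ∧ ∀ y ∈ Ioo z y₀, 0 < G.eval y * G.eval h) := by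
  induction n with
  | zero =>
    intro z hz hcard
    exact ⟨[], by simp, by simp, by simp, Or.inr (Or.inl rfl)⟩
  | succ n ih =>
    intro z₀ hz₀ hcard
    have hne : (G.roots.toFinset.filter fun x => z₀ < x).Nonempty := by
      rw [← Finset.card_pos, hcard]
      omega
    obtain ⟨hzm, hzmin⟩ : (G.roots.toFinset.filter fun x => z₀ < x).min' hne ∈
        (G.roots.toFinset.filter fun x => z₀ < x) ∧ ∀ y ∈
          (G.roots.toFinset.filter fun x => z₀ < x),
          (G.roots.toFinset.filter fun x => z₀ < x).min' hne ≤ y :=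
      ⟨Finset.min'_mem _ _, fun y hy => Finset.min'_le _ _ hy⟩
    generalize (G.roots.toFinset.filter fun x => z₀ < x).min' hne = z at hzm hzmin
    have hmem : ∀ x, x ∈ (G.roots.toFinset.filter fun x => z₀ < x) ↔
        G.eval x = 0 ∧ z₀ < x := by
      intro x
      simp only [Finset.mem_filter, Multiset.mem_toFinset, mem_roots', IsRoot.def]
      tauto
    obtain ⟨hz, hz₀z⟩ := (hmem z).mp hzm
    have hno : ∀ u ∈ Ioo z₀ z, G.eval u ≠ 0 := fun u hu hu0 =>
      absurd (hzmin u ((hmem u).mpr ⟨hu0, hu.1⟩)) (not_le.mpr hu.2)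
    have hins : (G.roots.toFinset.filter fun x => z₀ < x) =
        insert z (G.roots.toFinset.filter fun x => z < x) := by
      ext x
      rw [Finset.mem_insert, hmem]
      simp only [Finset.mem_filter, Multiset.mem_toFinset, mem_roots', IsRoot.def]
      constructor
      · rintro ⟨h1, h2⟩
        rcases (hzmin x ((hmem x).mpr ⟨h1, h2⟩)).eq_or_lt with h | h
        · exact Or.inl h.symm
        · exact Or.inr ⟨⟨hG, h1⟩, h⟩
      · rintro (rfl | ⟨⟨-, h1⟩, h2⟩)
        · exact ⟨hz, hz₀z⟩
        · exact ⟨h1, hz₀z.trans h2⟩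
    have hcz : (G.roots.toFinset.filter fun x => z < x).card = n := by
      rw [hins, Finset.card_insert_of_notMem (by simp)] at hcard
      omega
    obtain ⟨l, hch, hl, hn, hst⟩ := ih z hz hcz
    obtain ⟨c, hc, hc0⟩ := k1_crit hz₀z hz₀ hz hno
    have hsub : (S.filter fun x => z < x) ⊆ (S.filter fun x => z₀ < x) := by
      intro x hx
      rw [Finset.mem_filter] at hx ⊢
      exact ⟨hx.1, hz₀z.trans hx.2⟩
    have hle : (S.filter fun x => z < x).card ≤ (S.filter fun x => z₀ < x).card :=
      Finset.card_le_card hsub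
    have hlt : ∀ x ∈ S, z₀ < x → x ≤ z →
        (S.filter fun x => z < x).card + 1 ≤ (S.filter fun x => z₀ < x).card := by
      intro x hx h1 h2
      have : insert x (S.filter fun x => z < x) ⊆ (S.filter fun x => z₀ < x) := by
        rw [Finset.insert_subset_iff]
        exact ⟨Finset.mem_filter.mpr ⟨hx, h1⟩, hsub⟩
      have h3 := Finset.card_le_card this
      rwa [Finset.card_insert_of_notMem (by simp [h2])] at h3
    have hl' : ∀ x ∈ l, z₀ < x ∧ ε ≤ |G.eval x| := fun x hx =>
      ⟨hz₀z.trans (hl x hx).1, (hl x hx).2⟩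
    rcases lt_or_ge |G.eval c| ε with hbad | hgood
    · have h1 := hlt c (hS c hc0 hbad) hc.1 hc.2.le
      exact ⟨l, hch, hl', by omega, Or.inl (by omega)⟩
    · have hright : ∀ y ∈ Ioo z₀ z, 0 < G.eval y * G.eval c := fun y hy => k1_sign hno hc hy
      cases l with
      | nil =>
        refine ⟨[c], by simp, ?_, ?_, Or.inr (Or.inr ⟨c, [], rfl, z, hz₀z, hright⟩)⟩
        · intro x hx
          rw [List.mem_singleton] at hx
          subst hx
          exact ⟨hc.1, hgood⟩
        · simp only [List.length_nil, List.length_cons] at hn ⊢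
          omega
      | cons h t =>
        obtain ⟨hzh, hgh⟩ := hl h (by simp)
        have hGc : G.eval c ≠ 0 := hno c hc
        have hGh : G.eval h ≠ 0 := by
          intro h0
          rw [h0, abs_zero] at hgh
          linarith
        rcases lt_or_gt_of_ne (mul_ne_zero hGc hGh) with hopp | hsame
        · -- opposite signs: append
          refine ⟨c :: h :: t, ?_, ?_, ?_, Or.inr (Or.inr ⟨c, h :: t, rfl, z, hz₀z, hright⟩)⟩
          · refine List.IsChain.cons_cons ⟨hc.2.trans hzh, ?_⟩ hch
            rcases mul_neg_iff.mp hopp with ⟨h1, h2⟩ | ⟨h1, h2⟩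
            · left
              rw [abs_of_pos h1] at hgood
              rw [abs_of_neg h2] at hgh
              exact ⟨hgood, by linarith⟩
            · right
              rw [abs_of_neg h1] at hgood
              rw [abs_of_pos h2] at hgh
              exact ⟨by linarith, hgh⟩
          · intro x hx
            rcases List.mem_cons.mp hx with rfl | hx
            · exact ⟨hc.1, hgood⟩
            · exact hl' x hx
          · simp only [List.length_cons] at hn ⊢
            omega
        · -- same sign: skip
          have hstate : ∃ h' t', h :: t = h' :: t' ∧ ∃ y₀, z₀ < y₀ ∧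
              ∀ y ∈ Ioo z₀ y₀, 0 < G.eval y * G.eval h' := by
            refine ⟨h, t, rfl, z, hz₀z, fun y hy => ?_⟩
            have h1 := hright y hy
            have h2 : 0 < (G.eval y * G.eval c) * (G.eval c * G.eval h) := mul_pos h1 hsame
            have h3 : 0 < G.eval c ^ 2 := by positivity
            by_contra hneg
            rw [not_lt] at hneg
            nlinarith [mul_nonneg h3.le (neg_nonneg.mpr hneg)]
          refine ⟨h :: t, hch, hl', ?_, Or.inr (Or.inr hstate)⟩
          rcases hst with hst | hst | ⟨h', t', he, y₀, hy₀, hpos⟩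
          · omega
          · simp at hst
          · obtain ⟨rfl, rfl⟩ := List.cons.inj he
            -- `z` is a root without change of sign
            have hder : G.derivative.eval z = 0 := by
              have hloc : IsLocalMin (fun u => G.eval u * G.eval h) z := by
                have hnh : Ioo z₀ y₀ ∈ nhds z := Ioo_mem_nhds hz₀z hy₀
                filter_upwards [hnh] with y hy
                simp only [hz, zero_mul]
                rcases lt_trichotomy y z with hyz | rfl | hyz
                · have h1 := hright y ⟨hy.1, hyz⟩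
                  have h2 : 0 < (G.eval y * G.eval c) * (G.eval c * G.eval h) := mul_pos h1 hsame
                  have h3 : 0 < G.eval c ^ 2 := by positivity
                  by_contra hneg
                  rw [not_le] at hneg
                  nlinarith [mul_pos h3 (neg_pos.mpr hneg)]
                · rw [hz, zero_mul]
                · exact (hpos y ⟨hyz, hy.2⟩).le
              have h1 := hloc.hasDerivAt_eq_zero ((G.hasDerivAt z).mul_const (G.eval h))
              exact (mul_eq_zero.mp h1).resolve_right hGh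
            have h1 := hlt z (hS z hder (by rw [hz, abs_zero]; exact hε)) hz₀z le_rfl
            omega

/-- ROW K1. Let `z₁ < ... < z_Z` be the real roots of `G ≠ 0`, `c_i ∈ (z_i, z_(i+1))` a place of the
maximum of `|G|` on `[z_i, z_(i+1)]`, a critical point, and `S` the set of the critical points with
`|G| < ε` (it contains the multiple roots). Go through `c_1, c_2, ...`; append `c_i` to the list if
`|G(c_i)| ≥ ε` and the sign is not that of the last one of the list. Invariant:
`i ≤ length + 2 |S ∩ (-∞, c_i]| - [c_i ∈ S]`: a bad `c_i` is in `S`; a good `c_i` with the sign of the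
last one of the list: either `c_(i-1)` is bad, or `z_i` is a root without change of sign, so
`z_i ∈ S`. -/
theorem exists_alt_list {G : ℝ[X]} (hG : G ≠ 0) {ε : ℝ} (hε : 0 < ε) :
    ∃ l : List ℝ, l.IsChain (Opp G ε) ∧ (∀ x ∈ l, ε ≤ |G.eval x|) ∧
      G.roots.toFinset.card ≤ l.length + 1 +
        2 * (G.derivative.roots.toFinset.filter fun x => |G.eval x| < ε).card := by
  by_cases hG' : G.derivative = 0
  · refine ⟨[], by simp, by simp, ?_⟩
    have hC : G = C (G.coeff 0) := eq_C_of_derivative_eq_zero hG'
    rw [hC, roots_C]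
    simp
  · rcases G.roots.toFinset.eq_empty_or_nonempty with he | hne
    · refine ⟨[], by simp, by simp, ?_⟩
      rw [he]
      simp
    · set S := G.derivative.roots.toFinset.filter fun x => |G.eval x| < ε with hSdef
      have hS : ∀ x, G.derivative.eval x = 0 → |G.eval x| < ε → x ∈ S := by
        intro x h1 h2
        rw [hSdef, Finset.mem_filter, Multiset.mem_toFinset, mem_roots']
        exact ⟨⟨hG', h1⟩, h2⟩
      obtain ⟨z, hzm, hmin⟩ : ∃ z ∈ G.roots.toFinset, ∀ y ∈ G.roots.toFinset, z ≤ y :=
        ⟨_, Finset.min'_mem _ hne, fun y hy => Finset.min'_le _ y hy⟩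
      have hz : G.eval z = 0 := by
        rw [Multiset.mem_toFinset, mem_roots'] at hzm
        exact hzm.2
      obtain ⟨l, hch, hl, hn, -⟩ := k1_main hG hε S hS _ z hz rfl
      refine ⟨l, hch, fun x hx => (hl x hx).2, ?_⟩
      have hins : G.roots.toFinset ⊆
          insert z (G.roots.toFinset.filter fun x => z < x) := by
        intro x hx
        rcases (hmin x hx).eq_or_lt with h | h
        · exact Finset.mem_insert.mpr (Or.inl h.symm)
        · exact Finset.mem_insert.mpr (Or.inr (Finset.mem_filter.mpr ⟨hx, h⟩))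
      have h1 := Finset.card_le_card hins
      rw [Finset.card_insert_of_notMem (by simp)] at h1
      have h2 : (S.filter fun x => z < x).card ≤ S.card := Finset.card_filter_le _ _
      omega

private theorem alt_aux {G : ℝ[X]} {ε : ℝ} (hε : 0 < ε) : ∀ (l : List ℝ) (σ : ℝ), (σ = 1 ∨ σ = -1) →
    l.IsChain (Opp G ε) → (∀ a ∈ l.head?, ε ≤ σ * G.eval a) →
    (∀ i, i < l.length → ε ≤ σ * (-1) ^ i * G.eval (l.getD i 0)) ∧
      ∀ i, i + 1 < l.length → l.getD i 0 < l.getD (i + 1) 0 := by
  intro l
  induction l with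
  | nil =>
    intro σ _ _ _
    exact ⟨fun i hi => absurd hi (Nat.not_lt_zero _), fun i hi => absurd hi (Nat.not_lt_zero _)⟩
  | cons a l ih =>
    intro σ hσ hc ha
    have ha' : ε ≤ σ * G.eval a := ha a (by simp)
    cases l with
    | nil =>
      refine ⟨fun i hi => ?_, fun i hi => ?_⟩
      · have : i = 0 := by simpa using hi
        subst this
        simpa using ha'
      · simp at hi
    | cons b t =>
      rw [List.isChain_cons_cons] at hc
      obtain ⟨⟨hab, hO⟩, hc'⟩ := hc
      have hb : ε ≤ -σ * G.eval b := by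
        rcases hσ with rfl | rfl
        · rcases hO with h | h
          · linarith [h.2]
          · linarith [h.1]
        · rcases hO with h | h
          · linarith [h.1]
          · linarith [h.2]
      have hσ' : -σ = 1 ∨ -σ = -1 := by
        rcases hσ with rfl | rfl
        · right; rfl
        · left; norm_num
      obtain ⟨i1, i2⟩ := ih (-σ) hσ' hc' (fun x hx => by
        have : x = b := by simpa using hx.symm
        rw [this]; exact hb)
      refine ⟨fun i hi => ?_, fun i hi => ?_⟩
      · cases i with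
        | zero => simpa using ha'
        | succ i =>
          have h1 := i1 i (by simpa using hi)
          rw [List.getD_cons_succ]
          calc ε ≤ -σ * (-1) ^ i * G.eval ((b :: t).getD i 0) := h1
            _ = σ * (-1) ^ (i + 1) * G.eval ((b :: t).getD i 0) := by ring
      · cases i with
        | zero => simpa using hab
        | succ i =>
          have h1 := i2 i (by simpa using hi)
          rw [List.getD_cons_succ, List.getD_cons_succ]
          exact h1

private theorem alt_len {m : ℕ} (hm : 0 < m) {f : Fin m → ℝ[X]} (hf : ∀ i, f i ≠ 0) {ε : ℝ}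
    (hε : 0 < ε) (hε1 : ε ≤ 1) {l : List ℝ} (hl : l.IsChain (Opp ((∏ i, f i) + 1) ε))
    (ha : ∀ a ∈ l.head?, ε ≤ ((∏ i, f i) + 1).eval a) :
    Real.sqrt ε * ((l.length : ℝ) - 1) ≤ 36 * ∑ i, ((f i).support.card : ℝ) := by
  have hT : (0 : ℝ) ≤ ∑ i, ((f i).support.card : ℝ) := Finset.sum_nonneg fun i _ => Nat.cast_nonneg _
  have hs : 0 ≤ Real.sqrt ε := Real.sqrt_nonneg ε
  rcases Nat.eq_zero_or_pos l.length with h0 | h0
  · rw [h0]
    push_cast
    nlinarith
  · obtain ⟨h1, h2⟩ := alt_aux hε l 1 (Or.inl rfl) hl (fun a h => by rw [one_mul]; exact ha a h)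
    have h3 := alternations_line hm hf hε hε1 (l.length - 1) (fun i => l.getD i 0)
      (fun i hi => h2 i (by omega))
      (fun i hi => by
        have h4 := h1 i (by omega)
        rw [one_mul, eval_add, eval_one] at h4
        exact h4)
    rw [Nat.cast_sub h0] at h3
    simpa using h3

/-- The roots of `F + 1`, `F = ∏ f`. From `exists_alt_list` (for `G = F + 1`) and
`alternations_line` (drop the first element of the list if `G < 0` there): with `N + 1` or `N + 2`
the length of the list `Z ≤ N + 3 + 2 I` and `√ε N ≤ 36 T`. -/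
theorem roots_le {m : ℕ} {f : Fin m → ℝ[X]} (hf : ∀ i, f i ≠ 0) {ε : ℝ} (hε : 0 < ε)
    (hε1 : ε ≤ 1) :
    Real.sqrt ε * (((∏ i, f i) + 1).roots.toFinset.card : ℝ) ≤
      40 * ∑ i, ((f i).support.card : ℝ) +
      2 * Real.sqrt ε * ((((∏ i, f i).derivative.roots.toFinset.filter
        fun x => |(∏ i, f i).eval x + 1| < ε).card : ℕ) : ℝ) := by
  have hT0 : (0 : ℝ) ≤ ∑ i, ((f i).support.card : ℝ) := Finset.sum_nonneg fun i _ => Nat.cast_nonneg _
  have hs : 0 ≤ Real.sqrt ε := Real.sqrt_nonneg ε
  have hs1 : Real.sqrt ε ≤ 1 := Real.sqrt_le_one.mpr hε1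
  by_cases hG : (∏ i, f i) + 1 = 0
  · rw [hG]
    simp only [roots_zero, Multiset.toFinset_zero, Finset.card_empty, Nat.cast_zero, mul_zero]
    positivity
  rcases Nat.eq_zero_or_pos m with h0 | h0
  · subst h0
    have h1 : (∏ i, f i) + 1 = C (2 : ℝ) := by
      rw [Finset.univ_eq_empty, Finset.prod_empty, ← C_1, ← C_add]
      norm_num
    rw [h1]
    simp only [roots_C, Multiset.toFinset_zero, Finset.card_empty, Nat.cast_zero, mul_zero]
    positivity
  have hT : (1 : ℝ) ≤ ∑ i, ((f i).support.card : ℝ) := by
    have h1 : (1 : ℝ) ≤ ((f ⟨0, h0⟩).support.card : ℝ) := by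
      have : 0 < (f ⟨0, h0⟩).support.card := Finset.card_pos.2 (nonempty_support_iff.2 (hf _))
      exact_mod_cast this
    exact h1.trans (Finset.single_le_sum (f := fun i => ((f i).support.card : ℝ))
      (fun i _ => Nat.cast_nonneg _) (Finset.mem_univ _))
  obtain ⟨l, hl, hlε, hZ⟩ := exists_alt_list hG hε
  have hlen : Real.sqrt ε * ((l.length : ℝ) - 2) ≤ 36 * ∑ i, ((f i).support.card : ℝ) := by
    cases l with
    | nil =>
      simp only [List.length_nil, Nat.cast_zero]
      nlinarith
    | cons a l =>
      have ha := hlε a List.mem_cons_self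
      rcases le_abs.1 ha with h | h
      · have h1 := alt_len h0 hf hε hε1 hl (fun x hx => by
          have : x = a := by simpa using hx.symm
          rw [this]; exact h)
        nlinarith
      · have hc : l.IsChain (Opp ((∏ i, f i) + 1) ε) := hl.tail
        have h1 := alt_len h0 hf hε hε1 hc (fun x hx => by
          cases l with
          | nil => simp at hx
          | cons b t =>
            have hb : x = b := by simpa using hx.symm
            rw [List.isChain_cons_cons] at hl
            obtain ⟨⟨_, hO⟩, _⟩ := hl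
            rw [hb]
            rcases hO with h' | h'
            · linarith [h'.1]
            · exact h'.2)
        rw [List.length_cons]
        push_cast
        linarith
  have hder : ((∏ i, f i) + 1).derivative = (∏ i, f i).derivative := by
    rw [derivative_add, derivative_one, add_zero]
  rw [hder] at hZ
  have hfil : ((∏ i, f i).derivative.roots.toFinset.filter fun x => |((∏ i, f i) + 1).eval x| < ε) =
      (∏ i, f i).derivative.roots.toFinset.filter fun x => |(∏ i, f i).eval x + 1| < ε := by
    refine Finset.filter_congr fun x _ => ?_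
    rw [eval_add, eval_one]
  rw [hfil] at hZ
  have hZ' : ((((∏ i, f i) + 1).roots.toFinset.card : ℕ) : ℝ) ≤ (l.length : ℝ) + 1 +
      2 * ((((∏ i, f i).derivative.roots.toFinset.filter
        fun x => |(∏ i, f i).eval x + 1| < ε).card : ℕ) : ℝ) := by
    exact_mod_cast hZ
  have h5 := mul_le_mul_of_nonneg_left hZ' hs
  nlinarith

end Pool.Agent.MP_c11b14_lc.LM
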