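import Pool.Agent.Lib.MP_c11b14_lc.LM.I4

/-!
The mean over an arbitrary set `B ⊆ [1, 2]` of values `c`: `∫_B Z(F + a c X^k) dc ≤ 205 T √|B|`, and
the quadratic tail: outside a set of measure `δ` one has `Z(F + a c X^k) ≤ 205 T / √δ`.
-/

set_option autoImplicit false

namespace Pool.Agent.MP_c11b14_lc.LM

open Set Polynomial MeasureTheory
open scoped ENNReal

/-- The measure of `B ∩ [1, y]`. -/
noncomputable def K2m (B : Set ℝ) (y : ℝ) : ℝ := (volume (B ∩ Icc 1 y)).toReal

theorem K2m_fin (B : Set ℝ) (y : ℝ) : volume (B ∩ Icc 1 y) ≠ ∞ :=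
  ne_top_of_le_ne_top (by rw [Real.volume_Icc]; exact ENNReal.ofReal_ne_top)
    (measure_mono inter_subset_right)

/-- `M y - M x = |B ∩ [x, y]|` for `1 ≤ x ≤ y`. -/
theorem K2m_sub (B : Set ℝ) {x y : ℝ} (hx : 1 ≤ x) (hxy : x ≤ y) :
    volume (B ∩ Icc x y) = ENNReal.ofReal (K2m B y - K2m B x) := by
  have h1 : volume (B ∩ Icc 1 x) + volume (B ∩ Icc x y) = volume (B ∩ Icc 1 y) := by
    rw [← measure_inter_add_sdiff (B ∩ Icc 1 y) (measurableSet_Icc (a := (1 : ℝ)) (b := x))]
    congr 1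
    · congr 1
      ext z
      simp only [mem_inter_iff, mem_Icc]
      constructor
      · rintro ⟨h1, h2, h3⟩; exact ⟨⟨h1, h2, h3.trans hxy⟩, h2, h3⟩
      · rintro ⟨⟨h1, _, _⟩, h2, h3⟩; exact ⟨h1, h2, h3⟩
    · have h2 : (B ∩ Icc 1 y) \ Icc 1 x = (B ∩ Icc x y) \ {x} := by
        ext z
        simp only [mem_sdiff, mem_inter_iff, mem_Icc, mem_singleton_iff, not_and, not_le]
        constructor
        · rintro ⟨⟨h1, h2, h3⟩, h4⟩
          exact ⟨⟨h1, (h4 h2).le, h3⟩, (h4 h2).ne'⟩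
        · rintro ⟨⟨h1, h2, h3⟩, h4⟩
          exact ⟨⟨h1, hx.trans h2, h3⟩, fun _ => lt_of_le_of_ne h2 (Ne.symm h4)⟩
      rw [h2, measure_sdiff_null (Real.volume_singleton)]
  unfold K2m
  rw [← ENNReal.toReal_sub_of_le (by rw [← h1]; exact le_self_add) (K2m_fin B y), ← h1,
    ENNReal.add_sub_cancel_left (K2m_fin B x), ENNReal.ofReal_toReal]
  exact ne_top_of_le_ne_top (by rw [Real.volume_Icc]; exact ENNReal.ofReal_ne_top)
    (measure_mono inter_subset_right)

theorem K2m_mono (B : Set ℝ) {x y : ℝ} (hxy : x ≤ y) : K2m B x ≤ K2m B y :=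
  ENNReal.toReal_mono (K2m_fin B y)
    (measure_mono (inter_subset_inter_right _ (Icc_subset_Icc_right hxy)))

theorem K2m_lip (B : Set ℝ) {x y : ℝ} (hx : 1 ≤ x) (hxy : x ≤ y) :
    K2m B y - K2m B x ≤ y - x := by
  have h1 := K2m_sub B hx hxy
  have h2 : volume (B ∩ Icc x y) ≤ ENNReal.ofReal (y - x) := by
    rw [← Real.volume_Icc]
    exact measure_mono inter_subset_right
  rw [h1] at h2
  exact (ENNReal.ofReal_le_ofReal_iff (by linarith)).1 h2

/-- Valleys of `ψ ∘ clp` are valleys of `clp`. -/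
theorem K2_vly {B : Set ℝ} {β ε : ℝ} (hβ : 0 < β) (hε : 0 < ε) : ∀ l : List ℝ,
    (∀ x ∈ l, 1 ≤ x) → Vly ε (l.map fun y => 1 + K2m B y / β) → Vly (β * ε) l
  | [], _, h => by simp [Vly] at h
  | [x], _, _ => by simp [Vly]
  | [x, y], _, h => by simp [Vly] at h
  | h :: l :: h' :: t, h1, hv => by
    simp only [List.map_cons, Vly] at hv
    have key : ∀ x y : ℝ, 1 ≤ y → (1 + K2m B y / β) + ε ≤ 1 + K2m B x / β → y + β * ε ≤ x := by
      intro x y hy hh
      have h2 : K2m B y + β * ε ≤ K2m B x := by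
        have h3 : K2m B y / β + ε ≤ K2m B x / β := by linarith
        rw [div_add' _ _ _ hβ.ne', div_le_div_iff_of_pos_right hβ] at h3
        linarith
      have h4 : 0 < β * ε := mul_pos hβ hε
      rcases le_total x y with hxy | hxy
      · exact absurd (K2m_mono B hxy) (by linarith)
      · linarith [K2m_lip B hy hxy]
    have hl : 1 ≤ l := h1 l (by simp)
    simp only [Vly]
    refine ⟨key _ _ hl hv.1, key _ _ hl hv.2.1, K2_vly (B := B) hβ hε (h' :: t) (fun x hx => h1 x ?_) ?_⟩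
    · simp only [List.mem_cons] at hx ⊢
      tauto
    · simpa using hv.2.2

private theorem K2_clp_le (R : ℝ → ℝ) (a p c : ℝ) (h1 : 1 ≤ c) (h : -R p / a ≤ c) : clp R a p ≤ c :=
  max_le h1 ((min_le_right _ _).trans h)

private theorem K2_le_clp (R : ℝ → ℝ) (a p c : ℝ) (h2 : c ≤ 2) (h : c ≤ -R p / a) : c ≤ clp R a p :=
  le_max_of_le_right (le_min h2 h)

/-- As `lintegral_crossings`, over the set `B`. -/
theorem K2_lintegral (R : ℝ → ℝ) {a : ℝ} (ha : 0 < a) {B : Set ℝ} (hB : B ⊆ Icc 1 2)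
    {β : ℝ} (hβ : 0 < β) (l : List ℝ) :
    ∫⁻ c in B, (crossings R (-(a * c)) l : ℝ≥0∞) ≤
        ENNReal.ofReal (β * tv (l.map fun p => 1 + K2m B (clp R a p) / β)) := by
  classical
  induction l with
  | nil => simp [crossings, tv]
  | cons p l ih =>
    cases l with
    | nil => simp [crossings, tv]
    | cons p' l =>
      set S : Set ℝ := {c : ℝ | -(a * c) ∈ uIcc (R p) (R p')} with hS
      have hSm : MeasurableSet S := by
        have hc : Continuous fun c : ℝ => -(a * c) := by fun_prop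
        have : IsClosed S := isClosed_Icc.preimage hc
        exact this.measurableSet
      have hcr : (fun c : ℝ => (crossings R (-(a * c)) (p :: p' :: l) : ℝ≥0∞)) =
          fun c => S.indicator 1 c + (crossings R (-(a * c)) (p' :: l) : ℝ≥0∞) := by
        funext c
        rw [crossings, Nat.cast_add]
        congr 1
        by_cases h : -(a * c) ∈ uIcc (R p) (R p')
        · rw [if_pos h, Set.indicator_of_mem (show c ∈ S from h)]
          simp
        · rw [if_neg h, Set.indicator_of_notMem (show c ∉ S from h)]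
          simp
      have hind : Measurable (S.indicator (1 : ℝ → ℝ≥0∞)) := measurable_one.indicator hSm
      rw [hcr, lintegral_add_left hind, lintegral_indicator_one hSm, Measure.restrict_apply hSm]
      have hsub : S ∩ B ⊆ B ∩ uIcc (clp R a p) (clp R a p') := by
        rintro c ⟨hc, hcB⟩
        refine ⟨hcB, ?_⟩
        obtain ⟨h1, h2⟩ := hB hcB
        have hc' : c ∈ uIcc (-R p / a) (-R p' / a) := by
          have hc2 : -(a * c) ∈ uIcc (R p) (R p') := hc
          rw [mem_uIcc] at hc2 ⊢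
          rcases hc2 with ⟨k1, k2⟩ | ⟨k1, k2⟩
          · right
            constructor
            · rw [div_le_iff₀ ha]; linarith
            · rw [le_div_iff₀ ha]; linarith
          · left
            constructor
            · rw [div_le_iff₀ ha]; linarith
            · rw [le_div_iff₀ ha]; linarith
        rw [mem_uIcc] at hc' ⊢
        rcases hc' with ⟨k1, k2⟩ | ⟨k1, k2⟩
        · exact Or.inl ⟨K2_clp_le R a p c h1 k1, K2_le_clp R a p' c h2 k2⟩
        · exact Or.inr ⟨K2_clp_le R a p' c h1 k1, K2_le_clp R a p c h2 k2⟩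
      have hc1 : ∀ q, 1 ≤ clp R a q := fun q => le_max_left _ _
      have hvol : volume (S ∩ B) ≤
          ENNReal.ofReal |K2m B (clp R a p') - K2m B (clp R a p)| := by
        refine (measure_mono hsub).trans ?_
        rcases le_total (clp R a p) (clp R a p') with h | h
        · rw [uIcc_of_le h, K2m_sub B (hc1 p) h]
          exact ENNReal.ofReal_le_ofReal (le_abs_self _)
        · rw [uIcc_of_ge h, K2m_sub B (hc1 p') h, abs_sub_comm]
          exact ENNReal.ofReal_le_ofReal (le_abs_self _)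
      have htv : β * tv ((p :: p' :: l).map fun p => 1 + K2m B (clp R a p) / β) =
          |K2m B (clp R a p') - K2m B (clp R a p)| +
          β * tv ((p' :: l).map fun p => 1 + K2m B (clp R a p) / β) := by
        simp only [List.map_cons, tv, mul_add]
        congr 1
        rw [add_sub_add_left_eq_sub, ← sub_div, abs_div, abs_of_pos hβ]
        field_simp
      rw [htv, ENNReal.ofReal_add (abs_nonneg _) (mul_nonneg hβ.le (tv_nonneg' _))]
      exact add_le_add hvol ih

theorem K2_vol {B : Set ℝ} (hB : B ⊆ Icc 1 2) : volume B ≤ 1 := by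
  refine (measure_mono hB).trans ?_
  rw [Real.volume_Icc]
  norm_num

/-- The mean over `B` on the positive half line, `a > 0`. -/
theorem K2_mean_pos' {F G : ℝ[X]} {T : ℝ} (hF : Good F T) (hG : Pos G) (hT : 1 ≤ T) {a : ℝ}
    (ha : 0 < a) :
    ∃ H : ℝ → ℝ≥0∞, Measurable H ∧ (∀ c, (npos (F + C (a * c) * G) : ℝ≥0∞) ≤ H c) ∧
      ∀ B ⊆ Icc (1 : ℝ) 2,
        ∫⁻ c in B, H c ≤ ENNReal.ofReal (102 * T * Real.sqrt (volume B).toReal) := by
  by_cases hJ : jac F G = 0
  · refine ⟨fun _ => 0, measurable_const, fun c => ?_, by simp⟩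
    rw [npos_of_jac hG hJ]
    simp
  obtain ⟨hmeas, -⟩ := lintegral_crossings (rat F G) ha.ne' (crit F G)
  have hsort : (crit F G).Pairwise (· < ·) := by
    unfold crit
    exact (Finset.sortedLT_sort _).pairwise
  have hcpos : ∀ x ∈ crit F G, 0 < x := by
    intro x hx
    unfold crit at hx
    rw [Finset.mem_sort, Finset.mem_filter] at hx
    exact hx.2
  refine ⟨fun c => 2 + (crossings (rat F G) (-(a * c)) (crit F G) : ℝ≥0∞),
    measurable_const.add hmeas, ?_, ?_⟩
  · intro c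
    have h1 := npos_le_crossings hG hJ (-(a * c))
    rw [show F - C (-(a * c)) * G = F + C (a * c) * G by
      rw [map_neg, neg_mul, sub_neg_eq_add]] at h1
    have h3 : ((npos (F + C (a * c) * G) : ℕ) : ℝ≥0∞) ≤
        ((2 + crossings (rat F G) (-(a * c)) (crit F G) : ℕ) : ℝ≥0∞) := Nat.cast_le.mpr h1
    rw [Nat.cast_add] at h3
    exact h3
  · intro B hB
    have hB1 : volume B ≤ 1 := K2_vol hB
    have hBf : volume B ≠ ∞ := ne_top_of_le_ne_top ENNReal.one_ne_top hB1
    set β : ℝ := (volume B).toReal with hβdef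
    have hβ1 : β ≤ 1 := by
      have := ENNReal.toReal_mono ENNReal.one_ne_top hB1
      simpa using this
    rcases eq_or_lt_of_le (ENNReal.toReal_nonneg : 0 ≤ (volume B).toReal) with h0 | hβ
    · have h1 : volume B = 0 := ((ENNReal.toReal_eq_zero_iff _).1 h0.symm).resolve_right hBf
      rw [Measure.restrict_eq_zero.2 h1, lintegral_zero_measure]
      exact zero_le
    rw [← hβdef] at hβ
    have hsβ : 0 < Real.sqrt β := Real.sqrt_pos.2 hβ
    have hss : Real.sqrt β * Real.sqrt β = β := Real.mul_self_sqrt hβ.le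
    have hsβ1 : Real.sqrt β ≤ 1 := Real.sqrt_le_one.2 hβ1
    have hK2 : ∀ y, y ≤ 2 → K2m B y ≤ β := by
      intro y hy
      exact ENNReal.toReal_mono hBf (measure_mono inter_subset_left)
    have h1 : ∫⁻ _ in B, (2 : ℝ≥0∞) = ENNReal.ofReal (2 * β) := by
      rw [lintegral_const, Measure.restrict_apply MeasurableSet.univ, univ_inter,
        ENNReal.ofReal_mul (by norm_num), hβdef, ENNReal.ofReal_toReal hBf]
      norm_num
    rw [lintegral_add_left measurable_const, h1]
    have hA : 1 ≤ 10 * T / Real.sqrt β := by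
      rw [le_div_iff₀ hsβ]
      linarith
    have hint := K2_lintegral (rat F G) ha hB hβ (crit F G)
    have htv := tv_le (A := 10 * T / Real.sqrt β) hA
      ((crit F G).map fun p => 1 + K2m B (clp (rat F G) a p) / β) (by
      intro x hx
      obtain ⟨p, _, rfl⟩ := List.mem_map.mp hx
      refine ⟨le_add_of_nonneg_right (div_nonneg ENNReal.toReal_nonneg hβ.le), ?_⟩
      have h5 : K2m B (clp (rat F G) a p) / β ≤ 1 := by
        rw [div_le_one hβ]
        exact hK2 _ (max_le (by norm_num) (min_le_left _ _))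
      linarith) (by
      intro ε hε w hw hv
      obtain ⟨l', hl', rfl⟩ := List.sublist_map_iff.1 hw
      have h6 : (l'.map fun p => 1 + K2m B (clp (rat F G) a p) / β) =
          (l'.map (clp (rat F G) a)).map fun y => 1 + K2m B y / β := by
        rw [List.map_map]
        rfl
      rw [h6] at hv ⊢
      have h7 := K2_vly hβ hε _ (fun x hx => by
        obtain ⟨p, _, rfl⟩ := List.mem_map.mp hx
        exact le_max_left _ _) hv
      have h8 := vly_le hF hG ha _ hsort hcpos (mul_pos hβ hε) _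
        (List.Sublist.map (clp (rat F G) a) hl') h7
      rw [Real.sqrt_mul hβ.le] at h8
      rw [le_div_iff₀ hsβ]
      simp only [List.length_map] at h8 ⊢
      linarith)
    refine (add_le_add le_rfl hint).trans ?_
    rw [← ENNReal.ofReal_add (by positivity) (mul_nonneg hβ.le (tv_nonneg' _))]
    refine ENNReal.ofReal_le_ofReal ?_
    have h9 : β * tv ((crit F G).map fun p => 1 + K2m B (clp (rat F G) a p) / β) ≤
        100 * T * Real.sqrt β := by
      refine (mul_le_mul_of_nonneg_left htv hβ.le).trans (le_of_eq ?_)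
      have e1 : 10 * (10 * T / Real.sqrt β) * Real.sqrt β = 100 * T := by
        field_simp
        norm_num
      calc β * (10 * (10 * T / Real.sqrt β))
          = (Real.sqrt β * Real.sqrt β) * (10 * (10 * T / Real.sqrt β)) := by rw [hss]
        _ = (10 * (10 * T / Real.sqrt β) * Real.sqrt β) * Real.sqrt β := by ring
        _ = 100 * T * Real.sqrt β := by rw [e1]
    have h10 : β ≤ T * Real.sqrt β := by
      calc β = Real.sqrt β * Real.sqrt β := hss.symm
        _ ≤ 1 * Real.sqrt β := mul_le_mul_of_nonneg_right hsβ1 hsβ.le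
        _ ≤ T * Real.sqrt β := mul_le_mul_of_nonneg_right hT hsβ.le
    linarith

/-- The mean over `B` on the positive half line, all real `a`. -/
theorem K2_mean_pos {F G : ℝ[X]} {T : ℝ} (hF : Good F T) (hG : Pos G) (hT : 1 ≤ T) (a : ℝ) :
    ∃ H : ℝ → ℝ≥0∞, Measurable H ∧ (∀ c, (npos (F + C (a * c) * G) : ℝ≥0∞) ≤ H c) ∧
      ∀ B ⊆ Icc (1 : ℝ) 2,
        ∫⁻ c in B, H c ≤ ENNReal.ofReal (102 * T * Real.sqrt (volume B).toReal) := by
  rcases lt_trichotomy a 0 with ha | ha | ha
  · obtain ⟨H, h1, h2, h3⟩ := K2_mean_pos' hF.neg hG hT (neg_pos.mpr ha)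
    refine ⟨H, h1, fun c => ?_, h3⟩
    have h4 := h2 c
    rw [show -F + C (-a * c) * G = -(F + C (a * c) * G) by
      rw [neg_mul, map_neg, neg_mul]; ring, npos_neg] at h4
    exact h4
  · refine ⟨fun _ => ENNReal.ofReal T, measurable_const, fun c => ?_, fun B hB => ?_⟩
    · rw [ha, zero_mul, C_0, zero_mul, add_zero, ← ENNReal.ofReal_natCast]
      exact ENNReal.ofReal_le_ofReal hF.2.1
    · have hB1 : volume B ≤ 1 := K2_vol hB
      have hBf : volume B ≠ ∞ := ne_top_of_le_ne_top ENNReal.one_ne_top hB1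
      have hβ1 : (volume B).toReal ≤ 1 := by
        have := ENNReal.toReal_mono ENNReal.one_ne_top hB1
        simpa using this
      rw [setLIntegral_const]
      conv_lhs => rw [← ENNReal.ofReal_toReal hBf]
      rw [← ENNReal.ofReal_mul (by linarith)]
      refine ENNReal.ofReal_le_ofReal ?_
      have h0 : 0 ≤ (volume B).toReal := ENNReal.toReal_nonneg
      have h1 : (volume B).toReal ≤ Real.sqrt (volume B).toReal := by
        refine Real.le_sqrt_of_sq_le ?_
        nlinarith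
      have h2 : 0 ≤ Real.sqrt (volume B).toReal := Real.sqrt_nonneg _
      nlinarith
  · exact K2_mean_pos' hF hG hT ha

/-- The mean over `B` on the line. -/
theorem mean_line_set {m : ℕ} {f : Fin m → ℝ[X]} (hm : 0 < m) (hf : ∀ i, f i ≠ 0) (a : ℝ)
    (k : ℕ) :
    ∃ H : ℝ → ℝ≥0∞, Measurable H ∧
      (∀ c : ℝ, ((((∏ i, f i) + C (a * c) * X ^ k).roots.toFinset.card : ℕ) : ℝ≥0∞) ≤ H c) ∧
      ∀ B ⊆ Icc (1 : ℝ) 2, ∫⁻ c in B, H c ≤
        ENNReal.ofReal (205 * (∑ i, ((f i).support.card : ℝ)) *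
          Real.sqrt (volume B).toReal) := by
  have hT : (1 : ℝ) ≤ ∑ i, ((f i).support.card : ℝ) := by
    have h1 : (1 : ℝ) ≤ ((f ⟨0, hm⟩).support.card : ℝ) := by
      have : 0 < (f ⟨0, hm⟩).support.card := by
        rw [Finset.card_pos, Finset.nonempty_iff_ne_empty]
        exact fun h => hf _ (support_eq_empty.1 h)
      exact Nat.one_le_cast.mpr this
    exact h1.trans (Finset.single_le_sum (f := fun i => ((f i).support.card : ℝ))
      (fun j _ => Nat.cast_nonneg _) (Finset.mem_univ _))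
  have hf' : ∀ i, (f i).comp (-X) ≠ 0 := fun i h => hf i (comp_neg_X_eq_zero_iff.1 h)
  have hT' : ∑ i, (((f i).comp (-X)).support.card : ℝ) = ∑ i, ((f i).support.card : ℝ) :=
    Finset.sum_congr rfl fun i _ => by rw [I6_support]
  have hg := good_prod hf
  have hg' := good_prod hf'
  rw [hT', show (∏ i, (f i).comp (-X)) = (∏ i, f i).comp (-X) from (prod_comp _ _ _).symm] at hg'
  generalize (∏ i, f i) = F at *
  generalize (∑ i, ((f i).support.card : ℝ)) = T at *
  obtain ⟨H1, hm1, hH1, hI1⟩ := K2_mean_pos hg (pos_X_pow k) hT a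
  obtain ⟨H2, hm2, hH2, hI2⟩ := K2_mean_pos hg' (pos_X_pow k) hT (a * (-1) ^ k)
  refine ⟨fun c => H1 c + H2 c + 1, (hm1.add hm2).add_const _, fun c => ?_, fun B hB => ?_⟩
  · have h1 := I6_roots (F + C (a * c) * X ^ k)
    have h2 : (F + C (a * c) * X ^ k).comp (-X) =
        F.comp (-X) + C (a * (-1) ^ k * c) * X ^ k := by
      rw [add_comp, mul_comp, C_comp, pow_comp, X_comp, neg_pow, ← C_1, ← C_neg, ← C_pow,
        ← mul_assoc, ← C_mul]
      congr 3
      ring
    rw [h2] at h1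
    have h3 : ((((F + C (a * c) * X ^ k).roots.toFinset.card : ℕ)) : ℝ≥0∞) ≤
        ((npos (F + C (a * c) * X ^ k) + npos (F.comp (-X) + C (a * (-1) ^ k * c) * X ^ k) + 1 :
          ℕ) : ℝ≥0∞) := Nat.cast_le.mpr h1
    rw [Nat.cast_add, Nat.cast_add, Nat.cast_one] at h3
    exact h3.trans (add_le_add (add_le_add (hH1 c) (hH2 c)) le_rfl)
  · have hB1 : volume B ≤ 1 := K2_vol hB
    have hBf : volume B ≠ ∞ := ne_top_of_le_ne_top ENNReal.one_ne_top hB1
    have hβ1 : (volume B).toReal ≤ 1 := by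
      have := ENNReal.toReal_mono ENNReal.one_ne_top hB1
      simpa using this
    have h0 : 0 ≤ (volume B).toReal := ENNReal.toReal_nonneg
    have h4 : (volume B).toReal ≤ Real.sqrt (volume B).toReal := by
      refine Real.le_sqrt_of_sq_le ?_
      nlinarith
    have hs0 : 0 ≤ Real.sqrt (volume B).toReal := Real.sqrt_nonneg _
    have e1 : ∫⁻ c in B, (H1 c + H2 c + 1) =
        (∫⁻ c in B, H1 c) + (∫⁻ c in B, H2 c) + volume B := by
      rw [lintegral_add_right _ measurable_const, lintegral_add_right _ hm2, setLIntegral_const,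
        one_mul]
    rw [e1]
    refine (add_le_add (add_le_add (hI1 B hB) (hI2 B hB)) le_rfl).trans ?_
    conv_lhs => rw [← ENNReal.ofReal_toReal hBf]
    rw [ENNReal.toReal_ofReal h0, ← ENNReal.ofReal_add (by positivity) (by positivity),
      ← ENNReal.ofReal_add (by positivity) h0]
    refine ENNReal.ofReal_le_ofReal ?_
    nlinarith

/-- From the means over all sets to the tail. -/
theorem K2_tail {Z : ℝ → ℕ} {H : ℝ → ℝ≥0∞} (hHm : Measurable H)
    (hH : ∀ c, (Z c : ℝ≥0∞) ≤ H c) {K : ℝ} (hK : 0 < K)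
    (hI : ∀ B ⊆ Icc (1 : ℝ) 2, ∫⁻ c in B, H c ≤
      ENNReal.ofReal (K * Real.sqrt (volume B).toReal)) {n : ℕ} (hn : 1 ≤ n) :
    volume {c | c ∈ Icc (1 : ℝ) 2 ∧ n ≤ Z c} ≤ ENNReal.ofReal ((K / n) ^ 2) := by
  have hn0 : (0 : ℝ) < n := by exact_mod_cast hn
  obtain ⟨B, hBdef⟩ : ∃ B, B = Icc (1 : ℝ) 2 ∩ {c | (n : ℝ≥0∞) ≤ H c} := ⟨_, rfl⟩
  have hsub : {c | c ∈ Icc (1 : ℝ) 2 ∧ n ≤ Z c} ⊆ B := by
    rintro c ⟨h1, h2⟩
    rw [hBdef]
    exact ⟨h1, (show (n : ℝ≥0∞) ≤ (Z c : ℝ≥0∞) from Nat.cast_le.2 h2).trans (hH c)⟩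
  refine (measure_mono hsub).trans ?_
  have hBs : B ⊆ Icc 1 2 := by rw [hBdef]; exact inter_subset_left
  have hBf : volume B ≠ ∞ := ne_top_of_le_ne_top ENNReal.one_ne_top (K2_vol hBs)
  have h1 : (n : ℝ≥0∞) * volume B ≤ ∫⁻ c in B, H c := by
    rw [← setLIntegral_const]
    refine setLIntegral_mono hHm fun c hc => ?_
    rw [hBdef] at hc
    exact hc.2
  have h2 := h1.trans (hI B hBs)
  have h0 : 0 ≤ (volume B).toReal := ENNReal.toReal_nonneg
  have hs0 : 0 ≤ Real.sqrt (volume B).toReal := Real.sqrt_nonneg _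
  have h3 : n * (volume B).toReal ≤ K * Real.sqrt (volume B).toReal := by
    have h4 : ENNReal.ofReal (n * (volume B).toReal) ≤
        ENNReal.ofReal (K * Real.sqrt (volume B).toReal) := by
      rw [ENNReal.ofReal_mul hn0.le, ENNReal.ofReal_toReal hBf, ENNReal.ofReal_natCast]
      exact h2
    exact (ENNReal.ofReal_le_ofReal_iff (mul_nonneg hK.le hs0)).1 h4
  rcases eq_or_lt_of_le h0 with h5 | h5
  · have h6 : volume B = 0 := ((ENNReal.toReal_eq_zero_iff _).1 h5.symm).resolve_right hBf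
    rw [h6]
    exact zero_le
  · have h7 : 0 < Real.sqrt (volume B).toReal := Real.sqrt_pos.2 h5
    have h8 : n * Real.sqrt (volume B).toReal ≤ K := by
      have h9 : Real.sqrt (volume B).toReal * (n * Real.sqrt (volume B).toReal) ≤
          Real.sqrt (volume B).toReal * K := by
        calc _ = n * (Real.sqrt (volume B).toReal * Real.sqrt (volume B).toReal) := by ring
          _ = n * (volume B).toReal := by rw [Real.mul_self_sqrt h0]
          _ ≤ _ := by linarith
      exact le_of_mul_le_mul_left h9 h7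
    have h10 : Real.sqrt (volume B).toReal ≤ K / n := by
      rw [le_div_iff₀ hn0]
      linarith
    have h11 : (volume B).toReal ≤ (K / n) ^ 2 := by
      rw [← Real.sq_sqrt h0]
      exact pow_le_pow_left₀ hs0 h10 2
    rw [← ENNReal.ofReal_toReal hBf]
    exact ENNReal.ofReal_le_ofReal h11

/-- Part A on the line: the means over all measurable `B ⊆ [1, 2]` and the quadratic tail. -/
theorem line_set {m : ℕ} {f : Fin m → ℝ[X]} (hm : 0 < m) (hf : ∀ i, f i ≠ 0) {T : ℝ}
    (hT : ∑ i, ((f i).support.card : ℝ) = T) (hT1 : 1 ≤ T) (a : ℝ) (k : ℕ) :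
    (∃ H : ℝ → ℝ≥0∞, Measurable H ∧
      (∀ c : ℝ, ((((∏ i, f i) + C (a * c) * X ^ k).roots.toFinset.card : ℕ) : ℝ≥0∞) ≤ H c) ∧
      ∀ B ⊆ Icc (1 : ℝ) 2, MeasurableSet B →
        ∫⁻ c in B, H c ≤ ENNReal.ofReal (205 * T * √(volume B).toReal)) ∧
    ∀ n : ℕ, 1 ≤ n → volume {c | c ∈ Icc (1 : ℝ) 2 ∧
        n ≤ ((∏ i, f i) + C (a * c) * X ^ k).roots.toFinset.card} ≤
      ENNReal.ofReal ((205 * T / n) ^ 2) := by
  obtain ⟨H, hHm, hH, hI⟩ := mean_line_set hm hf a k
  rw [hT] at hI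
  exact ⟨⟨H, hHm, hH, fun B hB _ => hI B hB⟩,
    fun n hn => K2_tail hHm hH (by linarith) hI hn⟩

/-- Part A on the half line. -/
theorem pos_set {F G : ℝ[X]} {T : ℝ} (hF : Good F T) (hG : Pos G) (hT : 1 ≤ T) (a : ℝ) :
    (∃ H : ℝ → ℝ≥0∞, Measurable H ∧
      (∀ c : ℝ, ((((F + C (a * c) * G).roots.toFinset.filter fun x => 0 < x).card : ℕ) :
        ℝ≥0∞) ≤ H c) ∧
      ∀ B ⊆ Icc (1 : ℝ) 2, MeasurableSet B →
        ∫⁻ c in B, H c ≤ ENNReal.ofReal (102 * T * √(volume B).toReal)) ∧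
    ∀ n : ℕ, 1 ≤ n → volume {c | c ∈ Icc (1 : ℝ) 2 ∧
        n ≤ ((F + C (a * c) * G).roots.toFinset.filter fun x => 0 < x).card} ≤
      ENNReal.ofReal ((102 * T / n) ^ 2) := by
  obtain ⟨H, hHm, hH, hI⟩ := K2_mean_pos hF hG hT a
  exact ⟨⟨H, hHm, hH, fun B hB _ => hI B hB⟩,
    fun n hn => K2_tail hHm hH (by linarith) hI hn⟩

end Pool.Agent.MP_c11b14_lc.LM
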